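import Mathlib

/-! Schur test on a group. -/

set_option autoImplicit false

namespace Pool.Agent.Lib_helper64.Cut

open Finset

/-- left convolution by the weighted family `(c i, m i)` -/
def conv {Γ ι : Type*} [Group Γ] [Fintype ι] (c : ι → ℝ) (m : ι → Γ) (f : Γ → ℝ) : Γ → ℝ :=
  fun γ => ∑ i, c i * f ((m i)⁻¹ * γ)

lemma conv_support_finite {Γ ι : Type*} [Group Γ] [Fintype ι] (c : ι → ℝ) (m : ι → Γ)
    {f : Γ → ℝ} (hf : f.support.Finite) : (conv c m f).support.Finite := by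
  classical
  have : (conv c m f).support ⊆ ⋃ i : ι, (fun γ => m i * γ) '' f.support := by
    intro γ hγ
    rw [Function.mem_support] at hγ
    have : ∃ i, c i * f ((m i)⁻¹ * γ) ≠ 0 := by
      by_contra hcon
      push Not at hcon
      exact hγ (Finset.sum_eq_zero fun i _ => hcon i)
    obtain ⟨i, hi⟩ := this
    rw [Set.mem_iUnion]
    refine ⟨i, (m i)⁻¹ * γ, ?_, by simp⟩
    rw [Function.mem_support]
    exact fun h0 => hi (by rw [h0, mul_zero])
  exact (Set.finite_iUnion fun i => hf.image _).subset this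

lemma conv_nonneg {Γ ι : Type*} [Group Γ] [Fintype ι] {c : ι → ℝ} (hc : ∀ i, 0 ≤ c i)
    (m : ι → Γ) {f : Γ → ℝ} (hf : ∀ γ, 0 ≤ f γ) (γ : Γ) : 0 ≤ conv c m f γ :=
  Finset.sum_nonneg fun i _ => mul_nonneg (hc i) (hf _)

theorem schur {Γ ι : Type*} [Group Γ] [Fintype ι] (c : ι → ℝ) (hc : ∀ i, 0 ≤ c i) (m : ι → Γ)
    (h : Γ → ℝ) (hpos : ∀ γ, 0 < h γ) (ρ : ℝ)
    (h1 : ∀ γ, ∑ i, c i * h (m i * γ) ≤ ρ * h γ)
    (h2 : ∀ γ, ∑ i, c i * h ((m i)⁻¹ * γ) ≤ ρ * h γ)
    (f : Γ → ℝ) (hf : f.support.Finite) :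
    ∑' γ, (conv c m f γ) ^ 2 ≤ ρ ^ 2 * ∑' γ, f γ ^ 2 := by
  classical
  have hρ : 0 ≤ ρ := by
    have h3 := h1 1
    have h4 : 0 ≤ ∑ i, c i * h (m i * 1) :=
      Finset.sum_nonneg fun i _ => mul_nonneg (hc i) (hpos _).le
    by_contra hcon
    push Not at hcon
    have := mul_neg_of_neg_of_pos hcon (hpos 1)
    linarith
  -- pointwise bound
  have hpt : ∀ γ, (conv c m f γ) ^ 2 ≤
      ρ * ∑ i, c i * (h γ * (f ((m i)⁻¹ * γ) ^ 2 / h ((m i)⁻¹ * γ))) := by
    intro γ
    have hcs := Finset.sum_sq_le_sum_mul_sum_of_sq_eq_mul (Finset.univ : Finset ι)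
      (r := fun i => c i * f ((m i)⁻¹ * γ))
      (f := fun i => c i * h ((m i)⁻¹ * γ))
      (g := fun i => c i * (f ((m i)⁻¹ * γ) ^ 2 / h ((m i)⁻¹ * γ)))
      (fun i _ => mul_nonneg (hc i) (hpos _).le)
      (fun i _ => mul_nonneg (hc i) (div_nonneg (sq_nonneg _) (hpos _).le))
      (fun i _ => by
        have := (hpos ((m i)⁻¹ * γ)).ne'
        field_simp)
    have h5 : 0 ≤ ∑ i, c i * (f ((m i)⁻¹ * γ) ^ 2 / h ((m i)⁻¹ * γ)) :=
      Finset.sum_nonneg fun i _ => mul_nonneg (hc i) (div_nonneg (sq_nonneg _) (hpos _).le)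
    calc (conv c m f γ) ^ 2 ≤ _ := hcs
      _ ≤ (ρ * h γ) * ∑ i, c i * (f ((m i)⁻¹ * γ) ^ 2 / h ((m i)⁻¹ * γ)) :=
          mul_le_mul_of_nonneg_right (h2 γ) h5
      _ = _ := by
          rw [mul_assoc, Finset.mul_sum]
          congr 1
          exact Finset.sum_congr rfl fun i _ => by ring
  -- summability from finite support
  have hs1 : Summable fun γ => f γ ^ 2 := by
    apply summable_of_hasFiniteSupport
    exact hf.subset fun γ hγ => by
      rw [Function.mem_support] at hγ ⊢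
      exact fun h0 => hγ (by rw [h0]; simp)
  have hs2 : Summable fun γ => (conv c m f γ) ^ 2 := by
    apply summable_of_hasFiniteSupport
    exact (conv_support_finite c m hf).subset fun γ hγ => by
      rw [Function.mem_support] at hγ ⊢
      exact fun h0 => hγ (by rw [h0]; simp)
  have hs3 : ∀ i, Summable fun γ => h (m i * γ) * (f γ ^ 2 / h γ) := by
    intro i
    apply summable_of_hasFiniteSupport
    exact hf.subset fun γ hγ => by
      rw [Function.mem_support] at hγ ⊢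
      exact fun h0 => hγ (by rw [h0]; simp)
  have hs3' : ∀ i, Summable fun γ => h γ * (f ((m i)⁻¹ * γ) ^ 2 / h ((m i)⁻¹ * γ)) := by
    intro i
    have := ((Equiv.mulLeft (m i)⁻¹).summable_iff).mpr (hs3 i)
    refine this.congr fun γ => ?_
    simp [Function.comp]
  have ht : ∀ i, ∑' γ, h γ * (f ((m i)⁻¹ * γ) ^ 2 / h ((m i)⁻¹ * γ)) =
      ∑' γ, h (m i * γ) * (f γ ^ 2 / h γ) := by
    intro i
    rw [← (Equiv.mulLeft (m i)⁻¹).tsum_eq (fun γ => h (m i * γ) * (f γ ^ 2 / h γ))]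
    refine tsum_congr fun γ => ?_
    simp
  calc ∑' γ, (conv c m f γ) ^ 2
      ≤ ∑' γ, ρ * ∑ i, c i * (h γ * (f ((m i)⁻¹ * γ) ^ 2 / h ((m i)⁻¹ * γ))) := by
        refine Summable.tsum_le_tsum hpt hs2 ?_
        exact (summable_sum fun i _ => (hs3' i).mul_left _).mul_left _
    _ = ρ * ∑ i, c i * ∑' γ, h (m i * γ) * (f γ ^ 2 / h γ) := by
        rw [tsum_mul_left, Summable.tsum_finsetSum fun i _ => (hs3' i).mul_left _]
        congr 1
        refine Finset.sum_congr rfl fun i _ => ?_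
        rw [tsum_mul_left, ht]
    _ = ρ * ∑' γ, (∑ i, c i * h (m i * γ)) * (f γ ^ 2 / h γ) := by
        congr 1
        rw [← Finset.sum_congr rfl fun i _ => tsum_mul_left,
          ← Summable.tsum_finsetSum fun i _ => (hs3 i).mul_left _]
        refine tsum_congr fun γ => ?_
        rw [Finset.sum_mul]
        exact Finset.sum_congr rfl fun i _ => by ring
    _ ≤ ρ * ∑' γ, ρ * f γ ^ 2 := by
        refine mul_le_mul_of_nonneg_left ?_ hρ
        refine Summable.tsum_le_tsum (fun γ => ?_) ?_ (hs1.mul_left _)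
        · calc (∑ i, c i * h (m i * γ)) * (f γ ^ 2 / h γ) ≤ (ρ * h γ) * (f γ ^ 2 / h γ) :=
                mul_le_mul_of_nonneg_right (h1 γ) (div_nonneg (sq_nonneg _) (hpos _).le)
            _ = ρ * f γ ^ 2 := by
                have := (hpos γ).ne'
                field_simp
        · apply summable_of_hasFiniteSupport
          exact hf.subset fun γ hγ => by
            rw [Function.mem_support] at hγ ⊢
            exact fun h0 => hγ (by rw [h0]; simp)
    _ = ρ ^ 2 * ∑' γ, f γ ^ 2 := by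
        rw [tsum_mul_left]; ring

end Pool.Agent.Lib_helper64.Cut
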