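import Mathlib
import Pool.Agent.Lib_helper64.Cut.Schur

/-! Expectations over random words. -/

set_option autoImplicit false

namespace Pool.Agent.Lib_helper64.Cut

open Finset

section Ew

variable {ι : Type*} [Fintype ι]

/-- expectation over random words of length `n` with i.i.d. letters of law `c` -/
noncomputable def Ew (c : ι → ℝ) : ℕ → (List ι → ℝ) → ℝ
  | 0, f => f []
  | n + 1, f => ∑ i, c i * Ew c n (fun w => f (i :: w))

variable {c : ι → ℝ}

lemma Ew_zero (f : List ι → ℝ) : Ew c 0 f = f [] := rfl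

lemma Ew_succ (n : ℕ) (f : List ι → ℝ) :
    Ew c (n + 1) f = ∑ i, c i * Ew c n (fun w => f (i :: w)) := rfl

lemma Ew_congr {n : ℕ} {f g : List ι → ℝ} (h : ∀ w : List ι, w.length = n → f w = g w) :
    Ew c n f = Ew c n g := by
  induction n generalizing f g with
  | zero => exact h [] rfl
  | succ n ih =>
    rw [Ew_succ, Ew_succ]
    refine Finset.sum_congr rfl fun i _ => ?_
    rw [ih fun w hw => h (i :: w) (by simp [hw])]

lemma Ew_mono (hc : ∀ i, 0 ≤ c i) {n : ℕ} {f g : List ι → ℝ}
    (h : ∀ w : List ι, w.length = n → f w ≤ g w) : Ew c n f ≤ Ew c n g := by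
  induction n generalizing f g with
  | zero => exact h [] rfl
  | succ n ih =>
    rw [Ew_succ, Ew_succ]
    refine Finset.sum_le_sum fun i _ => ?_
    exact mul_le_mul_of_nonneg_left (ih fun w hw => h (i :: w) (by simp [hw])) (hc i)

lemma Ew_add (n : ℕ) (f g : List ι → ℝ) :
    Ew c n (fun w => f w + g w) = Ew c n f + Ew c n g := by
  induction n generalizing f g with
  | zero => rfl
  | succ n ih =>
    rw [Ew_succ, Ew_succ, Ew_succ, ← Finset.sum_add_distrib]
    refine Finset.sum_congr rfl fun i _ => ?_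
    rw [ih, mul_add]

lemma Ew_mul_left (n : ℕ) (a : ℝ) (f : List ι → ℝ) :
    Ew c n (fun w => a * f w) = a * Ew c n f := by
  induction n generalizing f with
  | zero => rfl
  | succ n ih =>
    rw [Ew_succ, Ew_succ, Finset.mul_sum]
    refine Finset.sum_congr rfl fun i _ => ?_
    rw [ih]; ring

lemma Ew_mul_right (n : ℕ) (a : ℝ) (f : List ι → ℝ) :
    Ew c n (fun w => f w * a) = Ew c n f * a := by
  simp only [mul_comm _ a, Ew_mul_left]

lemma Ew_neg (n : ℕ) (f : List ι → ℝ) :
    Ew c n (fun w => - f w) = - Ew c n f := by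
  have := Ew_mul_left (c := c) n (-1) f
  simpa using this

lemma Ew_sub (n : ℕ) (f g : List ι → ℝ) :
    Ew c n (fun w => f w - g w) = Ew c n f - Ew c n g := by
  simp only [sub_eq_add_neg, Ew_add, Ew_neg]

lemma Ew_fzero (n : ℕ) : Ew c n (fun _ => 0) = 0 := by
  have := Ew_mul_left (c := c) n 0 (fun _ => 0)
  simpa using this

lemma Ew_const (hc : ∑ i, c i = 1) (n : ℕ) (a : ℝ) : Ew c n (fun _ => a) = a := by
  induction n with
  | zero => rfl
  | succ n ih => rw [Ew_succ]; simp only [ih]; rw [← Finset.sum_mul, hc, one_mul]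

lemma Ew_nonneg (hc : ∀ i, 0 ≤ c i) {n : ℕ} {f : List ι → ℝ}
    (h : ∀ w : List ι, w.length = n → 0 ≤ f w) : 0 ≤ Ew c n f := by
  have := Ew_mono hc (f := fun _ => 0) h
  rwa [Ew_fzero] at this

lemma Ew_le_const (hc : ∀ i, 0 ≤ c i) (hc1 : ∑ i, c i = 1) {n : ℕ} {f : List ι → ℝ} {a : ℝ}
    (h : ∀ w : List ι, w.length = n → f w ≤ a) : Ew c n f ≤ a := by
  have := Ew_mono hc (g := fun _ => a) h
  rwa [Ew_const hc1] at this

lemma Ew_finset_sum {α : Type*} (s : Finset α) (n : ℕ) (f : α → List ι → ℝ) :
    Ew c n (fun w => ∑ a ∈ s, f a w) = ∑ a ∈ s, Ew c n (f a) := by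
  classical
  induction s using Finset.induction_on with
  | empty => simp only [Finset.sum_empty, Ew_fzero]
  | insert a s ha ih =>
    simp only [Finset.sum_insert ha, Ew_add, ih]

/-- Fubini -/
lemma Ew_comm {κ : Type*} [Fintype κ] {d : κ → ℝ} (m n : ℕ) (f : List ι → List κ → ℝ) :
    Ew c m (fun w => Ew d n (fun v => f w v)) = Ew d n (fun v => Ew c m (fun w => f w v)) := by
  induction m generalizing f with
  | zero => rfl
  | succ m ih =>
    simp only [Ew_succ, Ew_finset_sum, Ew_mul_left, ih]

lemma Ew_append (m n : ℕ) (f : List ι → ℝ) :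
    Ew c (m + n) f = Ew c m (fun w => Ew c n (fun v => f (w ++ v))) := by
  induction m generalizing f with
  | zero => simp [Ew_zero]
  | succ m ih =>
    rw [show m + 1 + n = (m + n) + 1 by ring, Ew_succ, Ew_succ]
    simp only [ih, List.cons_append]

/-- convexity: the norm of an average -/
lemma norm_Ew_le {E : Type*} [SeminormedAddCommGroup E] [NormedSpace ℝ E] (hc : ∀ i, 0 ≤ c i)
    (n : ℕ) (F : List ι → E) (G : E)
    (hG : ∀ φ : E →L[ℝ] ℝ, φ G = Ew c n (fun w => φ (F w))) :
    ‖G‖ ≤ Ew c n (fun w => ‖F w‖) := by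
  obtain ⟨φ, hφ1, hφ2⟩ := exists_dual_vector'' ℝ G
  have h1 : φ G = ‖G‖ := by simpa using hφ2
  rw [← h1, hG]
  refine Ew_mono hc fun w _ => ?_
  calc φ (F w) ≤ ‖φ (F w)‖ := Real.le_norm_self _
    _ ≤ ‖φ‖ * ‖F w‖ := φ.le_opNorm _
    _ ≤ 1 * ‖F w‖ := mul_le_mul_of_nonneg_right hφ1 (norm_nonneg _)
    _ = _ := one_mul _

end Ew

/-! ### the law of the product -/

section law

variable {ι : Type*} [Fintype ι] {Γ : Type*} [Group Γ]

open Classical in
/-- the law of the product of `n` steps -/
noncomputable def law (c : ι → ℝ) (m : ι → Γ) : ℕ → Γ → ℝ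
  | 0 => fun γ => if γ = 1 then 1 else 0
  | n + 1 => conv c m (law c m n)

lemma law_finite (c : ι → ℝ) (m : ι → Γ) (n : ℕ) : (law c m n).support.Finite := by
  induction n with
  | zero =>
    refine (Set.finite_singleton (1 : Γ)).subset fun γ hγ => ?_
    rw [Function.mem_support] at hγ
    by_contra hcon
    exact hγ (if_neg hcon)
  | succ n ih => exact conv_support_finite _ _ ih

lemma law_nonneg {c : ι → ℝ} (hc : ∀ i, 0 ≤ c i) (m : ι → Γ) (n : ℕ) (γ : Γ) :
    0 ≤ law c m n γ := by
  induction n generalizing γ with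
  | zero => simp only [law]; positivity
  | succ n ih => exact conv_nonneg hc _ ih _

lemma summable_law_mul (c : ι → ℝ) (m : ι → Γ) (n : ℕ) (f : Γ → ℝ) :
    Summable fun γ => law c m n γ * f γ := by
  apply summable_of_hasFiniteSupport
  exact (law_finite c m n).subset fun γ hγ => by
    rw [Function.mem_support] at hγ ⊢
    exact fun h0 => hγ (by rw [h0]; simp)

lemma Ew_prod (c : ι → ℝ) (m : ι → Γ) (n : ℕ) (f : Γ → ℝ) :
    Ew c n (fun w => f (w.map m).prod) = ∑' γ, law c m n γ * f γ := by
  classical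
  induction n generalizing f with
  | zero =>
    rw [Ew_zero]
    simp only [List.map_nil, List.prod_nil, law, ite_mul, one_mul, zero_mul]
    rw [tsum_ite_eq]
  | succ n ih =>
    rw [Ew_succ]
    simp only [List.map_cons, List.prod_cons]
    have h1 : ∀ i, Ew c n (fun w => f (m i * (w.map m).prod)) =
        ∑' γ, law c m n ((m i)⁻¹ * γ) * f γ := by
      intro i
      rw [ih fun γ => f (m i * γ)]
      rw [← (Equiv.mulLeft (m i)⁻¹).tsum_eq (fun γ => law c m n γ * f (m i * γ))]
      refine tsum_congr fun γ => ?_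
      simp
    have h2 : ∀ i, Summable fun γ => law c m n ((m i)⁻¹ * γ) * f γ := by
      intro i
      have := ((Equiv.mulLeft (m i)⁻¹).summable_iff).mpr
        (summable_law_mul c m n (fun γ => f (m i * γ)))
      refine this.congr fun γ => ?_
      simp [Function.comp]
    simp only [h1]
    simp_rw [← tsum_mul_left]
    rw [← Summable.tsum_finsetSum fun i _ => (h2 i).mul_left _]
    refine tsum_congr fun γ => ?_
    change _ = (∑ i, c i * law c m n ((m i)⁻¹ * γ)) * f γ
    rw [Finset.sum_mul]
    exact Finset.sum_congr rfl fun i _ => by ring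

open Classical in
/-- collision probability -/
lemma Ew_coll (c : ι → ℝ) (m : ι → Γ) (n : ℕ) :
    Ew c n (fun w => Ew c n (fun w' => if (w.map m).prod = (w'.map m).prod then 1 else 0)) =
      ∑' γ, law c m n γ ^ 2 := by
  have h1 : ∀ w : List ι, Ew c n (fun w' => if (w.map m).prod = (w'.map m).prod then 1 else 0) =
      law c m n (w.map m).prod := by
    intro w
    rw [Ew_prod c m n (fun γ => if (w.map m).prod = γ then 1 else 0)]
    simp only [mul_ite, mul_one, mul_zero]
    rw [tsum_eq_single (w.map m).prod (fun b hb => if_neg (Ne.symm hb)), if_pos rfl]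
  simp only [h1]
  rw [Ew_prod c m n (fun γ => law c m n γ)]
  exact tsum_congr fun γ => by ring

open Classical in
/-- probability of a finite set of products -/
lemma Ew_mem_le {c : ι → ℝ} (m : ι → Γ) (n : ℕ) (S : Γ → Prop) (M : ℕ)
    (hS : ∀ T : Finset Γ, (∀ γ ∈ T, S γ) → T.card ≤ M) :
    Ew c n (fun w => if S (w.map m).prod then 1 else 0) ≤
      √(M * ∑' γ, law c m n γ ^ 2) := by
  rw [Ew_prod c m n (fun γ => if S γ then 1 else 0)]
  set T : Finset Γ := (law_finite c m n).toFinset.filter S with hT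
  have hTcard := hS T (fun γ hγ => (Finset.mem_filter.mp hγ).2)
  have h1 : ∑' γ, law c m n γ * (if S γ then 1 else 0) = ∑ γ ∈ T, law c m n γ := by
    rw [tsum_eq_sum (s := T)]
    · refine Finset.sum_congr rfl fun γ hγ => ?_
      rw [if_pos (Finset.mem_filter.mp hγ).2, mul_one]
    · intro γ hγ
      by_cases h2 : S γ
      · have : law c m n γ = 0 := by
          by_contra hne
          exact hγ (Finset.mem_filter.mpr ⟨(Set.Finite.mem_toFinset _).mpr hne, h2⟩)
        rw [this, zero_mul]
      · rw [if_neg h2, mul_zero]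
  rw [h1]
  apply Real.le_sqrt_of_sq_le
  have hsum : Summable fun γ => law c m n γ ^ 2 := by
    refine (summable_law_mul c m n (law c m n)).congr fun γ => by ring
  calc (∑ γ ∈ T, law c m n γ) ^ 2 ≤ T.card * ∑ γ ∈ T, law c m n γ ^ 2 :=
        sq_sum_le_card_mul_sum_sq
    _ ≤ M * ∑' γ, law c m n γ ^ 2 := by
        refine mul_le_mul (by exact_mod_cast hTcard) ?_ ?_ (by positivity)
        · exact hsum.sum_le_tsum T (fun γ _ => sq_nonneg _)
        · exact Finset.sum_nonneg fun γ _ => sq_nonneg _

end law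

/-! ### collisions in a finite quotient -/

section coll

variable {ι : Type*} [Fintype ι] {P : Type*} [Group P] [Fintype P]

open Classical in
lemma Ew_coll_shift {c : ι → ℝ} (n : ℕ) (X : List ι → P) (z : P) :
    Ew c n (fun w => Ew c n (fun w' => if X w = z * X w' then 1 else 0)) ≤
      Ew c n (fun w => Ew c n (fun w' => if X w = X w' then 1 else 0)) := by
  -- p a = P(X = a)
  set p : P → ℝ := fun a => Ew c n (fun w => if X w = a then 1 else 0) with hp
  have key : ∀ z : P, Ew c n (fun w => Ew c n (fun w' => if X w = z * X w' then 1 else 0)) =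
      ∑ a, p (z * a) * p a := by
    intro z
    have h1 : ∀ w w' : List ι, (if X w = z * X w' then (1 : ℝ) else 0) =
        ∑ a, (if X w' = a then 1 else 0) * (if X w = z * a then 1 else 0) := by
      intro w w'
      rw [Finset.sum_eq_single (X w')]
      · simp
      · intro b _ hb
        rw [if_neg (Ne.symm hb), zero_mul]
      · simp
    simp only [h1]
    simp only [Ew_finset_sum, Ew_mul_right, Ew_mul_left]
    refine Finset.sum_congr rfl fun a _ => ?_
    simp only [hp]
    ring
  rw [key z]
  have h1 := key 1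
  simp only [one_mul] at h1
  rw [h1]
  have h2 : ∑ a, p (z * a) * p (z * a) = ∑ a, p a * p a :=
    Equiv.sum_comp (Equiv.mulLeft z) (fun a => p a * p a)
  have h3 : ∀ a, p (z * a) * p a ≤ (p (z * a) * p (z * a) + p a * p a) / 2 := by
    intro a
    nlinarith [sq_nonneg (p (z * a) - p a)]
  calc ∑ a, p (z * a) * p a ≤ ∑ a, (p (z * a) * p (z * a) + p a * p a) / 2 :=
        Finset.sum_le_sum fun a _ => h3 a
    _ = (∑ a, p (z * a) * p (z * a) + ∑ a, p a * p a) / 2 := by
        rw [← Finset.sum_div, Finset.sum_add_distrib]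
    _ = ∑ a, p a * p a := by rw [h2]; ring

open Classical in
/-- the probability that `X X'⁻¹` lies in a finite set -/
lemma Ew_coll_set {c : ι → ℝ} (n : ℕ) (X : List ι → P) (Z : Finset P) :
    Ew c n (fun w => Ew c n (fun w' => if X w * (X w')⁻¹ ∈ Z then 1 else 0)) ≤
      Z.card * Ew c n (fun w => Ew c n (fun w' => if X w = X w' then 1 else 0)) := by
  calc Ew c n (fun w => Ew c n (fun w' => if X w * (X w')⁻¹ ∈ Z then 1 else 0))
      = ∑ z ∈ Z, Ew c n (fun w => Ew c n (fun w' => if X w = z * X w' then 1 else 0)) := by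
        simp only [← Ew_finset_sum]
        congr 1; ext w; congr 1; ext w'
        by_cases h : X w * (X w')⁻¹ ∈ Z
        · rw [if_pos h, Finset.sum_eq_single_of_mem _ h]
          · simp
          · intro b _ hb
            rw [if_neg]
            intro h2
            exact hb (by rw [h2]; group)
        · rw [if_neg h]
          symm
          refine Finset.sum_eq_zero fun z hz => ?_
          rw [if_neg]
          intro h2
          exact h (by rw [h2]; simpa using hz)
    _ ≤ ∑ z ∈ Z, Ew c n (fun w => Ew c n (fun w' => if X w = X w' then 1 else 0)) :=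
        Finset.sum_le_sum fun z _ => Ew_coll_shift n X z
    _ = _ := by rw [Finset.sum_const, nsmul_eq_mul]

end coll

end Pool.Agent.Lib_helper64.Cut
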