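import Mathlib
import Pool.Agent.Lib_helper64.Cut.Words

/-! The averaged collision probability of `w₁ g₁ w₂ g₂ ⋯`. -/

set_option autoImplicit false
set_option linter.unusedSectionVars false

namespace Pool.Agent.Lib_helper64.Cut

open Finset

section EW

variable {ι : Type*} [Fintype ι]

/-- expectation over tuples of independent random words of lengths `L` -/
noncomputable def EW (c : ι → ℝ) : List ℕ → (List (List ι) → ℝ) → ℝ
  | [], f => f []
  | ℓ :: L, f => Ew c ℓ (fun w => EW c L (fun ws => f (w :: ws)))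

variable {c : ι → ℝ}

lemma EW_nil (f : List (List ι) → ℝ) : EW c [] f = f [] := rfl

lemma EW_cons (ℓ : ℕ) (L : List ℕ) (f : List (List ι) → ℝ) :
    EW c (ℓ :: L) f = Ew c ℓ (fun w => EW c L (fun ws => f (w :: ws))) := rfl

lemma EW_Ew_comm {κ : Type*} [Fintype κ] {d : κ → ℝ} (L : List ℕ) (n : ℕ)
    (f : List (List ι) → List κ → ℝ) :
    EW c L (fun ws => Ew d n (fun v => f ws v)) = Ew d n (fun v => EW c L (fun ws => f ws v)) := by
  induction L generalizing f with
  | nil => rfl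
  | cons ℓ L ih =>
    simp only [EW_cons]
    rw [← Ew_comm]
    congr 1
    ext w
    exact ih _

lemma EW_mul_left (L : List ℕ) (a : ℝ) (f : List (List ι) → ℝ) :
    EW c L (fun ws => a * f ws) = a * EW c L f := by
  induction L generalizing f with
  | nil => rfl
  | cons ℓ L ih =>
    simp only [EW_cons, ih, Ew_mul_left]

lemma EW_add (L : List ℕ) (f g : List (List ι) → ℝ) :
    EW c L (fun ws => f ws + g ws) = EW c L f + EW c L g := by
  induction L generalizing f g with
  | nil => rfl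
  | cons ℓ L ih =>
    simp only [EW_cons, ih, Ew_add]

lemma EW_finset_sum {α : Type*} (s : Finset α) (L : List ℕ) (f : α → List (List ι) → ℝ) :
    EW c L (fun ws => ∑ a ∈ s, f a ws) = ∑ a ∈ s, EW c L (f a) := by
  induction L generalizing f with
  | nil => rfl
  | cons ℓ L ih =>
    simp only [EW_cons, ih, Ew_finset_sum]

lemma EW_mono (hc : ∀ i, 0 ≤ c i) {L : List ℕ} {f g : List (List ι) → ℝ}
    (h : ∀ ws, f ws ≤ g ws) : EW c L f ≤ EW c L g := by
  induction L generalizing f g with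
  | nil => exact h []
  | cons ℓ L ih =>
    simp only [EW_cons]
    exact Ew_mono hc fun w _ => ih fun ws => h _

lemma EW_const (hc : ∑ i, c i = 1) (L : List ℕ) (a : ℝ) : EW c L (fun _ => a) = a := by
  induction L with
  | nil => rfl
  | cons ℓ L ih => simp only [EW_cons, ih, Ew_const hc]

end EW

section coll

variable {ι : Type*} [Fintype ι] {c : ι → ℝ} {P : Type*} [Group P] [Fintype P]

/-- average over `n`-tuples of elements of `P` -/
noncomputable abbrev AV (P : Type*) [Fintype P] (n : ℕ) (f : List P → ℝ) : ℝ :=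
  Ew (fun _ : P => (Fintype.card P : ℝ)⁻¹) n f

lemma card_P_pos : (0 : ℝ) < Fintype.card P := by
  exact_mod_cast Fintype.card_pos

lemma AV_weight_sum : ∑ _g : P, (Fintype.card P : ℝ)⁻¹ = 1 := by
  rw [Finset.sum_const, Finset.card_univ, nsmul_eq_mul, mul_inv_cancel₀ card_P_pos.ne']

/-- the product `X w₁ g₁ X w₂ g₂ ⋯` -/
def pa (X : List ι → P) : List (List ι) → List P → P
  | w :: ws, g :: gs => X w * g * pa X ws gs
  | _, _ => 1

open Classical in
/-- law of `pa ws gs * (pa ws' gs)⁻¹` -/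
noncomputable def zet (c : ι → ℝ) (X : List ι → P) (L : List ℕ) (z : P) : ℝ :=
  AV P L.length (fun gs => EW c L (fun ws => EW c L (fun ws' =>
    if pa X ws gs * (pa X ws' gs)⁻¹ = z then 1 else 0)))

/-- class average -/
noncomputable def cav (f : P → ℝ) (z : P) : ℝ := (Fintype.card P : ℝ)⁻¹ * ∑ g, f (g⁻¹ * z * g)

lemma zet_nil (X : List ι → P) [DecidableEq P] (z : P) :
    zet c X [] z = if z = 1 then 1 else 0 := by
  simp only [zet, AV, List.length_nil, Ew_zero, EW_nil, pa, inv_one, mul_one]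
  by_cases h : z = 1
  · simp [h]
  · have h' : ¬ (1 = z) := fun e => h e.symm
    simp [h, h']

lemma zet_cons (X : List ι → P) (ℓ : ℕ) (L : List ℕ) (z : P) :
    zet c X (ℓ :: L) z =
      Ew c ℓ (fun w => Ew c ℓ (fun w' => cav (zet c X L) ((X w)⁻¹ * z * X w'))) := by
  classical
  have h1 : ∀ (g : P) (gs : List P) (w w' : List ι) (ws ws' : List (List ι)),
      (pa X (w :: ws) (g :: gs) * (pa X (w' :: ws') (g :: gs))⁻¹ = z) ↔
      pa X ws gs * (pa X ws' gs)⁻¹ = g⁻¹ * ((X w)⁻¹ * z * X w') * g := by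
    intro g gs w w' ws ws'
    simp only [pa]
    constructor
    · intro h
      rw [← h]; group
    · intro h
      have : pa X ws gs = (g⁻¹ * ((X w)⁻¹ * z * X w') * g) * pa X ws' gs := by
        rw [← h]; group
      rw [this]; group
  rw [zet, List.length_cons, AV, Ew_succ]
  have h2 : ∀ g : P, Ew (fun _ : P => (Fintype.card P : ℝ)⁻¹) L.length
      (fun gs => EW c (ℓ :: L) (fun ws => EW c (ℓ :: L) (fun ws' =>
        if pa X ws (g :: gs) * (pa X ws' (g :: gs))⁻¹ = z then 1 else 0))) =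
      Ew c ℓ (fun w => Ew c ℓ (fun w' => zet c X L (g⁻¹ * ((X w)⁻¹ * z * X w') * g))) := by
    intro g
    simp only [EW_cons]
    rw [← Ew_comm]
    congr 1
    ext w
    simp only [h1]
    have h3 : ∀ gs : List P, EW c L (fun ws => Ew c ℓ (fun w' => EW c L (fun ws' =>
        if pa X ws gs * (pa X ws' gs)⁻¹ = g⁻¹ * ((X w)⁻¹ * z * X w') * g then (1 : ℝ) else 0))) =
        Ew c ℓ (fun w' => EW c L (fun ws => EW c L (fun ws' =>
        if pa X ws gs * (pa X ws' gs)⁻¹ = g⁻¹ * ((X w)⁻¹ * z * X w') * g then (1 : ℝ) else 0))) :=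
      fun gs => EW_Ew_comm L ℓ _
    simp only [h3]
    rw [← Ew_comm]
    rfl
  simp only [h2]
  rw [← Finset.mul_sum]
  simp only [cav]
  simp only [Ew_mul_left, Ew_finset_sum]

lemma cav_conj (f : P → ℝ) (z b : P) : cav f (b * z * b⁻¹) = cav f z := by
  unfold cav
  congr 1
  rw [← Equiv.sum_comp (Equiv.mulLeft b)]
  refine Finset.sum_congr rfl fun g _ => ?_
  simp only [Equiv.coe_mulLeft, mul_inv_rev]
  congr 1
  group

/-- the class operator -/
noncomputable def TD (D : P) (f : P → ℝ) (x : P) : ℝ :=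
  (∑ u, f (u * D * u⁻¹ * x)) / Fintype.card P

lemma cav_zet_cons (X : List ι → P) (ℓ : ℕ) (L : List ℕ) (z : P) :
    cav (zet c X (ℓ :: L)) z =
      Ew c ℓ (fun w => Ew c ℓ (fun w' => TD (X w' * (X w)⁻¹) (cav (zet c X L)) z)) := by
  conv_lhs => rw [cav]
  simp only [zet_cons]
  simp only [← Ew_finset_sum, ← Ew_mul_left]
  congr 1; ext w; congr 1; ext w'
  rw [TD, div_eq_inv_mul]
  congr 1
  refine Finset.sum_congr rfl fun h _ => ?_
  rw [← cav_conj _ _ (h * X w')]
  congr 1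
  group

/-- the `ℓ²` norm of a function on `P` -/
noncomputable def N2 (f : P → ℝ) : ℝ := ‖(WithLp.toLp 2 f : EuclideanSpace ℝ P)‖

lemma N2_sq (f : P → ℝ) : N2 f ^ 2 = ∑ x, f x ^ 2 := by
  rw [N2, EuclideanSpace.norm_sq_eq]
  simp

lemma N2_nonneg (f : P → ℝ) : 0 ≤ N2 f := norm_nonneg _

lemma N2_smul {a : ℝ} (ha : 0 ≤ a) (f : P → ℝ) : N2 (fun x => a * f x) = a * N2 f := by
  have : (WithLp.toLp 2 (fun x => a * f x) : EuclideanSpace ℝ P) = a • WithLp.toLp 2 f := by
    ext x; rfl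
  rw [N2, this, norm_smul, Real.norm_of_nonneg ha]; rfl

lemma N2_sum_le {α : Type*} (s : Finset α) (F : α → P → ℝ) :
    N2 (fun x => ∑ a ∈ s, F a x) ≤ ∑ a ∈ s, N2 (F a) := by
  have : (WithLp.toLp 2 (fun x => ∑ a ∈ s, F a x) : EuclideanSpace ℝ P) =
      ∑ a ∈ s, WithLp.toLp 2 (F a) := by
    ext x
    rw [WithLp.ofLp_sum, Finset.sum_apply]
  rw [N2, this]
  exact norm_sum_le _ _

lemma abs_le_N2 (f : P → ℝ) (x : P) : |f x| ≤ N2 f := by
  have h : f x ^ 2 ≤ N2 f ^ 2 := by
    rw [N2_sq]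
    exact Finset.single_le_sum (f := fun x => f x ^ 2) (fun y _ => sq_nonneg _) (mem_univ x)
  exact abs_le_of_sq_le_sq h (N2_nonneg f)

lemma N2_Ew_le (hc : ∀ i, 0 ≤ c i) (n : ℕ) (F : List ι → P → ℝ) :
    N2 (fun x => Ew c n (fun w => F w x)) ≤ Ew c n (fun w => N2 (F w)) := by
  induction n generalizing F with
  | zero => exact le_rfl
  | succ n ih =>
    simp only [Ew_succ]
    calc _ ≤ ∑ i, N2 (fun x => c i * Ew c n (fun w => F (i :: w) x)) := N2_sum_le _ _
      _ ≤ _ := by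
        refine Finset.sum_le_sum fun i _ => ?_
        rw [N2_smul (hc i)]
        exact mul_le_mul_of_nonneg_left (ih _) (hc i)

lemma N2_translate (f : P → ℝ) (a : P) : N2 (fun x => f (a * x)) = N2 f := by
  have h : N2 (fun x => f (a * x)) ^ 2 = N2 f ^ 2 := by
    rw [N2_sq, N2_sq]
    exact Equiv.sum_comp (Equiv.mulLeft a) (fun x => f x ^ 2)
  exact (sq_eq_sq₀ (N2_nonneg _) (N2_nonneg _)).mp h

lemma N2_TD_le (D : P) (f : P → ℝ) : N2 (TD D f) ≤ N2 f := by
  have h1 : TD D f = fun x => (Fintype.card P : ℝ)⁻¹ * ∑ u, f (u * D * u⁻¹ * x) := by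
    ext x; rw [TD, div_eq_inv_mul]
  rw [h1, N2_smul (inv_nonneg.mpr card_P_pos.le)]
  calc _ ≤ (Fintype.card P : ℝ)⁻¹ * ∑ u : P, N2 (fun x => f (u * D * u⁻¹ * x)) :=
        mul_le_mul_of_nonneg_left (N2_sum_le _ _) (inv_nonneg.mpr card_P_pos.le)
    _ = N2 f := by
        simp only [N2_translate]
        rw [Finset.sum_const, Finset.card_univ, nsmul_eq_mul, ← mul_assoc,
          inv_mul_cancel₀ card_P_pos.ne', one_mul]

lemma TD_sub_const (D : P) (f : P → ℝ) (a : ℝ) (x : P) :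
    TD D (fun y => f y - a) x = TD D f x - a := by
  simp only [TD, Finset.sum_sub_distrib, Finset.sum_const, Finset.card_univ, nsmul_eq_mul]
  have := (card_P_pos (P := P)).ne'
  field_simp

lemma sum_TD (D : P) (f : P → ℝ) : ∑ x, TD D f x = ∑ x, f x := by
  simp only [TD]
  rw [← Finset.sum_div, Finset.sum_comm]
  have : ∀ u : P, ∑ x, f (u * D * u⁻¹ * x) = ∑ x, f x := fun u =>
    Equiv.sum_comp (Equiv.mulLeft (u * D * u⁻¹)) f
  simp only [this]
  rw [Finset.sum_const, Finset.card_univ, nsmul_eq_mul, mul_div_assoc,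
    mul_div_cancel₀ _ (card_P_pos (P := P)).ne']

lemma sum_cav_zet (hc1 : ∑ i, c i = 1) (X : List ι → P) (L : List ℕ) :
    ∑ z, cav (zet c X L) z = 1 := by
  classical
  induction L with
  | nil =>
    have : ∀ z, cav (zet c X []) z = if z = 1 then 1 else 0 := by
      intro z
      simp only [cav, zet_nil]
      by_cases h : z = 1
      · subst h
        simp only [mul_one, inv_mul_cancel, if_true, Finset.sum_const, Finset.card_univ,
          nsmul_eq_mul]
        rw [inv_mul_cancel₀ card_P_pos.ne']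
      · rw [if_neg h]
        have : ∀ g : P, ¬ (g⁻¹ * z * g = 1) := by
          intro g hg
          apply h
          have : z = g * (g⁻¹ * z * g) * g⁻¹ := by group
          rw [this, hg]; group
        simp [this]
    simp [this]
  | cons ℓ L ih =>
    simp only [cav_zet_cons]
    rw [← Ew_finset_sum]
    simp only [← Ew_finset_sum, sum_TD, ih, Ew_const hc1]

/-- main recursion -/
lemma N2_cav_zet (hc : ∀ i, 0 ≤ c i) (hc1 : ∑ i, c i = 1) (X : List ι → P) (Z : P → Prop)
    [DecidablePred Z] (ρ : ℝ) (hρ0 : 0 ≤ ρ)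
    (hρ : ∀ D : P, ¬ Z D → ∀ f : P → ℝ, ∑ x, f x = 0 → N2 (TD D f) ≤ ρ * N2 f)
    (θ : ℝ) (L : List ℕ)
    (hθ : ∀ ℓ ∈ L, Ew c ℓ (fun w => Ew c ℓ (fun w' =>
      if Z (X w' * (X w)⁻¹) then 1 else 0)) ≤ θ) (hθ0 : 0 ≤ θ) :
    N2 (fun z => cav (zet c X L) z - (Fintype.card P : ℝ)⁻¹) ≤ (θ + ρ) ^ L.length := by
  classical
  induction L with
  | nil =>
    have : ∀ z, cav (zet c X []) z = if z = 1 then 1 else 0 := by
      intro z
      simp only [cav, zet_nil]
      by_cases h : z = 1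
      · subst h
        simp only [mul_one, inv_mul_cancel, if_true, Finset.sum_const, Finset.card_univ,
          nsmul_eq_mul]
        rw [inv_mul_cancel₀ card_P_pos.ne']
      · rw [if_neg h]
        have : ∀ g : P, ¬ (g⁻¹ * z * g = 1) := by
          intro g hg
          apply h
          have : z = g * (g⁻¹ * z * g) * g⁻¹ := by group
          rw [this, hg]; group
        simp [this]
    simp only [this, List.length_nil, pow_zero]
    have hp := card_P_pos (P := P)
    have h2 : N2 (fun z : P => (if z = 1 then (1 : ℝ) else 0) - (Fintype.card P : ℝ)⁻¹) ^ 2 ≤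
        1 ^ 2 := by
      rw [N2_sq]
      have : ∀ z : P, ((if z = 1 then (1 : ℝ) else 0) - (Fintype.card P : ℝ)⁻¹) ^ 2 =
          (if z = 1 then (1 - 2 * (Fintype.card P : ℝ)⁻¹) else 0) +
            ((Fintype.card P : ℝ)⁻¹) ^ 2 := by
        intro z
        by_cases h : z = 1
        · simp only [h, if_true]; ring
        · simp only [h, if_false]; ring
      simp only [this, Finset.sum_add_distrib, Finset.sum_ite_eq', mem_univ, if_true,
        Finset.sum_const, Finset.card_univ, nsmul_eq_mul]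
      have h3 : (Fintype.card P : ℝ) * ((Fintype.card P : ℝ)⁻¹) ^ 2 = (Fintype.card P : ℝ)⁻¹ := by
        field_simp
      rw [h3]
      have : 0 < (Fintype.card P : ℝ)⁻¹ := inv_pos.mpr hp
      linarith
    exact (sq_le_sq₀ (N2_nonneg _) zero_le_one).mp h2
  | cons ℓ L ih =>
    set f : P → ℝ := fun z => cav (zet c X L) z - (Fintype.card P : ℝ)⁻¹ with hf
    have hf0 : ∑ z, f z = 0 := by
      simp only [hf, Finset.sum_sub_distrib, sum_cav_zet hc1, Finset.sum_const, Finset.card_univ,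
        nsmul_eq_mul]
      rw [mul_inv_cancel₀ card_P_pos.ne', sub_self]
    have h1 : (fun z => cav (zet c X (ℓ :: L)) z - (Fintype.card P : ℝ)⁻¹) =
        fun z => Ew c ℓ (fun w => Ew c ℓ (fun w' => TD (X w' * (X w)⁻¹) f z)) := by
      ext z
      rw [cav_zet_cons]
      simp only [hf, TD_sub_const, Ew_sub, Ew_const hc1]
    rw [h1, List.length_cons, pow_succ']
    have ih' := ih (fun ℓ' hℓ' => hθ ℓ' (List.mem_cons_of_mem _ hℓ'))
    calc _ ≤ Ew c ℓ (fun w => N2 (fun z => Ew c ℓ (fun w' => TD (X w' * (X w)⁻¹) f z))) :=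
          N2_Ew_le hc _ _
      _ ≤ Ew c ℓ (fun w => Ew c ℓ (fun w' => N2 (TD (X w' * (X w)⁻¹) f))) :=
          Ew_mono hc fun w _ => N2_Ew_le hc _ _
      _ ≤ Ew c ℓ (fun w => Ew c ℓ (fun w' =>
            ((if Z (X w' * (X w)⁻¹) then 1 else 0) + ρ) * N2 f)) := by
          refine Ew_mono hc fun w _ => Ew_mono hc fun w' _ => ?_
          by_cases hZ : Z (X w' * (X w)⁻¹)
          · rw [if_pos hZ]
            calc N2 (TD (X w' * (X w)⁻¹) f) ≤ N2 f := N2_TD_le _ _
              _ ≤ (1 + ρ) * N2 f := by nlinarith [N2_nonneg f]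
          · rw [if_neg hZ, zero_add]
            exact hρ _ hZ f hf0
      _ = (Ew c ℓ (fun w => Ew c ℓ (fun w' => if Z (X w' * (X w)⁻¹) then 1 else 0)) + ρ) *
            N2 f := by
          simp only [Ew_mul_right, Ew_add, Ew_const hc1]
      _ ≤ (θ + ρ) * N2 f := by
          refine mul_le_mul_of_nonneg_right ?_ (N2_nonneg _)
          have := hθ ℓ (List.mem_cons_self)
          linarith
      _ ≤ (θ + ρ) * (θ + ρ) ^ L.length :=
          mul_le_mul_of_nonneg_left ih' (by linarith)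

open Classical in
/-- **the averaged collision bound** -/
theorem coll_bound (hc : ∀ i, 0 ≤ c i) (hc1 : ∑ i, c i = 1) (X : List ι → P) (Z : P → Prop)
    [DecidablePred Z] (ρ : ℝ) (hρ0 : 0 ≤ ρ)
    (hρ : ∀ D : P, ¬ Z D → ∀ f : P → ℝ, ∑ x, f x = 0 → N2 (TD D f) ≤ ρ * N2 f)
    (θ : ℝ) (ℓ : ℕ) (L : List ℕ)
    (hθ : ∀ ℓ ∈ L, Ew c ℓ (fun w => Ew c ℓ (fun w' =>
      if Z (X w' * (X w)⁻¹) then 1 else 0)) ≤ θ) (hθ0 : 0 ≤ θ) :
    AV P (L.length + 1) (fun gs => EW c (ℓ :: L) (fun ws => EW c (ℓ :: L) (fun ws' =>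
      if pa X ws gs = pa X ws' gs then 1 else 0))) ≤
      (Fintype.card P : ℝ)⁻¹ + (θ + ρ) ^ L.length := by
  have h1 : AV P (L.length + 1) (fun gs => EW c (ℓ :: L) (fun ws => EW c (ℓ :: L) (fun ws' =>
      if pa X ws gs = pa X ws' gs then 1 else 0))) = zet c X (ℓ :: L) 1 := by
    rw [zet, List.length_cons]
    congr 1
    funext gs
    congr 1
    funext ws
    congr 1
    funext ws'
    by_cases h : pa X ws gs = pa X ws' gs
    · have h' : pa X ws gs * (pa X ws' gs)⁻¹ = 1 := mul_inv_eq_one.mpr h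
      rw [if_pos h, if_pos h']
    · have h' : ¬ (pa X ws gs * (pa X ws' gs)⁻¹ = 1) := fun e => h (mul_inv_eq_one.mp e)
      rw [if_neg h, if_neg h']
  rw [h1, zet_cons]
  refine Ew_le_const hc hc1 fun w _ => Ew_le_const hc hc1 fun w' _ => ?_
  have h2 := N2_cav_zet hc hc1 X Z ρ hρ0 hρ θ L hθ hθ0
  have h3 := abs_le_N2 (fun z => cav (zet c X L) z - (Fintype.card P : ℝ)⁻¹)
    ((X w)⁻¹ * 1 * X w')
  have h4 := le_abs_self (cav (zet c X L) ((X w)⁻¹ * 1 * X w') - (Fintype.card P : ℝ)⁻¹)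
  linarith

end coll

end Pool.Agent.Lib_helper64.Cut
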