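import Mathlib

/-! Common definitions for the disproof of cut-off for expander Cayley graphs (`S19214`). -/

set_option autoImplicit false

namespace Pool.Agent.Lib_helper64.Cut

open Matrix

/-- `SL_3(R)` -/
abbrev SL3 (R : Type*) [CommRing R] := Matrix.SpecialLinearGroup (Fin 3) R

/-- the elementary matrix `E_ij(t)` -/
abbrev El {R : Type*} [CommRing R] {i j : Fin 3} (h : i ≠ j) (t : R) : SL3 R :=
  Matrix.SpecialLinearGroup.transvection h t

/-- semidirect product `W ⋊ P`: pairs `(v, a)` with `(v, a) (w, b) = (v + a • w, a b)`. -/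
@[ext] structure Sdp (P W : Type*) where
  v : W
  a : P
deriving DecidableEq

namespace Sdp

variable {P W : Type*}

/-- the underlying equivalence with pairs -/
def equivProd : Sdp P W ≃ W × P where
  toFun x := (x.v, x.a)
  invFun x := ⟨x.1, x.2⟩
  left_inv _ := rfl
  right_inv _ := rfl

instance [Fintype P] [Fintype W] : Fintype (Sdp P W) := Fintype.ofEquiv _ equivProd.symm

lemma card_eq [Fintype P] [Fintype W] :
    Fintype.card (Sdp P W) = Fintype.card W * Fintype.card P := by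
  rw [Fintype.card_congr equivProd, Fintype.card_prod]

variable [Group P] [AddCommGroup W] [DistribMulAction P W]

instance : Mul (Sdp P W) := ⟨fun x y => ⟨x.v + x.a • y.v, x.a * y.a⟩⟩
instance : One (Sdp P W) := ⟨⟨0, 1⟩⟩
instance : Inv (Sdp P W) := ⟨fun x => ⟨-(x.a⁻¹ • x.v), x.a⁻¹⟩⟩

@[simp] lemma mul_v (x y : Sdp P W) : (x * y).v = x.v + x.a • y.v := rfl
@[simp] lemma mul_a (x y : Sdp P W) : (x * y).a = x.a * y.a := rfl
@[simp] lemma one_v : (1 : Sdp P W).v = 0 := rfl
@[simp] lemma one_a : (1 : Sdp P W).a = 1 := rfl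
@[simp] lemma inv_v (x : Sdp P W) : (x⁻¹).v = -(x.a⁻¹ • x.v) := rfl
@[simp] lemma inv_a (x : Sdp P W) : (x⁻¹).a = x.a⁻¹ := rfl

instance : Group (Sdp P W) :=
  Group.ofLeftAxioms
    (fun x y z => by ext1 <;> simp [mul_smul, add_assoc, mul_assoc])
    (fun x => by ext1 <;> simp)
    (fun x => by ext1 <;> simp)

end Sdp

/-- the set of elementary matrices `E_ij(t)`, `t ∈ {1, -1, x, -x}` -/
def genP {K : Type*} [CommRing K] [DecidableEq K] (x : K) : Finset (SL3 K) :=
  (Finset.univ : Finset {p : Fin 3 × Fin 3 // p.1 ≠ p.2}).biUnion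
    (fun p => ({1, -1, x, -x} : Finset K).image (fun t => El p.2 t))

/-- the symmetric generating set of `(K^3)^J ⋊ SL_3(K)` -/
def genG {K : Type*} [CommRing K] [DecidableEq K] (J : ℕ) (x : K) :
    Finset (Sdp (SL3 K) (Fin J → Fin 3 → K)) :=
  insert 1 ((genP x).image (fun s => (⟨0, s⟩ : Sdp (SL3 K) (Fin J → Fin 3 → K))) ∪
    (Finset.univ : Finset (Fin J × Fin 3)).biUnion (fun p =>
      ({⟨Pi.single p.1 (Pi.single p.2 1), 1⟩, ⟨-Pi.single p.1 (Pi.single p.2 1), 1⟩} :
        Finset (Sdp (SL3 K) (Fin J → Fin 3 → K)))))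

end Pool.Agent.Lib_helper64.Cut
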