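import Mathlib
import Pool.Agent.Lib_helper64.Cut.Defs
import Pool.Agent.Lib_helper64.Cut.Coll

/-! The states of the walk: subspaces and group elements. -/

set_option autoImplicit false
set_option linter.unusedSectionVars false

namespace Pool.Agent.Lib_helper64.Cut

open Finset Matrix

/-! ### convolution on a finite group -/

section conv

variable {G : Type*} [Group G] [Fintype G]

/-- convolution -/
def cv (f g : G → ℝ) : G → ℝ := fun x => ∑ h, f h * g (h⁻¹ * x)

/-- point mass -/
def dl [DecidableEq G] (a : G) : G → ℝ := fun x => if x = a then 1 else 0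

/-- overlap with the uniform law -/
noncomputable def ov (f : G → ℝ) : ℝ := ∑ x, min (f x) (Fintype.card G : ℝ)⁻¹

end conv

/-! ### subspaces -/

section states

variable {k K : Type*} [Field k] [Field K] [Algebra k K] {ι : Type*}

/-- action of `SL_3(K)` on `k`-subspaces of `K^3` -/
def smulS (a : SL3 K) (F : Submodule k (Fin 3 → K)) : Submodule k (Fin 3 → K) :=
  F.map ((Matrix.mulVecLin a.1).restrictScalars k)

lemma mem_smulS {a : SL3 K} {F : Submodule k (Fin 3 → K)} {v : Fin 3 → K} :
    v ∈ smulS a F ↔ a⁻¹ • v ∈ F := by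
  constructor
  · rintro ⟨w, hw, rfl⟩
    have : a⁻¹ • (((Matrix.mulVecLin a.1).restrictScalars k) w) = w := by
      change a⁻¹ • (a • w) = w
      rw [inv_smul_smul]
    rw [this]; exact hw
  · intro h
    refine ⟨a⁻¹ • v, h, ?_⟩
    change a • (a⁻¹ • v) = v
    rw [smul_inv_smul]

/-- the subspace generated by a word of main steps -/
def Fw (V0 : Submodule k (Fin 3 → K)) (b : ι → SL3 K) : List ι → Submodule k (Fin 3 → K)
  | [] => ⊥
  | i :: w => V0 ⊔ smulS (b i) (Fw V0 b w)

/-- the product of a word -/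
def Xw (b : ι → SL3 K) (w : List ι) : SL3 K := (w.map b).prod

/-- the subspace generated by `w₁ g₁ w₂ g₂ ⋯` -/
def FF (V0 : Submodule k (Fin 3 → K)) (b : ι → SL3 K) :
    List (List ι) → List (SL3 K) → Submodule k (Fin 3 → K)
  | w :: ws, g :: gs => Fw V0 b w ⊔ smulS (Xw b w * g) (FF V0 b ws gs)
  | _, _ => ⊥

open Classical in
/-- the state: uniform law on `F^J` times the point mass at `a` -/
noncomputable def Phi (J : ℕ) (F : Submodule k (Fin 3 → K)) (a : SL3 K) :
    Sdp (SL3 K) (Fin J → Fin 3 → K) → ℝ :=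
  fun g => if g.a = a ∧ ∀ j, g.v j ∈ F then ((Nat.card F : ℝ) ^ J)⁻¹ else 0

end states

/-! ### the law of the walk -/

section walk

variable {k K : Type*} [Field k] [Field K] [Algebra k K] [Fintype K] [DecidableEq K]
variable {ι : Type*} [Fintype ι]

/-- the law of a main step -/
noncomputable def p0 (J : ℕ) (V0 : Submodule k (Fin 3 → K)) (c : ι → ℝ) (b : ι → SL3 K) :
    Sdp (SL3 K) (Fin J → Fin 3 → K) → ℝ :=
  fun x => ∑ i, c i * Phi J V0 (b i) x

/-- the law of the walk: main step with probability `1 - |gs| ρ`, and `g ∈ gs` with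
probability `ρ` each -/
noncomputable def pw (J : ℕ) (V0 : Submodule k (Fin 3 → K)) (c : ι → ℝ) (b : ι → SL3 K)
    (ρ : ℝ) (gs : List (SL3 K)) : Sdp (SL3 K) (Fin J → Fin 3 → K) → ℝ :=
  fun x => (1 - gs.length * ρ) * p0 J V0 c b x +
    ρ * (gs.map fun g => dl (⟨0, g⟩ : Sdp (SL3 K) (Fin J → Fin 3 → K)) x).sum

end walk

end Pool.Agent.Lib_helper64.Cut
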