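import Mathlib
import Pool.Agent.Lib_helper64.Cut.State

/-! Convolution of states. -/

set_option autoImplicit false
set_option linter.unusedSectionVars false

namespace Pool.Agent.Lib_helper64.Cut

open Finset Matrix

section conv

variable {G : Type*} [Group G] [Fintype G]

lemma cv_assoc (f g h : G → ℝ) : cv (cv f g) h = cv f (cv g h) := by
  ext x
  simp only [cv]
  simp only [Finset.sum_mul, Finset.mul_sum]
  rw [Finset.sum_comm]
  refine Finset.sum_congr rfl fun y _ => ?_
  rw [← Equiv.sum_comp (Equiv.mulLeft y)]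
  refine Finset.sum_congr rfl fun z _ => ?_
  simp only [Equiv.coe_mulLeft, inv_mul_cancel_left, _root_.mul_inv_rev]
  rw [mul_assoc, mul_assoc]

lemma cv_dl_one_left [DecidableEq G] (f : G → ℝ) : cv (dl 1) f = f := by
  ext x
  simp only [cv, dl, ite_mul, one_mul, zero_mul, Finset.sum_ite_eq', mem_univ, if_true, inv_one]

lemma cv_dl_one_right [DecidableEq G] (f : G → ℝ) : cv f (dl 1) = f := by
  ext x
  simp only [cv, dl]
  rw [Finset.sum_eq_single x]
  · simp
  · intro y _ hy
    rw [if_neg, mul_zero]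
    intro h
    apply hy
    rw [inv_mul_eq_one] at h
    exact h
  · simp

/-- convolution powers -/
def pwr [DecidableEq G] (p : G → ℝ) (n : ℕ) : G → ℝ := (fun q => cv q p)^[n] (dl 1)

lemma pwr_zero [DecidableEq G] (p : G → ℝ) : pwr p 0 = dl 1 := rfl

lemma pwr_succ [DecidableEq G] (p : G → ℝ) (n : ℕ) : pwr p (n + 1) = cv (pwr p n) p := by
  rw [pwr, Function.iterate_succ_apply']; rfl

lemma pwr_succ' [DecidableEq G] (p : G → ℝ) (n : ℕ) : pwr p (n + 1) = cv p (pwr p n) := by
  induction n with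
  | zero => rw [pwr_succ, pwr_zero, cv_dl_one_left, cv_dl_one_right]
  | succ n ih =>
    calc pwr p (n + 1 + 1) = cv (pwr p (n + 1)) p := pwr_succ p (n + 1)
      _ = cv (cv p (pwr p n)) p := by rw [ih]
      _ = cv p (pwr p (n + 1)) := by rw [cv_assoc, ← pwr_succ]

lemma cv_Ew_left {ι : Type*} [Fintype ι] {c : ι → ℝ} (n : ℕ) (f : List ι → G → ℝ) (g : G → ℝ) :
    cv (fun x => Ew c n (fun w => f w x)) g = fun x => Ew c n (fun w => cv (f w) g x) := by
  ext x
  simp only [cv, Ew_finset_sum, Ew_mul_right]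

lemma cv_Ew_right {ι : Type*} [Fintype ι] {c : ι → ℝ} (n : ℕ) (f : List ι → G → ℝ) (g : G → ℝ) :
    cv g (fun x => Ew c n (fun w => f w x)) = fun x => Ew c n (fun w => cv g (f w) x) := by
  ext x
  simp only [cv, Ew_finset_sum, Ew_mul_left]

lemma cv_EW_right {ι : Type*} [Fintype ι] {c : ι → ℝ} (L : List ℕ) (f : List (List ι) → G → ℝ)
    (g : G → ℝ) :
    cv g (fun x => EW c L (fun w => f w x)) = fun x => EW c L (fun w => cv g (f w) x) := by
  ext x
  simp only [cv, EW_finset_sum, EW_mul_left]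

end conv

/-! ### product of states -/

section phi

variable {k K : Type*} [Field k] [Fintype k] [Field K] [Algebra k K] [Fintype K] [DecidableEq K]

open Classical in
/-- uniform law on a subspace -/
noncomputable def psi (F : Submodule k (Fin 3 → K)) (v : Fin 3 → K) : ℝ :=
  if v ∈ F then (Nat.card F : ℝ)⁻¹ else 0

lemma Phi_eq (J : ℕ) (F : Submodule k (Fin 3 → K)) (a : SL3 K)
    (g : Sdp (SL3 K) (Fin J → Fin 3 → K)) :
    Phi J F a g = (if g.a = a then 1 else 0) * ∏ j, psi F (g.v j) := by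
  classical
  unfold Phi psi
  by_cases h1 : g.a = a
  · by_cases h2 : ∀ j, g.v j ∈ F
    · rw [if_pos ⟨h1, h2⟩, if_pos h1, one_mul]
      rw [Finset.prod_congr rfl fun j _ => if_pos (h2 j)]
      simp
    · rw [if_neg (fun h => h2 h.2), if_pos h1, one_mul]
      push Not at h2
      obtain ⟨j, hj⟩ := h2
      rw [Finset.prod_eq_zero (mem_univ j) (if_neg hj)]
  · rw [if_neg (fun h => h1 h.1), if_neg h1, zero_mul]

lemma finite_sub (F : Submodule k (Fin 3 → K)) : Finite F := inferInstance

lemma card_sub_pos (F : Submodule k (Fin 3 → K)) : (0 : ℝ) < Nat.card F := by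
  exact_mod_cast Nat.card_pos

lemma card_sup_inf (F F' : Submodule k (Fin 3 → K)) :
    Nat.card (F ⊔ F' : Submodule k (Fin 3 → K)) * Nat.card (F ⊓ F' : Submodule k (Fin 3 → K)) =
      Nat.card F * Nat.card F' := by
  rw [Module.natCard_eq_pow_finrank (K := k) (V := (F ⊔ F' : Submodule k (Fin 3 → K))),
    Module.natCard_eq_pow_finrank (K := k) (V := (F ⊓ F' : Submodule k (Fin 3 → K))),
    Module.natCard_eq_pow_finrank (K := k) (V := F),
    Module.natCard_eq_pow_finrank (K := k) (V := F'), ← pow_add, ← pow_add,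
    Submodule.finrank_sup_add_finrank_inf_eq]

lemma psi_conv (F F' : Submodule k (Fin 3 → K)) (v : Fin 3 → K) :
    ∑ u, psi F u * psi F' (v - u) = psi (F ⊔ F') v := by
  classical
  have h1 : ∀ u, psi F u * psi F' (v - u) =
      if u ∈ F ∧ v - u ∈ F' then (Nat.card F : ℝ)⁻¹ * (Nat.card F' : ℝ)⁻¹ else 0 := by
    intro u
    unfold psi
    by_cases h1 : u ∈ F <;> by_cases h2 : v - u ∈ F' <;> simp [h1, h2]
  simp only [h1]
  rw [← Finset.sum_filter, Finset.sum_const, nsmul_eq_mul]
  by_cases hv : v ∈ F ⊔ F'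
  · obtain ⟨f, hf, f', hf', rfl⟩ := Submodule.mem_sup.mp hv
    have h2 : (univ.filter fun u : Fin 3 → K => u ∈ F ∧ f + f' - u ∈ F').card =
        Nat.card (F ⊓ F' : Submodule k (Fin 3 → K)) := by
      rw [← Fintype.card_subtype, ← Nat.card_eq_fintype_card]
      refine Nat.card_congr ?_
      refine
        { toFun := fun u => ⟨u.1 - f, F.sub_mem u.2.1 hf, ?_⟩
          invFun := fun u => ⟨u.1 + f, F.add_mem u.2.1 hf, ?_⟩
          left_inv := fun u => by ext1; simp
          right_inv := fun u => by ext1; simp }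
      · have h3 := F'.sub_mem hf' u.2.2
        have h4 : f' - (f + f' - u.1) = u.1 - f := by abel
        rw [h4] at h3
        exact h3
      · have h3 := F'.sub_mem hf' u.2.2
        have h4 : f' - u.1 = f + f' - (u.1 + f) := by abel
        rw [h4] at h3
        exact h3
    rw [h2, psi, if_pos hv]
    have h5 := card_sup_inf F F'
    have h6 : (Nat.card (F ⊔ F' : Submodule k (Fin 3 → K)) : ℝ) *
        Nat.card (F ⊓ F' : Submodule k (Fin 3 → K)) = Nat.card F * Nat.card F' := by
      exact_mod_cast h5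
    have := card_sub_pos F
    have := card_sub_pos F'
    have := card_sub_pos (F ⊔ F')
    have := card_sub_pos (F ⊓ F')
    rw [← mul_inv, ← h6]
    field_simp
  · rw [psi, if_neg hv]
    have : (univ.filter fun u : Fin 3 → K => u ∈ F ∧ v - u ∈ F') = ∅ := by
      rw [Finset.filter_eq_empty_iff]
      rintro u _ ⟨hu1, hu2⟩
      apply hv
      have : v = u + (v - u) := by abel
      rw [this]
      exact Submodule.add_mem_sup hu1 hu2
    rw [this]
    simp

lemma card_smulS (a : SL3 K) (F : Submodule k (Fin 3 → K)) :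
    Nat.card (smulS a F) = Nat.card F := by
  refine (Nat.card_congr ?_).symm
  refine
    { toFun := fun v => ⟨a • v.1, by rw [mem_smulS, inv_smul_smul]; exact v.2⟩
      invFun := fun v => ⟨a⁻¹ • v.1, mem_smulS.mp v.2⟩
      left_inv := fun v => by ext1; simp
      right_inv := fun v => by ext1; simp }

lemma psi_smulS (a : SL3 K) (F : Submodule k (Fin 3 → K)) (v : Fin 3 → K) :
    psi (smulS a F) v = psi F (a⁻¹ • v) := by
  unfold psi
  rw [card_smulS]
  by_cases h : a⁻¹ • v ∈ F
  · rw [if_pos h, if_pos (mem_smulS.mpr h)]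
  · rw [if_neg h, if_neg (fun h' => h (mem_smulS.mp h'))]

theorem Phi_mul (J : ℕ) (F F' : Submodule k (Fin 3 → K)) (a a' : SL3 K) :
    cv (Phi J F a) (Phi J F' a') = Phi J (F ⊔ smulS a F') (a * a') := by
  classical
  ext x
  simp only [cv, Phi_eq]
  rw [← Equiv.sum_comp (Sdp.equivProd (P := SL3 K) (W := Fin J → Fin 3 → K)).symm,
    Fintype.sum_prod_type]
  change ∑ u : Fin J → Fin 3 → K, ∑ y : SL3 K,
      ((if y = a then (1 : ℝ) else 0) * ∏ j, psi F (u j)) *
        ((if y⁻¹ * x.a = a' then 1 else 0) *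
          ∏ j, psi F' ((-(y⁻¹ • u) + y⁻¹ • x.v) j)) =
      (if x.a = a * a' then 1 else 0) * ∏ j, psi (F ⊔ smulS a F') (x.v j)
  -- now the sum over `u` and `c`
  have h1 : ∀ u : Fin J → Fin 3 → K, ∑ y : SL3 K,
      ((if y = a then (1 : ℝ) else 0) * ∏ j, psi F (u j)) *
        ((if y⁻¹ * x.a = a' then 1 else 0) *
          ∏ j, psi F' ((-(y⁻¹ • u) + y⁻¹ • x.v) j)) =
      (if x.a = a * a' then 1 else 0) * ∏ j, (psi F (u j) * psi (smulS a F') (x.v j - u j)) := by
    intro u
    rw [Finset.sum_eq_single a]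
    · rw [if_pos rfl, one_mul]
      have h2 : (a⁻¹ * x.a = a') ↔ (x.a = a * a') := inv_mul_eq_iff_eq_mul
      have h3 : ∀ j, psi (smulS a F') (x.v j - u j) = psi F' ((-(a⁻¹ • u) + a⁻¹ • x.v) j) := by
        intro j
        rw [psi_smulS]
        congr 1
        rw [Pi.add_apply, Pi.neg_apply, Pi.smul_apply, Pi.smul_apply, smul_sub]
        abel
      simp only [h2, h3, Finset.prod_mul_distrib]
      ring
    · intro y _ hy
      rw [if_neg hy]; ring
    · simp
  simp only [h1]
  rw [← Finset.mul_sum]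
  congr 1
  have h2 := Finset.prod_univ_sum (fun _ : Fin J => (univ : Finset (Fin 3 → K)))
    (fun (j : Fin J) (u : Fin 3 → K) => psi F u * psi (smulS a F') (x.v j - u))
  rw [Fintype.piFinset_univ] at h2
  rw [← h2]
  exact Finset.prod_congr rfl fun j _ => psi_conv _ _ _

lemma Phi_bot (J : ℕ) (a : SL3 K) :
    Phi J (⊥ : Submodule k (Fin 3 → K)) a =
      dl (⟨0, a⟩ : Sdp (SL3 K) (Fin J → Fin 3 → K)) := by
  ext x
  simp only [Phi, dl]
  have h1 : (x.a = a ∧ ∀ j, x.v j ∈ (⊥ : Submodule k (Fin 3 → K))) ↔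
      x = (⟨0, a⟩ : Sdp (SL3 K) (Fin J → Fin 3 → K)) := by
    constructor
    · rintro ⟨h1, h2⟩
      ext1
      · funext j
        exact (Submodule.mem_bot k).mp (h2 j)
      · exact h1
    · rintro rfl
      exact ⟨rfl, fun j => Submodule.zero_mem _⟩
  by_cases h : x = (⟨0, a⟩ : Sdp (SL3 K) (Fin J → Fin 3 → K))
  · rw [if_pos h, if_pos (h1.mpr h)]
    simp
  · rw [if_neg h, if_neg (fun h' => h (h1.mp h'))]

lemma smulS_one (F : Submodule k (Fin 3 → K)) : smulS 1 F = F := by
  ext v
  rw [mem_smulS, inv_one, one_smul]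

lemma smulS_mul (a b : SL3 K) (F : Submodule k (Fin 3 → K)) :
    smulS (a * b) F = smulS a (smulS b F) := by
  ext v
  rw [mem_smulS, mem_smulS, mem_smulS, _root_.mul_inv_rev, mul_smul]

lemma smulS_sup (a : SL3 K) (F F' : Submodule k (Fin 3 → K)) :
    smulS a (F ⊔ F') = smulS a F ⊔ smulS a F' := Submodule.map_sup _ _ _

lemma smulS_bot (a : SL3 K) : smulS a (⊥ : Submodule k (Fin 3 → K)) = ⊥ := Submodule.map_bot _

lemma smulS_mono (a : SL3 K) {F F' : Submodule k (Fin 3 → K)} (h : F ≤ F') :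
    smulS a F ≤ smulS a F' := Submodule.map_mono h

end phi

/-! ### the main walk -/

section walk

variable {k K : Type*} [Field k] [Fintype k] [Field K] [Algebra k K] [Fintype K] [DecidableEq K]
variable {ι : Type*} [Fintype ι]

theorem pwr_p0 (J : ℕ) (V0 : Submodule k (Fin 3 → K)) (c : ι → ℝ) (b : ι → SL3 K) (n : ℕ) :
    pwr (p0 J V0 c b) n = fun x => Ew c n (fun w => Phi J (Fw V0 b w) (Xw b w) x) := by
  induction n with
  | zero =>
    rw [pwr_zero]
    ext x
    rw [Ew_zero]
    simp only [Fw, Xw, List.map_nil, List.prod_nil]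
    rw [Phi_bot]
    rfl
  | succ n ih =>
    rw [pwr_succ', ih, cv_Ew_right]
    ext x
    have h1 : ∀ w : List ι, cv (p0 J V0 c b) (fun x => Phi J (Fw V0 b w) (Xw b w) x) x =
        ∑ i, c i * Phi J (Fw V0 b (i :: w)) (Xw b (i :: w)) x := by
      intro w
      have h2 : ∀ i, Phi J (Fw V0 b (i :: w)) (Xw b (i :: w)) =
          cv (Phi J V0 (b i)) (Phi J (Fw V0 b w) (Xw b w)) := by
        intro i
        rw [Phi_mul]
        rfl
      simp only [h2]
      simp only [cv, p0]
      simp only [Finset.sum_mul, Finset.mul_sum]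
      rw [Finset.sum_comm]
      refine Finset.sum_congr rfl fun i _ => Finset.sum_congr rfl fun y _ => ?_
      ring
    simp only [h1]
    rw [Ew_finset_sum, Ew_succ]
    refine Finset.sum_congr rfl fun i _ => ?_
    rw [Ew_mul_left]

/-- the law of a pattern -/
def PMG {G : Type*} [Group G] [Fintype G] [DecidableEq G] (p : G → ℝ) :
    List ℕ → List G → G → ℝ
  | ℓ :: L, g :: gs => cv (cv (pwr p ℓ) (dl g)) (PMG p L gs)
  | _, _ => dl 1

theorem PMG_p0 (J : ℕ) (V0 : Submodule k (Fin 3 → K)) (c : ι → ℝ) (b : ι → SL3 K)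
    (L : List ℕ) (gs : List (SL3 K)) (h : L.length = gs.length) :
    PMG (p0 J V0 c b) L (gs.map fun g => (⟨0, g⟩ : Sdp (SL3 K) (Fin J → Fin 3 → K))) =
      fun x => EW c L (fun ws => Phi J (FF V0 b ws gs) (pa (Xw b) ws gs) x) := by
  induction L generalizing gs with
  | nil =>
    have : gs = [] := by
      rw [List.length_nil] at h
      exact List.eq_nil_of_length_eq_zero h.symm
    subst this
    ext x
    simp only [List.map_nil, PMG, EW_nil, FF, pa]
    rw [Phi_bot]
    rfl
  | cons ℓ L ih =>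
    cases gs with
    | nil => simp at h
    | cons g gs =>
      have h' : L.length = gs.length := by simpa using h
      rw [List.map_cons, PMG, ih gs h', cv_EW_right]
      ext x
      rw [EW_cons]
      rw [pwr_p0, cv_Ew_left, ]
      rw [← EW_Ew_comm]
      congr 1
      ext ws
      rw [cv_Ew_left]
      simp only
      congr 1
      ext w
      have h1 : cv (Phi J (Fw V0 b w) (Xw b w))
          (dl (⟨0, g⟩ : Sdp (SL3 K) (Fin J → Fin 3 → K))) =
          Phi J (Fw V0 b w) (Xw b w * g) := by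
        have := Phi_mul J (Fw V0 b w) (⊥ : Submodule k (Fin 3 → K)) (Xw b w) g
        rw [Phi_bot, smulS_bot, sup_bot_eq] at this
        exact this
      rw [h1]
      have h3 := Phi_mul J (Fw V0 b w) (FF V0 b ws gs) (Xw b w * g) (pa (Xw b) ws gs)
      exact congrFun h3 x

end walk

end Pool.Agent.Lib_helper64.Cut
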