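import Mathlib

/-! Counting pairs of vectors in `k^3` -/

set_option autoImplicit false

namespace Pool.Agent.Lib_helper64.Cut

open Finset Matrix

variable {k : Type*} [Field k] [Fintype k] [DecidableEq k]


lemma card_V3 : Fintype.card (Fin 3 → k) = Fintype.card k ^ 3 := by simp

lemma exists_ne_zero {b : Fin 3 → k} (hb : b ≠ 0) : ∃ i, b i ≠ 0 := by
  by_contra hcon
  push Not at hcon
  exact hb (funext hcon)

lemma card_perp {b : Fin 3 → k} (hb : b ≠ 0) :
    (univ.filter fun u : (Fin 3 → k) => u ⬝ᵥ b = 0).card = Fintype.card k ^ 2 := by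
  classical
  obtain ⟨i, hi⟩ := exists_ne_zero hb
  let L : (Fin 3 → k) →ₗ[k] k :=
    { toFun := fun u => u ⬝ᵥ b
      map_add' := fun x y => add_dotProduct x y b
      map_smul' := fun c x => smul_dotProduct c x b }
  have hsurj : Function.Surjective L := by
    intro t
    refine ⟨(t * (b i)⁻¹) • Pi.single i 1, ?_⟩
    change ((t * (b i)⁻¹) • Pi.single i 1) ⬝ᵥ b = t
    rw [smul_dotProduct, single_one_dotProduct, smul_eq_mul, mul_assoc, inv_mul_cancel₀ hi, mul_one]
  have hr := LinearMap.finrank_range_add_finrank_ker L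
  rw [LinearMap.range_eq_top.mpr hsurj, finrank_top, Module.finrank_self,
    Module.finrank_fin_fun] at hr
  have h2 : Module.finrank k (LinearMap.ker L) = 2 := by omega
  have h3 := Module.card_eq_pow_finrank (K := k) (V := LinearMap.ker L)
  rw [h2] at h3
  rw [← h3, ← Fintype.card_subtype]
  refine Fintype.card_congr (Equiv.subtypeEquivRight fun u => ?_)
  rw [LinearMap.mem_ker]; rfl

lemma card_perp' {b : Fin 3 → k} (hb : b ≠ 0) :
    (univ.filter fun u : (Fin 3 → k) => b ⬝ᵥ u = 0).card = Fintype.card k ^ 2 := by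
  rw [← card_perp hb]
  congr 1
  ext u
  simp [dotProduct_comm]

lemma mem_line_of_perp {a u : Fin 3 → k} (ha : a ≠ 0)
    (h : ∀ φ : (Fin 3 → k), φ ⬝ᵥ a = 0 → φ ⬝ᵥ u = 0) : ∃ t : k, u = t • a := by
  obtain ⟨i, hi⟩ := exists_ne_zero ha
  refine ⟨u i * (a i)⁻¹, funext fun j => ?_⟩
  have h1 := h (a i • Pi.single j 1 - a j • Pi.single i 1) (by
    rw [sub_dotProduct, smul_dotProduct, smul_dotProduct, single_one_dotProduct,
      single_one_dotProduct]
    simp [mul_comm])
  rw [sub_dotProduct, smul_dotProduct, smul_dotProduct, single_one_dotProduct,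
    single_one_dotProduct, smul_eq_mul, smul_eq_mul, sub_eq_zero] at h1
  simp only [Pi.smul_apply, smul_eq_mul]
  field_simp
  linear_combination h1

lemma card_perp_perp {a u : Fin 3 → k} (ha : a ≠ 0) (hu : ¬ ∃ t : k, u = t • a) :
    (univ.filter fun φ : (Fin 3 → k) => φ ⬝ᵥ a = 0 ∧ φ ⬝ᵥ u = 0).card = Fintype.card k := by
  classical
  have h0 : ∃ φ₀ : (Fin 3 → k), φ₀ ⬝ᵥ a = 0 ∧ φ₀ ⬝ᵥ u ≠ 0 := by
    by_contra hcon
    push Not at hcon
    exact hu (mem_line_of_perp ha hcon)
  obtain ⟨φ₀, h01, h02⟩ := h0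
  obtain ⟨i, hi⟩ := exists_ne_zero ha
  let L : (Fin 3 → k) →ₗ[k] k × k :=
    { toFun := fun φ => (φ ⬝ᵥ a, φ ⬝ᵥ u)
      map_add' := fun x y => by simp [add_dotProduct]
      map_smul' := fun c x => by simp [smul_dotProduct] }
  have hsurj : Function.Surjective L := by
    rintro ⟨s, t⟩
    let v : (Fin 3 → k) := (s * (a i)⁻¹) • Pi.single i 1
    have hv : v ⬝ᵥ a = s := by
      simp only [v]
      rw [smul_dotProduct, single_one_dotProduct, smul_eq_mul, mul_assoc, inv_mul_cancel₀ hi,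
        mul_one]
    refine ⟨v + ((t - v ⬝ᵥ u) * (φ₀ ⬝ᵥ u)⁻¹) • φ₀, ?_⟩
    change (_ ⬝ᵥ a, _ ⬝ᵥ u) = (s, t)
    clear_value v
    rw [add_dotProduct, add_dotProduct, smul_dotProduct, smul_dotProduct, h01, hv]
    simp only [smul_eq_mul, mul_zero, add_zero, Prod.mk.injEq, true_and]
    rw [mul_assoc, inv_mul_cancel₀ h02]
    ring
  have hr := LinearMap.finrank_range_add_finrank_ker L
  rw [LinearMap.range_eq_top.mpr hsurj, finrank_top, Module.finrank_prod, Module.finrank_self,
    Module.finrank_fin_fun] at hr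
  have h2 : Module.finrank k (LinearMap.ker L) = 1 := by omega
  have h3 := Module.card_eq_pow_finrank (K := k) (V := LinearMap.ker L)
  rw [h2, pow_one] at h3
  rw [← h3, ← Fintype.card_subtype]
  refine Fintype.card_congr (Equiv.subtypeEquivRight fun φ => ?_)
  rw [LinearMap.mem_ker]
  change _ ↔ (φ ⬝ᵥ a, φ ⬝ᵥ u) = ((0 : k), (0 : k))
  simp

/-- pairs `(u, φ)` with `φ ⬝ u = 0` -/
def pairs (k : Type*) [Field k] [Fintype k] [DecidableEq k] :
    Finset ((Fin 3 → k) × (Fin 3 → k)) := univ.filter fun p => p.2 ⬝ᵥ p.1 = 0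


lemma card_pairs_le : (pairs k).card ≤ 2 * Fintype.card k ^ 5 := by
  have hq : 1 ≤ Fintype.card k := Fintype.card_pos
  rw [pairs, card_filter, Fintype.sum_prod_type]
  simp only [← card_filter]
  have h : ∀ u : (Fin 3 → k), (univ.filter fun φ : (Fin 3 → k) => φ ⬝ᵥ u = 0).card ≤
      Fintype.card k ^ 2 + if u = 0 then Fintype.card k ^ 3 else 0 := by
    intro u
    by_cases hu : u = 0
    · simp only [hu, if_true]
      calc _ ≤ Fintype.card (Fin 3 → k) := card_le_univ _
        _ = Fintype.card k ^ 3 := card_V3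
        _ ≤ _ := Nat.le_add_left _ _
    · rw [card_perp hu]; simp [hu]
  calc _ ≤ ∑ u : (Fin 3 → k), (Fintype.card k ^ 2 + if u = 0 then Fintype.card k ^ 3 else 0) := Finset.sum_le_sum fun u _ => h u
    _ = Fintype.card k ^ 3 * Fintype.card k ^ 2 + Fintype.card k ^ 3 := by
        rw [Finset.sum_add_distrib]; simp
    _ ≤ 2 * Fintype.card k ^ 5 := by
        have : Fintype.card k ^ 3 ≤ Fintype.card k ^ 5 := Nat.pow_le_pow_right hq (by norm_num)
        calc _ = Fintype.card k ^ 5 + Fintype.card k ^ 3 := by ring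
          _ ≤ _ := by omega

lemma card_pairs_ge : Fintype.card k ^ 5 ≤ (pairs k).card := by
  rw [pairs, card_filter, Fintype.sum_prod_type]
  simp only [← card_filter]
  have h : ∀ u : (Fin 3 → k), Fintype.card k ^ 2 ≤ (univ.filter fun φ : (Fin 3 → k) => φ ⬝ᵥ u = 0).card := by
    intro u
    by_cases hu : u = 0
    · subst hu
      have hq : 1 ≤ Fintype.card k := Fintype.card_pos
      have : (univ.filter fun φ : (Fin 3 → k) => φ ⬝ᵥ (0 : (Fin 3 → k)) = 0) = univ := by
        ext; simp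
      rw [this, card_univ, card_V3]
      exact Nat.pow_le_pow_right hq (by norm_num)
    · rw [card_perp hu]
  calc Fintype.card k ^ 5 = ∑ _u : (Fin 3 → k), Fintype.card k ^ 2 := by simp; ring
    _ ≤ _ := Finset.sum_le_sum fun u _ => h u

/-- `B'`: pairs with `(φ ⬝ a) u = 0`. -/
lemma card_B {a : Fin 3 → k} (ha : a ≠ 0) :
    ((pairs k).filter fun p => (p.2 ⬝ᵥ a) • p.1 = 0).card ≤ 3 * Fintype.card k ^ 4 := by
  have hq : 1 ≤ Fintype.card k := Fintype.card_pos
  have hsub : ((pairs k).filter fun p => (p.2 ⬝ᵥ a) • p.1 = 0) ⊆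
      (univ.filter fun p : (Fin 3 → k) × (Fin 3 → k) => p.1 = 0) ∪
      (univ.filter fun p : (Fin 3 → k) × (Fin 3 → k) => p.2 ⬝ᵥ a = 0 ∧ p.2 ⬝ᵥ p.1 = 0) := by
    intro p hp
    simp only [pairs, mem_filter, mem_univ, true_and, mem_union, smul_eq_zero] at hp ⊢
    tauto
  have h1 : (univ.filter fun p : (Fin 3 → k) × (Fin 3 → k) => p.1 = 0).card = Fintype.card k ^ 3 := by
    rw [card_filter, Fintype.sum_prod_type]
    simp only [← card_filter]
    have : ∀ u : (Fin 3 → k), (univ.filter fun _φ : (Fin 3 → k) => u = 0).card = if u = 0 then Fintype.card k ^ 3 else 0 := by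
      intro u
      by_cases hu : u = 0 <;> simp [hu]
    rw [Finset.sum_congr rfl fun u _ => this u]
    simp
  have h2 : (univ.filter fun p : (Fin 3 → k) × (Fin 3 → k) => p.2 ⬝ᵥ a = 0 ∧ p.2 ⬝ᵥ p.1 = 0).card ≤
      Fintype.card k ^ 4 + Fintype.card k ^ 3 := by
    have hsw : (univ.filter fun p : (Fin 3 → k) × (Fin 3 → k) => p.2 ⬝ᵥ a = 0 ∧ p.2 ⬝ᵥ p.1 = 0).card =
        (univ.filter fun p : (Fin 3 → k) × (Fin 3 → k) => p.1 ⬝ᵥ a = 0 ∧ p.1 ⬝ᵥ p.2 = 0).card := by
      refine Finset.card_bij (fun p _ => p.swap) ?_ ?_ ?_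
      · intro p hp; simpa using hp
      · intro p _ p' _ h; exact Prod.swap_injective h
      · intro p hp; exact ⟨p.swap, by simpa using hp, by simp⟩
    rw [hsw, card_filter, Fintype.sum_prod_type]
    simp only [← card_filter]
    have h : ∀ φ : (Fin 3 → k), (univ.filter fun u : (Fin 3 → k) => φ ⬝ᵥ a = 0 ∧ φ ⬝ᵥ u = 0).card ≤
        (if φ ⬝ᵥ a = 0 then Fintype.card k ^ 2 else 0) + if φ = 0 then Fintype.card k ^ 3 else 0 := by
      intro φ
      by_cases hφ : φ = 0
      · simp only [hφ, if_true]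
        calc _ ≤ Fintype.card (Fin 3 → k) := card_le_univ _
          _ = Fintype.card k ^ 3 := card_V3
          _ ≤ _ := Nat.le_add_left _ _
      · by_cases h1 : φ ⬝ᵥ a = 0
        · simp only [h1, true_and, if_true, hφ, if_false, add_zero]
          rw [card_perp' hφ]
        · simp [h1]
    calc _ ≤ ∑ φ : (Fin 3 → k), ((if φ ⬝ᵥ a = 0 then Fintype.card k ^ 2 else 0) + if φ = 0 then Fintype.card k ^ 3 else 0) :=
          Finset.sum_le_sum fun u _ => h u
      _ = Fintype.card k ^ 2 * Fintype.card k ^ 2 + Fintype.card k ^ 3 := by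
          rw [Finset.sum_add_distrib, ← Finset.sum_filter, Finset.sum_const, card_perp ha]
          simp
      _ = _ := by ring
  calc _ ≤ _ := card_le_card hsub
    _ ≤ _ := card_union_le _ _
    _ ≤ Fintype.card k ^ 3 + (Fintype.card k ^ 4 + Fintype.card k ^ 3) := by omega
    _ ≤ 3 * Fintype.card k ^ 4 := by
        have : Fintype.card k ^ 3 ≤ Fintype.card k ^ 4 := Nat.pow_le_pow_right hq (by norm_num)
        omega

/-- `B' ∩ B''` -/
lemma card_BB {a b : Fin 3 → k} (ha : a ≠ 0) (hb : b ≠ 0) :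
    ((pairs k).filter fun p => (p.2 ⬝ᵥ a) • p.1 = 0 ∧ (p.1 ⬝ᵥ b) • p.2 = 0).card ≤ 4 * Fintype.card k ^ 3 := by
  have hq : 1 ≤ Fintype.card k := Fintype.card_pos
  have hsub : ((pairs k).filter fun p => (p.2 ⬝ᵥ a) • p.1 = 0 ∧ (p.1 ⬝ᵥ b) • p.2 = 0) ⊆
      ((univ.filter fun p : (Fin 3 → k) × (Fin 3 → k) => p.1 = 0) ∪ (univ.filter fun p : (Fin 3 → k) × (Fin 3 → k) => p.2 = 0)) ∪
      (univ.filter fun p : (Fin 3 → k) × (Fin 3 → k) => p.1 ⬝ᵥ b = 0 ∧ (p.2 ⬝ᵥ a = 0 ∧ p.2 ⬝ᵥ p.1 = 0)) := by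
    intro p hp
    simp only [pairs, mem_filter, mem_univ, true_and, mem_union, smul_eq_zero] at hp ⊢
    tauto
  have h1 : (univ.filter fun p : (Fin 3 → k) × (Fin 3 → k) => p.1 = 0).card = Fintype.card k ^ 3 := by
    rw [card_filter, Fintype.sum_prod_type]
    simp only [← card_filter]
    have : ∀ u : (Fin 3 → k), (univ.filter fun _φ : (Fin 3 → k) => u = 0).card = if u = 0 then Fintype.card k ^ 3 else 0 := by
      intro u
      by_cases hu : u = 0 <;> simp [hu]
    rw [Finset.sum_congr rfl fun u _ => this u]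
    simp
  have h1' : (univ.filter fun p : (Fin 3 → k) × (Fin 3 → k) => p.2 = 0).card = Fintype.card k ^ 3 := by
    rw [card_filter, Fintype.sum_prod_type]
    simp
  have h2 : (univ.filter fun p : (Fin 3 → k) × (Fin 3 → k) => p.1 ⬝ᵥ b = 0 ∧ (p.2 ⬝ᵥ a = 0 ∧ p.2 ⬝ᵥ p.1 = 0)).card ≤
      2 * Fintype.card k ^ 3 := by
    rw [card_filter, Fintype.sum_prod_type]
    simp only [← card_filter]
    have h : ∀ u : (Fin 3 → k), (univ.filter fun φ : (Fin 3 → k) => u ⬝ᵥ b = 0 ∧ (φ ⬝ᵥ a = 0 ∧ φ ⬝ᵥ u = 0)).card ≤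
        (if u ⬝ᵥ b = 0 then Fintype.card k else 0) + if (∃ t : k, u = t • a) then Fintype.card k ^ 2 else 0 := by
      intro u
      by_cases hu : ∃ t : k, u = t • a
      · simp only [hu, if_true]
        calc _ ≤ (univ.filter fun φ : (Fin 3 → k) => φ ⬝ᵥ a = 0).card := by
              apply card_le_card
              intro φ hφ
              simp only [mem_filter, mem_univ, true_and] at hφ ⊢
              exact hφ.2.1
          _ = Fintype.card k ^ 2 := card_perp ha
          _ ≤ _ := Nat.le_add_left _ _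
      · by_cases h1 : u ⬝ᵥ b = 0
        · simp only [h1, true_and, if_true, hu, if_false, add_zero]
          rw [card_perp_perp ha hu]
        · simp [h1]
    have h3 : (univ.filter fun u : (Fin 3 → k) => ∃ t : k, u = t • a).card ≤ Fintype.card k := by
      calc _ ≤ (univ.image fun t : k => t • a).card := by
            apply card_le_card
            intro u hu
            simp only [mem_filter, mem_univ, true_and] at hu
            obtain ⟨t, rfl⟩ := hu
            simp
        _ ≤ Fintype.card k := card_image_le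
    calc _ ≤ ∑ u : (Fin 3 → k), ((if u ⬝ᵥ b = 0 then Fintype.card k else 0) +
          if (∃ t : k, u = t • a) then Fintype.card k ^ 2 else 0) := Finset.sum_le_sum fun u _ => h u
      _ ≤ Fintype.card k ^ 2 * Fintype.card k + Fintype.card k * Fintype.card k ^ 2 := by
          rw [Finset.sum_add_distrib, ← Finset.sum_filter, ← Finset.sum_filter, Finset.sum_const,
            Finset.sum_const, card_perp hb, smul_eq_mul, smul_eq_mul]
          gcongr
      _ = 2 * Fintype.card k ^ 3 := by ring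
  calc _ ≤ _ := card_le_card hsub
    _ ≤ _ := card_union_le _ _
    _ ≤ (Fintype.card k ^ 3 + Fintype.card k ^ 3) + 2 * Fintype.card k ^ 3 := by
        gcongr
        exact (card_union_le _ _).trans (by omega)
    _ = 4 * Fintype.card k ^ 3 := by ring

/-- `C'`: pairs with `a + (φ ⬝ a') u = 0`. -/
lemma card_C {a a' : Fin 3 → k} (ha : a ≠ 0) :
    ((pairs k).filter fun p => a + (p.2 ⬝ᵥ a') • p.1 = 0).card ≤ Fintype.card k ^ 2 := by
  rw [← card_perp ha]
  refine card_le_card_of_injOn (fun p => p.2) ?_ ?_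
  · intro p hp
    simp only [pairs, coe_filter, mem_filter, mem_univ, true_and, Set.mem_ofPred_eq] at hp ⊢
    have h1 : a = -((p.2 ⬝ᵥ a') • p.1) := by
      rw [eq_neg_iff_add_eq_zero]; exact hp.2
    rw [h1, dotProduct_neg, dotProduct_smul, hp.1, smul_zero, neg_zero]
  · intro p hp p' hp' hpp
    simp only [pairs, coe_filter, mem_filter, mem_univ, true_and, Set.mem_ofPred_eq] at hp hp' hpp
    have hne : p.2 ⬝ᵥ a' ≠ 0 := by
      intro h0
      have := hp.2
      rw [h0, zero_smul, add_zero] at this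
      exact ha this
    refine Prod.ext ?_ hpp
    have h1 : (p.2 ⬝ᵥ a') • p.1 = (p.2 ⬝ᵥ a') • p'.1 := by
      have e1 := hp.2
      have e2 := hp'.2
      rw [← hpp] at e2
      exact add_left_cancel (e1.trans e2.symm)
    exact smul_right_injective _ hne h1

/-- `C''`. -/
lemma card_C' {b b' : Fin 3 → k} (hb : b ≠ 0) :
    ((pairs k).filter fun p => b + (p.1 ⬝ᵥ b') • (-p.2) = 0).card ≤ Fintype.card k ^ 2 := by
  rw [← card_perp hb]
  refine card_le_card_of_injOn (fun p => p.1) ?_ ?_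
  · intro p hp
    simp only [pairs, coe_filter, mem_filter, mem_univ, true_and, Set.mem_ofPred_eq] at hp ⊢
    have h1 : b = (p.1 ⬝ᵥ b') • p.2 := by
      have := hp.2
      rw [smul_neg, ← sub_eq_add_neg, sub_eq_zero] at this
      exact this
    rw [h1, dotProduct_smul, dotProduct_comm p.1 p.2, hp.1, smul_zero]
  · intro p hp p' hp' hpp
    simp only [pairs, coe_filter, mem_filter, mem_univ, true_and, Set.mem_ofPred_eq] at hp hp' hpp
    have hne : p.1 ⬝ᵥ b' ≠ 0 := by
      intro h0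
      have := hp.2
      rw [h0, zero_smul, add_zero] at this
      exact hb this
    refine Prod.ext hpp ?_
    have h1 : (p.1 ⬝ᵥ b') • (-p.2) = (p.1 ⬝ᵥ b') • (-p'.2) := by
      have e1 := hp.2
      have e2 := hp'.2
      rw [← hpp] at e2
      exact add_left_cancel (e1.trans e2.symm)
    exact neg_injective (smul_right_injective _ hne h1)

/-- `C' ∩ C''`. -/
lemma card_CC {a a' b b' : Fin 3 → k} (ha : a ≠ 0) (hb : b ≠ 0) :
    ((pairs k).filter fun p => a + (p.2 ⬝ᵥ a') • p.1 = 0 ∧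
      b + (p.1 ⬝ᵥ b') • (-p.2) = 0).card ≤ Fintype.card k := by
  rw [← card_univ (α := k)]
  refine card_le_card_of_injOn (fun p => p.1 ⬝ᵥ b') (fun _ _ => by simp) ?_
  intro p hp p' hp' hpp
  simp only [pairs, coe_filter, mem_filter, mem_univ, true_and, Set.mem_ofPred_eq] at hp hp' hpp
  have hne : p.1 ⬝ᵥ b' ≠ 0 := by
    intro h0
    have := hp.2.2
    rw [h0, zero_smul, add_zero] at this
    exact hb this
  have h2 : p.2 = p'.2 := by
    have h1 : (p.1 ⬝ᵥ b') • (-p.2) = (p.1 ⬝ᵥ b') • (-p'.2) := by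
      have e1 := hp.2.2
      have e2 := hp'.2.2
      rw [← hpp] at e2
      exact add_left_cancel (e1.trans e2.symm)
    exact neg_injective (smul_right_injective _ hne h1)
  have hne2 : p.2 ⬝ᵥ a' ≠ 0 := by
    intro h0
    have := hp.2.1
    rw [h0, zero_smul, add_zero] at this
    exact ha this
  refine Prod.ext ?_ h2
  have h1 : (p.2 ⬝ᵥ a') • p.1 = (p.2 ⬝ᵥ a') • p'.1 := by
    have e1 := hp.2.1
    have e2 := hp'.2.1
    rw [← h2] at e2
    exact add_left_cancel (e1.trans e2.symm)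
  exact smul_right_injective _ hne2 h1

end Pool.Agent.Lib_helper64.Cut
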