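import Mathlib
import Pool.Agent.Lib_helper64.Cut.Defs
import Pool.Agent.Lib_helper64.Cut.Count

/-! The weight inequality on `SL_3(k[X])`. -/

set_option autoImplicit false

namespace Pool.Agent.Lib_helper64.Cut

open Finset Matrix Polynomial

/-! ### the main steps -/

section main

variable {k R : Type*} [Field k] [CommRing R] [Algebra k R]

/-- the vector over `R` of a vector over `k` -/
def lift (R : Type*) [CommRing R] [Algebra k R] (u : Fin 3 → k) : Fin 3 → R :=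
  fun i => algebraMap k R (u i)

lemma lift_dot (u v : Fin 3 → k) : lift R u ⬝ᵥ lift R v = algebraMap k R (u ⬝ᵥ v) := by
  simp [lift, dotProduct]

/-- the matrix `1 + x u ⊗ φ` -/
def mainM (x : R) (u φ : Fin 3 → k) : Matrix (Fin 3) (Fin 3) R :=
  1 + vecMulVec (x • lift R u) (lift R φ)

lemma mainM_mulVec (x : R) (u φ : Fin 3 → k) (y : Fin 3 → R) :
    mainM x u φ *ᵥ y = y + (x * (lift R φ ⬝ᵥ y)) • lift R u := by
  ext i
  rw [mainM, add_mulVec, one_mulVec, Pi.add_apply, Pi.add_apply]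
  congr 1
  simp only [mulVec, dotProduct, vecMulVec_apply, Pi.smul_apply, smul_eq_mul]
  rw [Finset.mul_sum, Finset.sum_mul]
  exact Finset.sum_congr rfl fun j _ => by ring

lemma mainM_vecMul (x : R) (u φ : Fin 3 → k) (y : Fin 3 → R) :
    y ᵥ* mainM x u φ = y + (x * (lift R u ⬝ᵥ y)) • lift R φ := by
  ext i
  rw [mainM, vecMul_add, vecMul_one, Pi.add_apply, Pi.add_apply]
  congr 1
  simp only [vecMul, dotProduct, vecMulVec_apply, Pi.smul_apply, smul_eq_mul]
  rw [Finset.mul_sum, Finset.sum_mul]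
  exact Finset.sum_congr rfl fun j _ => by ring

lemma det_mainM (x : R) {u φ : Fin 3 → k} (h : φ ⬝ᵥ u = 0) : (mainM x u φ).det = 1 := by
  have h2 : φ 0 * u 0 + φ 1 * u 1 + φ 2 * u 2 = 0 := by
    rw [← h]; simp [dotProduct, Fin.sum_univ_three]
  have h3 : algebraMap k R (φ 0) * algebraMap k R (u 0) + algebraMap k R (φ 1) *
      algebraMap k R (u 1) + algebraMap k R (φ 2) * algebraMap k R (u 2) = 0 := by
    rw [← map_mul, ← map_mul, ← map_mul, ← map_add, ← map_add, h2, map_zero]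
  rw [det_fin_three]
  simp only [mainM, Matrix.add_apply, vecMulVec_apply, lift, Pi.smul_apply, smul_eq_mul,
    Matrix.one_apply]
  simp only [Fin.isValue, if_true, one_ne_zero, zero_ne_one, if_false, zero_add,
    show ((0 : Fin 3) = 2) = False from by simp, show ((2 : Fin 3) = 0) = False from by simp,
    show ((1 : Fin 3) = 2) = False from by simp, show ((2 : Fin 3) = 1) = False from by simp]
  linear_combination x * h3

/-- the main step `1 + x u ⊗ φ`, `φ ⬝ u = 0` -/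
def mainEl (x : R) (u φ : Fin 3 → k) (h : φ ⬝ᵥ u = 0) : SL3 R := ⟨mainM x u φ, det_mainM x h⟩

lemma mainEl_inv (x : R) (u φ : Fin 3 → k) (h : φ ⬝ᵥ u = 0) :
    (mainEl x u φ h)⁻¹ = mainEl x (-u) φ (by rw [dotProduct_neg, h, neg_zero]) := by
  apply inv_eq_of_mul_eq_one_right
  apply Subtype.ext
  change mainM x u φ * mainM x (-u) φ = 1
  have hl : lift R (-u) = - lift R u := by ext i; simp [lift]
  have h0 : lift R φ ⬝ᵥ -(x • lift R u) = 0 := by
    rw [dotProduct_neg, dotProduct_smul, lift_dot, h, map_zero, smul_zero, neg_zero]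
  rw [mainM, mainM, hl, smul_neg, Matrix.mul_add, Matrix.mul_one, Matrix.add_mul, Matrix.one_mul,
    vecMulVec_mul_vecMulVec, h0]
  ext i j
  simp [vecMulVec_apply]

end main

/-! ### degrees of polynomial vectors -/

variable {k : Type*} [Field k]

/-- the degree of a vector of polynomials -/
def dg (y : Fin 3 → k[X]) : ℕ := Finset.univ.sup fun i => (y i).natDegree

/-- the vector of the `n`-th coefficients -/
def cf (y : Fin 3 → k[X]) (n : ℕ) : Fin 3 → k := fun i => (y i).coeff n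

/-- the vector of the `(n-1)`-st coefficients, `0` if `n = 0` -/
def pc (y : Fin 3 → k[X]) : ℕ → (Fin 3 → k)
  | 0 => 0
  | n + 1 => cf y n

lemma natDegree_le_dg (y : Fin 3 → k[X]) (i : Fin 3) : (y i).natDegree ≤ dg y :=
  Finset.le_sup (f := fun i => (y i).natDegree) (Finset.mem_univ i)

lemma dg_le {y : Fin 3 → k[X]} {n : ℕ} (h : ∀ i, (y i).natDegree ≤ n) : dg y ≤ n :=
  Finset.sup_le fun i _ => h i

lemma le_dg {y : Fin 3 → k[X]} {n : ℕ} (h : cf y n ≠ 0) : n ≤ dg y := by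
  obtain ⟨i, hi⟩ : ∃ i, cf y n i ≠ 0 := by
    by_contra hcon
    push Not at hcon
    exact h (funext hcon)
  exact (le_natDegree_of_ne_zero hi).trans (natDegree_le_dg y i)

lemma cf_eq_zero {y : Fin 3 → k[X]} {n : ℕ} (h : dg y < n) : cf y n = 0 := by
  ext i
  exact coeff_eq_zero_of_natDegree_lt ((natDegree_le_dg y i).trans_lt h)

lemma cf_dg_ne_zero {y : Fin 3 → k[X]} (h : y ≠ 0) : cf y (dg y) ≠ 0 := by
  by_cases hd : dg y = 0
  · rw [hd]
    intro hcon
    apply h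
    ext1 i
    have h1 : (y i).natDegree = 0 := Nat.le_zero.mp (hd ▸ natDegree_le_dg y i)
    rw [eq_C_of_natDegree_eq_zero h1]
    have : (y i).coeff 0 = 0 := congrFun hcon i
    rw [this]; simp
  · obtain ⟨i, _, hi⟩ := Finset.exists_mem_eq_sup (Finset.univ : Finset (Fin 3))
      Finset.univ_nonempty (fun i => (y i).natDegree)
    have hi' : dg y = (y i).natDegree := hi
    intro hcon
    have h1 : (y i).coeff (y i).natDegree = 0 := by
      rw [← hi']; exact congrFun hcon i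
    rw [coeff_natDegree, leadingCoeff_eq_zero] at h1
    rw [h1] at hi'
    simp at hi'
    exact hd hi'

lemma coeff_lift_dot (φ : Fin 3 → k) (y : Fin 3 → k[X]) (n : ℕ) :
    (lift k[X] φ ⬝ᵥ y).coeff n = φ ⬝ᵥ cf y n := by
  simp only [dotProduct, lift, cf, finsetSum_coeff]
  refine Finset.sum_congr rfl fun j _ => ?_
  rw [algebraMap_eq, coeff_C_mul]

/-- action of the main step on polynomial vectors -/
noncomputable def act (u φ : Fin 3 → k) (y : Fin 3 → k[X]) : Fin 3 → k[X] :=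
  y + (X * (lift k[X] φ ⬝ᵥ y)) • lift k[X] u

lemma cf_act (u φ : Fin 3 → k) (y : Fin 3 → k[X]) (n : ℕ) :
    cf (act u φ y) n = cf y n + (φ ⬝ᵥ pc y n) • u := by
  ext i
  simp only [act, cf, Pi.add_apply, Pi.smul_apply, smul_eq_mul, coeff_add]
  congr 1
  have : X * (lift k[X] φ ⬝ᵥ y) * lift k[X] u i = C (u i) * (X * (lift k[X] φ ⬝ᵥ y)) := by
    rw [mul_comm]; rfl
  rw [this, coeff_C_mul]
  cases n with
  | zero => simp [pc]
  | succ n =>
    rw [coeff_X_mul, coeff_lift_dot, mul_comm]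
    rfl

lemma dg_act_le (u φ : Fin 3 → k) (y : Fin 3 → k[X]) : dg (act u φ y) ≤ dg y + 1 := by
  apply dg_le
  intro i
  rw [natDegree_le_iff_coeff_eq_zero]
  intro N hN
  have h1 : cf (act u φ y) N = 0 := by
    rw [cf_act, cf_eq_zero (by omega)]
    obtain ⟨M, rfl⟩ : ∃ M, N = M + 1 := ⟨N - 1, by omega⟩
    have : pc y (M + 1) = 0 := cf_eq_zero (by omega)
    rw [this]; simp
  exact congrFun h1 i

lemma act_act (u φ : Fin 3 → k) (h : φ ⬝ᵥ u = 0) (y : Fin 3 → k[X]) :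
    act (-u) φ (act u φ y) = y := by
  have hl : lift k[X] (-u) = - lift k[X] u := by ext i; simp [lift]
  have h1 : lift k[X] φ ⬝ᵥ act u φ y = lift k[X] φ ⬝ᵥ y := by
    rw [act, dotProduct_add, dotProduct_smul, lift_dot, h, map_zero, smul_zero, add_zero]
  unfold act at h1 ⊢
  rw [h1, hl, smul_neg, add_neg_cancel_right]

lemma dg_le_dg_act (u φ : Fin 3 → k) (h : φ ⬝ᵥ u = 0) (y : Fin 3 → k[X]) :
    dg y ≤ dg (act u φ y) + 1 := by
  conv_lhs => rw [← act_act u φ h y]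
  exact dg_act_le _ _ _

variable [Fintype k] [DecidableEq k]

/-- the bound for the change of weight -/
noncomputable def Wt (a a' : Fin 3 → k) (p : (Fin 3 → k) × (Fin 3 → k)) : ℝ :=
  (Fintype.card k : ℝ)⁻¹ + (if (p.2 ⬝ᵥ a) • p.1 = 0 then 1 else 0) +
    (Fintype.card k : ℝ) * (if a + (p.2 ⬝ᵥ a') • p.1 = 0 then 1 else 0)

lemma Wt_nonneg (a a' : Fin 3 → k) (p : (Fin 3 → k) × (Fin 3 → k)) : 0 ≤ Wt a a' p := by
  unfold Wt; positivity

lemma one_le_card : (1 : ℝ) ≤ Fintype.card k := by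
  exact_mod_cast (Fintype.card_pos : 0 < Fintype.card k)

lemma drop (u φ : Fin 3 → k) (h : φ ⬝ᵥ u = 0) {y : Fin 3 → k[X]} :
    ((Fintype.card k : ℝ) ^ dg (act u φ y))⁻¹ ≤
      ((Fintype.card k : ℝ) ^ dg y)⁻¹ * Wt (cf y (dg y)) (pc y (dg y)) (u, φ) := by
  have hq1 : (1 : ℝ) ≤ Fintype.card k := one_le_card
  have hq0 : (0 : ℝ) < Fintype.card k := by linarith
  have hpow : ∀ n : ℕ, (0 : ℝ) < (Fintype.card k : ℝ) ^ n := fun n => pow_pos hq0 n
  set q : ℝ := (Fintype.card k : ℝ) with hq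
  by_cases h1 : (φ ⬝ᵥ cf y (dg y)) • u = 0
  · by_cases h2 : cf y (dg y) + (φ ⬝ᵥ pc y (dg y)) • u = 0
    · have h3 : q ≤ Wt (cf y (dg y)) (pc y (dg y)) (u, φ) := by
        simp only [Wt, h1, h2, if_true, mul_one]
        have : 0 ≤ q⁻¹ := by positivity
        linarith
      have h4 := dg_le_dg_act u φ h y
      calc (q ^ dg (act u φ y))⁻¹ = (q ^ (dg (act u φ y) + 1))⁻¹ * q := by
            rw [pow_succ, mul_inv, mul_assoc, inv_mul_cancel₀ hq0.ne', mul_one]
        _ ≤ (q ^ dg y)⁻¹ * q := by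
            refine mul_le_mul_of_nonneg_right ?_ hq0.le
            exact inv_anti₀ (hpow _) (pow_le_pow_right₀ hq1 h4)
        _ ≤ _ := mul_le_mul_of_nonneg_left h3 (inv_nonneg.mpr (hpow _).le)
    · have h3 : 1 ≤ Wt (cf y (dg y)) (pc y (dg y)) (u, φ) := by
        simp only [Wt, h1, h2, if_true, if_false, mul_zero, add_zero]
        have : 0 ≤ q⁻¹ := by positivity
        linarith
      have h4 : dg y ≤ dg (act u φ y) := le_dg (by rw [cf_act]; exact h2)
      calc (q ^ dg (act u φ y))⁻¹ ≤ (q ^ dg y)⁻¹ * 1 := by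
            rw [mul_one]
            exact inv_anti₀ (hpow _) (pow_le_pow_right₀ hq1 h4)
        _ ≤ _ := mul_le_mul_of_nonneg_left h3 (inv_nonneg.mpr (hpow _).le)
  · have h3 : q⁻¹ ≤ Wt (cf y (dg y)) (pc y (dg y)) (u, φ) := by
      unfold Wt
      have h5 : (0 : ℝ) ≤ (if (((u, φ) : (Fin 3 → k) × (Fin 3 → k)).2 ⬝ᵥ cf y (dg y)) •
        ((u, φ) : (Fin 3 → k) × (Fin 3 → k)).1 = 0 then 1 else 0) := by positivity
      have h6 : (0 : ℝ) ≤ (Fintype.card k : ℝ) * (if cf y (dg y) +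
        (((u, φ) : (Fin 3 → k) × (Fin 3 → k)).2 ⬝ᵥ pc y (dg y)) •
        ((u, φ) : (Fin 3 → k) × (Fin 3 → k)).1 = 0 then 1 else 0) := by positivity
      rw [← hq]
      linarith
    have h4 : dg y + 1 ≤ dg (act u φ y) := by
      apply le_dg
      rw [cf_act, cf_eq_zero (Nat.lt_succ_self _), zero_add]
      exact h1
    calc (q ^ dg (act u φ y))⁻¹ ≤ (q ^ (dg y + 1))⁻¹ :=
          inv_anti₀ (hpow _) (pow_le_pow_right₀ hq1 h4)
      _ = (q ^ dg y)⁻¹ * q⁻¹ := by rw [pow_succ, mul_inv]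
      _ ≤ _ := mul_le_mul_of_nonneg_left h3 (inv_nonneg.mpr (hpow _).le)

lemma card_B'' {b : Fin 3 → k} (hb : b ≠ 0) :
    ((pairs k).filter fun p => (p.1 ⬝ᵥ b) • (-p.2) = 0).card ≤ 3 * Fintype.card k ^ 4 := by
  refine le_trans ?_ (card_B hb)
  refine Finset.card_le_card_of_injOn (fun p => p.swap) ?_ (Prod.swap_injective.injOn)
  intro p hp
  simp only [pairs, coe_filter, mem_filter, mem_univ, true_and, Set.mem_ofPred_eq, smul_neg,
    neg_eq_zero] at hp ⊢
  simp only [Prod.fst_swap, Prod.snd_swap]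
  exact ⟨by rw [dotProduct_comm]; exact hp.1, hp.2⟩

lemma card_BB'' {a b : Fin 3 → k} (ha : a ≠ 0) (hb : b ≠ 0) :
    ((pairs k).filter fun p => (p.2 ⬝ᵥ a) • p.1 = 0 ∧ (p.1 ⬝ᵥ b) • (-p.2) = 0).card ≤
      4 * Fintype.card k ^ 3 := by
  simpa only [smul_neg, neg_eq_zero] using card_BB ha hb

lemma sum_Wt_Wt {a a' b b' : Fin 3 → k} (ha : a ≠ 0) (hb : b ≠ 0) :
    ∑ p ∈ pairs k, Wt a a' p * Wt b b' (-p.2, p.1) ≤ 17 * (Fintype.card k : ℝ) ^ 3 := by
  have hq1 : (1 : ℝ) ≤ Fintype.card k := one_le_card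
  have hq0 : (0 : ℝ) < Fintype.card k := by linarith
  set q : ℝ := (Fintype.card k : ℝ) with hq
  -- abbreviations
  let B1 : (Fin 3 → k) × (Fin 3 → k) → Prop := fun p => (p.2 ⬝ᵥ a) • p.1 = 0
  let C1 : (Fin 3 → k) × (Fin 3 → k) → Prop := fun p => a + (p.2 ⬝ᵥ a') • p.1 = 0
  let B2 : (Fin 3 → k) × (Fin 3 → k) → Prop := fun p => (p.1 ⬝ᵥ b) • (-p.2) = 0
  let C2 : (Fin 3 → k) × (Fin 3 → k) → Prop := fun p => b + (p.1 ⬝ᵥ b') • (-p.2) = 0
  have hexp : ∀ p ∈ pairs k, Wt a a' p * Wt b b' (-p.2, p.1) =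
      q⁻¹ * q⁻¹ + q⁻¹ * (if B2 p then 1 else 0) + (if C2 p then 1 else 0) +
      q⁻¹ * (if B1 p then 1 else 0) + (if B1 p ∧ B2 p then 1 else 0) +
      q * (if B1 p ∧ C2 p then 1 else 0) + (if C1 p then 1 else 0) +
      q * (if C1 p ∧ B2 p then 1 else 0) + q ^ 2 * (if C1 p ∧ C2 p then 1 else 0) := by
    intro p _
    have e1 : Wt a a' p = q⁻¹ + (if B1 p then 1 else 0) + q * (if C1 p then 1 else 0) := rfl
    have e2 : Wt b b' (-p.2, p.1) =
      q⁻¹ + (if B2 p then 1 else 0) + q * (if C2 p then 1 else 0) := rfl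
    rw [e1, e2]
    by_cases hB1 : B1 p <;> by_cases hB2 : B2 p <;> by_cases hC1 : C1 p <;> by_cases hC2 : C2 p <;>
      simp only [hB1, hB2, hC1, hC2, if_true, if_false, and_self, and_true, and_false] <;>
      field_simp <;> ring
  rw [Finset.sum_congr rfl hexp]
  simp only [Finset.sum_add_distrib, ← Finset.mul_sum, Finset.sum_const, nsmul_eq_mul,
    Finset.sum_boole]
  have n0 : ((pairs k).card : ℝ) ≤ 2 * q ^ 5 := by
    rw [hq]; exact_mod_cast card_pairs_le (k := k)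
  have n1 : (((pairs k).filter B1).card : ℝ) ≤ 3 * q ^ 4 := by
    rw [hq]; exact_mod_cast card_B ha
  have n2 : (((pairs k).filter B2).card : ℝ) ≤ 3 * q ^ 4 := by
    rw [hq]; exact_mod_cast card_B'' hb
  have n3 : (((pairs k).filter C1).card : ℝ) ≤ q ^ 2 := by
    rw [hq]; exact_mod_cast card_C (a' := a') ha
  have n4 : (((pairs k).filter C2).card : ℝ) ≤ q ^ 2 := by
    rw [hq]; exact_mod_cast card_C' (b' := b') hb
  have n5 : (((pairs k).filter fun p => B1 p ∧ B2 p).card : ℝ) ≤ 4 * q ^ 3 := by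
    rw [hq]; exact_mod_cast card_BB'' ha hb
  have n6 : (((pairs k).filter fun p => B1 p ∧ C2 p).card : ℝ) ≤ q ^ 2 := by
    refine le_trans ?_ n4
    exact_mod_cast card_le_card (fun p hp => by
      rw [mem_filter] at hp ⊢; exact ⟨hp.1, hp.2.2⟩)
  have n7 : (((pairs k).filter fun p => C1 p ∧ B2 p).card : ℝ) ≤ q ^ 2 := by
    refine le_trans ?_ n3
    exact_mod_cast card_le_card (fun p hp => by
      rw [mem_filter] at hp ⊢; exact ⟨hp.1, hp.2.1⟩)
  have n8 : (((pairs k).filter fun p => C1 p ∧ C2 p).card : ℝ) ≤ q := by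
    rw [hq]; exact_mod_cast card_CC (a' := a') (b' := b') ha hb
  have hqi : 0 ≤ q⁻¹ := by positivity
  have e0 : ((pairs k).card : ℝ) * (q⁻¹ * q⁻¹) ≤ 2 * q ^ 3 := by
    calc _ ≤ (2 * q ^ 5) * (q⁻¹ * q⁻¹) := mul_le_mul_of_nonneg_right n0 (by positivity)
      _ = _ := by field_simp
  have e1 : q⁻¹ * (((pairs k).filter B1).card : ℝ) ≤ 3 * q ^ 3 := by
    calc _ ≤ q⁻¹ * (3 * q ^ 4) := mul_le_mul_of_nonneg_left n1 hqi
      _ = _ := by field_simp
  have e2 : q⁻¹ * (((pairs k).filter B2).card : ℝ) ≤ 3 * q ^ 3 := by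
    calc _ ≤ q⁻¹ * (3 * q ^ 4) := mul_le_mul_of_nonneg_left n2 hqi
      _ = _ := by field_simp
  have e6 : q * (((pairs k).filter fun p => B1 p ∧ C2 p).card : ℝ) ≤ q ^ 3 := by
    calc _ ≤ q * q ^ 2 := mul_le_mul_of_nonneg_left n6 hq0.le
      _ = _ := by ring
  have e7 : q * (((pairs k).filter fun p => C1 p ∧ B2 p).card : ℝ) ≤ q ^ 3 := by
    calc _ ≤ q * q ^ 2 := mul_le_mul_of_nonneg_left n7 hq0.le
      _ = _ := by ring
  have e8 : q ^ 2 * (((pairs k).filter fun p => C1 p ∧ C2 p).card : ℝ) ≤ q ^ 3 := by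
    calc _ ≤ q ^ 2 * q := mul_le_mul_of_nonneg_left n8 (by positivity)
      _ = _ := by ring
  have e9 : q ^ 2 ≤ q ^ 3 := pow_le_pow_right₀ hq1 (by norm_num)
  linarith

end Pool.Agent.Lib_helper64.Cut
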