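import Mathlib
import Pool.Agent.Lib_helper64.Cut.Defs
import Pool.Agent.Lib_helper64.Cut.Count
import Pool.Agent.Lib_helper64.Cut.Weight
import Pool.Agent.Lib_helper64.Cut.Schur

/-! The step law on `SL_3(k[X])` and its `ℓ²` contraction. -/

set_option autoImplicit false

namespace Pool.Agent.Lib_helper64.Cut

open Finset Matrix Polynomial

variable {k : Type*} [Field k]

/-- first column -/
def col0 {R : Type*} [CommRing R] (γ : SL3 R) : Fin 3 → R := fun i => γ.1 i 0

/-- last row of the inverse -/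
def row2 {R : Type*} [CommRing R] (γ : SL3 R) : Fin 3 → R := fun i => (γ⁻¹).1 2 i

lemma col0_mul {R : Type*} [CommRing R] (m γ : SL3 R) : col0 (m * γ) = m.1 *ᵥ col0 γ := by
  ext i
  rfl

lemma row2_mul {R : Type*} [CommRing R] (m γ : SL3 R) :
    row2 (m * γ) = row2 γ ᵥ* (m⁻¹).1 := by
  ext i
  change ((m * γ)⁻¹).1 2 i = _
  rw [_root_.mul_inv_rev]
  rfl

lemma col0_ne_zero {R : Type*} [CommRing R] [Nontrivial R] (γ : SL3 R) : col0 γ ≠ 0 := by
  intro h
  have h1 : γ.1.det = 0 := det_eq_zero_of_column_eq_zero 0 fun i => congrFun h i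
  rw [γ.2] at h1
  exact one_ne_zero h1

lemma row2_ne_zero {R : Type*} [CommRing R] [Nontrivial R] (γ : SL3 R) : row2 γ ≠ 0 := by
  intro h
  have h1 : (γ⁻¹).1.det = 0 := det_eq_zero_of_row_eq_zero 2 fun i => congrFun h i
  rw [(γ⁻¹).2] at h1
  exact one_ne_zero h1

/-- the exponent of the weight -/
noncomputable def hgt (γ : SL3 k[X]) : ℕ := dg (col0 γ) + dg (row2 γ)

lemma col0_mainEl (u φ : Fin 3 → k) (h : φ ⬝ᵥ u = 0) (γ : SL3 k[X]) :
    col0 (mainEl X u φ h * γ) = act u φ (col0 γ) := by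
  rw [col0_mul]
  exact mainM_mulVec _ _ _ _

lemma row2_mainEl (u φ : Fin 3 → k) (h : φ ⬝ᵥ u = 0) (γ : SL3 k[X]) :
    row2 (mainEl X u φ h * γ) = act (-φ) u (row2 γ) := by
  rw [row2_mul, mainEl_inv]
  have hl : ∀ v : Fin 3 → k, lift k[X] (-v) = - lift k[X] v := fun v => by ext i; simp [lift]
  change row2 γ ᵥ* mainM X (-u) φ = _
  rw [mainM_vecMul, act, hl, hl, neg_dotProduct, mul_neg, neg_smul, smul_neg]

section
variable [Fintype k] [DecidableEq k]

/-- the weight -/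
noncomputable def wgt (γ : SL3 k[X]) : ℝ := ((Fintype.card k : ℝ) ^ hgt γ)⁻¹

lemma card_pos' : (0 : ℝ) < Fintype.card k := by
  have := one_le_card (k := k); linarith

lemma wgt_pos (γ : SL3 k[X]) : 0 < wgt γ := inv_pos.mpr (pow_pos card_pos' _)

lemma sum_wgt_main (γ : SL3 k[X]) :
    ∑ p : {p // p ∈ pairs k}, wgt (mainEl X p.1.1 p.1.2 (mem_filter.mp p.2).2 * γ) ≤
      17 * (Fintype.card k : ℝ) ^ 3 * wgt γ := by
  have hterm : ∀ p : {p // p ∈ pairs k},
      wgt (mainEl X p.1.1 p.1.2 (mem_filter.mp p.2).2 * γ) ≤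
      wgt γ * (Wt (cf (col0 γ) (dg (col0 γ))) (pc (col0 γ) (dg (col0 γ))) p.1 *
        Wt (cf (row2 γ) (dg (row2 γ))) (pc (row2 γ) (dg (row2 γ))) (-p.1.2, p.1.1)) := by
    intro p
    have hp := (mem_filter.mp p.2).2
    have hp' : p.1.1 ⬝ᵥ (-p.1.2) = 0 := by rw [dotProduct_neg, dotProduct_comm, hp, neg_zero]
    have h1 := drop p.1.1 p.1.2 hp (y := col0 γ)
    have h2 := drop (-p.1.2) p.1.1 hp' (y := row2 γ)
    rw [wgt, wgt, hgt, hgt, col0_mainEl, row2_mainEl, pow_add, pow_add, mul_inv, mul_inv]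
    calc _ ≤ _ := mul_le_mul h1 h2 (inv_nonneg.mpr (pow_pos card_pos' _).le)
            (mul_nonneg (inv_nonneg.mpr (pow_pos card_pos' _).le) (Wt_nonneg _ _ _))
      _ = _ := by ring
  calc _ ≤ _ := Finset.sum_le_sum fun p _ => hterm p
    _ = wgt γ * ∑ p ∈ pairs k, Wt (cf (col0 γ) (dg (col0 γ))) (pc (col0 γ) (dg (col0 γ))) p *
        Wt (cf (row2 γ) (dg (row2 γ))) (pc (row2 γ) (dg (row2 γ))) (-p.2, p.1) := by
        rw [← Finset.mul_sum]
        congr 1
        exact Finset.sum_coe_sort (pairs k) (fun p =>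
          Wt (cf (col0 γ) (dg (col0 γ))) (pc (col0 γ) (dg (col0 γ))) p *
          Wt (cf (row2 γ) (dg (row2 γ))) (pc (row2 γ) (dg (row2 γ))) (-p.2, p.1))
    _ ≤ wgt γ * (17 * (Fintype.card k : ℝ) ^ 3) :=
        mul_le_mul_of_nonneg_left
          (sum_Wt_Wt (cf_dg_ne_zero (col0_ne_zero γ)) (cf_dg_ne_zero (row2_ne_zero γ)))
          (wgt_pos γ).le
    _ = _ := by ring

/-- inversion on the index set of main steps -/
def negPair : {p // p ∈ pairs k} ≃ {p // p ∈ pairs k} where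
  toFun p := ⟨(-p.1.1, p.1.2), by
    have := (mem_filter.mp p.2).2
    exact mem_filter.mpr ⟨mem_univ _, by rw [dotProduct_neg, this, neg_zero]⟩⟩
  invFun p := ⟨(-p.1.1, p.1.2), by
    have := (mem_filter.mp p.2).2
    exact mem_filter.mpr ⟨mem_univ _, by rw [dotProduct_neg, this, neg_zero]⟩⟩
  left_inv p := by ext1; simp
  right_inv p := by ext1; simp

lemma sum_wgt_main_inv (γ : SL3 k[X]) :
    ∑ p : {p // p ∈ pairs k}, wgt ((mainEl X p.1.1 p.1.2 (mem_filter.mp p.2).2)⁻¹ * γ) ≤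
      17 * (Fintype.card k : ℝ) ^ 3 * wgt γ := by
  refine le_trans (le_of_eq ?_) (sum_wgt_main γ)
  refine Fintype.sum_equiv negPair _ _ fun p => ?_
  rw [mainEl_inv]
  rfl

end

/-! ### noise -/

/-- both `s` and `s⁻¹` have entries of degree at most one -/
def DegOne (s : SL3 k[X]) : Prop :=
  (∀ i j, (s.1 i j).natDegree ≤ 1) ∧ ∀ i j, ((s⁻¹).1 i j).natDegree ≤ 1

lemma DegOne.inv {s : SL3 k[X]} (h : DegOne s) : DegOne s⁻¹ := ⟨h.2, by rw [inv_inv]; exact h.1⟩

lemma dg_mulVec_le {M : Matrix (Fin 3) (Fin 3) k[X]} {D : ℕ} (h : ∀ i j, (M i j).natDegree ≤ D)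
    (y : Fin 3 → k[X]) : dg (M *ᵥ y) ≤ dg y + D := by
  apply dg_le
  intro i
  simp only [mulVec, dotProduct]
  refine natDegree_sum_le_of_forall_le _ _ fun j _ => ?_
  refine natDegree_mul_le.trans ?_
  have := natDegree_le_dg y j
  have := h i j
  omega

lemma dg_vecMul_le {M : Matrix (Fin 3) (Fin 3) k[X]} {D : ℕ} (h : ∀ i j, (M i j).natDegree ≤ D)
    (y : Fin 3 → k[X]) : dg (y ᵥ* M) ≤ dg y + D := by
  apply dg_le
  intro i
  simp only [vecMul, dotProduct]
  refine natDegree_sum_le_of_forall_le _ _ fun j _ => ?_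
  refine natDegree_mul_le.trans ?_
  have := natDegree_le_dg y j
  have := h j i
  omega

lemma hgt_le_noise {s : SL3 k[X]} (hs : DegOne s) (γ : SL3 k[X]) :
    hgt γ ≤ hgt (s * γ) + 2 := by
  have h1 : dg (col0 γ) ≤ dg (col0 (s * γ)) + 1 := by
    have : col0 γ = (s⁻¹).1 *ᵥ col0 (s * γ) := by
      rw [← col0_mul, inv_mul_cancel_left]
    rw [this]
    exact dg_mulVec_le hs.2 _
  have h2 : dg (row2 γ) ≤ dg (row2 (s * γ)) + 1 := by
    have : row2 γ = row2 (s * γ) ᵥ* s.1 := by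
      have := row2_mul s⁻¹ (s * γ)
      rw [inv_mul_cancel_left, inv_inv] at this
      exact this
    rw [this]
    exact dg_vecMul_le hs.1 _
  unfold hgt
  omega

variable [Fintype k] [DecidableEq k]

lemma wgt_noise {s : SL3 k[X]} (hs : DegOne s) (γ : SL3 k[X]) :
    wgt (s * γ) ≤ (Fintype.card k : ℝ) ^ 2 * wgt γ := by
  have h := hgt_le_noise hs γ
  have hq : (0 : ℝ) < Fintype.card k := card_pos'
  rw [wgt, wgt]
  calc ((Fintype.card k : ℝ) ^ hgt (s * γ))⁻¹
      = (Fintype.card k : ℝ) ^ 2 * ((Fintype.card k : ℝ) ^ (hgt (s * γ) + 2))⁻¹ := by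
        rw [pow_add, mul_inv]; field_simp
    _ ≤ _ := by
        refine mul_le_mul_of_nonneg_left ?_ (by positivity)
        exact inv_anti₀ (pow_pos hq _) (pow_le_pow_right₀ one_le_card h)

/-- weights of the steps -/
noncomputable def stepC (k : Type*) [Field k] [Fintype k] [DecidableEq k] (N : Type*) [Fintype N] :
    {p // p ∈ pairs k} ⊕ N → ℝ :=
  Sum.elim (fun _ => (1 - ((Fintype.card k : ℝ) ^ 4)⁻¹) / (pairs k).card)
    (fun _ => ((Fintype.card k : ℝ) ^ 4)⁻¹ / Fintype.card N)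

/-- the steps -/
noncomputable def stepM {N : Type*} (s : N → SL3 k[X]) : {p // p ∈ pairs k} ⊕ N → SL3 k[X] :=
  Sum.elim (fun p => mainEl X p.1.1 p.1.2 (mem_filter.mp p.2).2) s

lemma inv_q4_le_one : ((Fintype.card k : ℝ) ^ 4)⁻¹ ≤ 1 :=
  inv_le_one_of_one_le₀ (one_le_pow₀ one_le_card)

lemma card_pairs_pos : (0 : ℝ) < (pairs k).card := by
  have h1 := card_pairs_ge (k := k)
  have h2 : 0 < Fintype.card k ^ 5 := pow_pos Fintype.card_pos _
  exact_mod_cast h2.trans_le h1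

lemma stepC_nonneg {N : Type*} [Fintype N] (i : {p // p ∈ pairs k} ⊕ N) : 0 ≤ stepC k N i := by
  have h1 := inv_q4_le_one (k := k)
  cases i with
  | inl p => exact div_nonneg (by linarith) card_pairs_pos.le
  | inr n => exact div_nonneg (by positivity) (by positivity)

lemma stepC_sum {N : Type*} [Fintype N] [Nonempty N] : ∑ i, stepC k N i = 1 := by
  rw [Fintype.sum_sum_type]
  simp only [stepC, Sum.elim_inl, Sum.elim_inr, Finset.sum_const, Finset.card_univ,
    nsmul_eq_mul, Fintype.card_coe]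
  have h1 : ((pairs k).card : ℝ) ≠ 0 := card_pairs_pos.ne'
  have h2 : (Fintype.card N : ℝ) ≠ 0 := by
    exact_mod_cast Fintype.card_ne_zero
  field_simp
  ring

lemma step_bound {N : Type*} [Fintype N] [Nonempty N] (A B W : ℝ)
    (hA : A ≤ 17 * (Fintype.card k : ℝ) ^ 3 * W)
    (hB : B ≤ Fintype.card N * ((Fintype.card k : ℝ) ^ 2 * W)) (hW : 0 < W) :
    (1 - ((Fintype.card k : ℝ) ^ 4)⁻¹) / (pairs k).card * A +
      ((Fintype.card k : ℝ) ^ 4)⁻¹ / Fintype.card N * B ≤ 18 / (Fintype.card k : ℝ) ^ 2 * W := by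
  have hq : (0 : ℝ) < Fintype.card k := card_pos'
  have hN : (0 : ℝ) < Fintype.card N := by exact_mod_cast Fintype.card_pos
  have h1 := inv_q4_le_one (k := k)
  have h0 : 0 ≤ ((Fintype.card k : ℝ) ^ 4)⁻¹ := by positivity
  have hc : (Fintype.card k : ℝ) ^ 5 ≤ (pairs k).card := by
    exact_mod_cast card_pairs_ge (k := k)
  have hm : (1 - ((Fintype.card k : ℝ) ^ 4)⁻¹) / (pairs k).card ≤
      ((Fintype.card k : ℝ) ^ 5)⁻¹ := by
    rw [div_le_iff₀ card_pairs_pos]
    calc 1 - ((Fintype.card k : ℝ) ^ 4)⁻¹ ≤ 1 := by linarith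
      _ = ((Fintype.card k : ℝ) ^ 5)⁻¹ * (Fintype.card k : ℝ) ^ 5 := by
          rw [inv_mul_cancel₀ (pow_pos hq _).ne']
      _ ≤ _ := mul_le_mul_of_nonneg_left hc (by positivity)
  have hm0 : 0 ≤ (1 - ((Fintype.card k : ℝ) ^ 4)⁻¹) / (pairs k).card :=
    div_nonneg (by linarith) card_pairs_pos.le
  calc _ ≤ (1 - ((Fintype.card k : ℝ) ^ 4)⁻¹) / (pairs k).card *
          (17 * (Fintype.card k : ℝ) ^ 3 * W) +
        ((Fintype.card k : ℝ) ^ 4)⁻¹ / Fintype.card N *
          (Fintype.card N * ((Fintype.card k : ℝ) ^ 2 * W)) := by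
        gcongr
    _ ≤ ((Fintype.card k : ℝ) ^ 5)⁻¹ * (17 * (Fintype.card k : ℝ) ^ 3 * W) +
        ((Fintype.card k : ℝ) ^ 4)⁻¹ / Fintype.card N *
          (Fintype.card N * ((Fintype.card k : ℝ) ^ 2 * W)) := by
        gcongr
    _ = _ := by
        field_simp
        ring

/-- the law of the product of `n` steps -/
noncomputable def mu {N : Type*} [Fintype N] (s : N → SL3 k[X]) : ℕ → SL3 k[X] → ℝ
  | 0 => fun γ => if γ = 1 then 1 else 0
  | n + 1 => conv (stepC k N) (stepM s) (mu s n)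

lemma mu_finite {N : Type*} [Fintype N] (s : N → SL3 k[X]) (n : ℕ) :
    (mu s n).support.Finite := by
  induction n with
  | zero =>
    refine (Set.finite_singleton (1 : SL3 k[X])).subset fun γ hγ => ?_
    rw [Function.mem_support] at hγ
    by_contra hcon
    exact hγ (if_neg hcon)
  | succ n ih => exact conv_support_finite _ _ ih

lemma mu_nonneg {N : Type*} [Fintype N] (s : N → SL3 k[X]) (n : ℕ) (γ : SL3 k[X]) :
    0 ≤ mu s n γ := by
  induction n generalizing γ with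
  | zero => simp only [mu]; positivity
  | succ n ih => exact conv_nonneg stepC_nonneg _ ih _

theorem mu_sq {N : Type*} [Fintype N] [Nonempty N] (s : N → SL3 k[X]) (hs : ∀ i, DegOne (s i))
    (n : ℕ) : ∑' γ, mu s n γ ^ 2 ≤ (18 / (Fintype.card k : ℝ) ^ 2) ^ (2 * n) := by
  have hN : (0 : ℝ) < Fintype.card N := by exact_mod_cast Fintype.card_pos
  induction n with
  | zero =>
    simp only [mu, ite_pow, one_pow, ne_eq, OfNat.ofNat_ne_zero, not_false_eq_true, zero_pow,
      mul_zero, pow_zero]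
    rw [tsum_ite_eq]
  | succ n ih =>
    calc ∑' γ, mu s (n + 1) γ ^ 2 ≤ (18 / (Fintype.card k : ℝ) ^ 2) ^ 2 *
          ∑' γ, mu s n γ ^ 2 := by
          refine schur (stepC k N) stepC_nonneg (stepM s) wgt wgt_pos _ ?_ ?_ _ (mu_finite s n)
          · intro γ
            rw [Fintype.sum_sum_type]
            simp only [stepC, stepM, Sum.elim_inl, Sum.elim_inr, ← Finset.mul_sum]
            refine step_bound _ _ _ (sum_wgt_main γ) ?_ (wgt_pos γ)
            calc _ ≤ ∑ _i : N, (Fintype.card k : ℝ) ^ 2 * wgt γ :=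
                  Finset.sum_le_sum fun i _ => wgt_noise (hs i) γ
              _ = _ := by simp
          · intro γ
            rw [Fintype.sum_sum_type]
            simp only [stepC, stepM, Sum.elim_inl, Sum.elim_inr, ← Finset.mul_sum]
            refine step_bound _ _ _ (sum_wgt_main_inv γ) ?_ (wgt_pos γ)
            calc _ ≤ ∑ _i : N, (Fintype.card k : ℝ) ^ 2 * wgt γ :=
                  Finset.sum_le_sum fun i _ => wgt_noise (hs i).inv γ
              _ = _ := by simp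
      _ ≤ (18 / (Fintype.card k : ℝ) ^ 2) ^ 2 * (18 / (Fintype.card k : ℝ) ^ 2) ^ (2 * n) :=
          mul_le_mul_of_nonneg_left ih (by positivity)
      _ = _ := by rw [← pow_add]; congr 1; ring

end Pool.Agent.Lib_helper64.Cut
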