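import Mathlib
import Pool.Agent.Lib_helper64.Cut.Nu
import Pool.Agent.Lib_helper64.Cut.State

/-! Degrees of words and dimensions. -/

set_option autoImplicit false
set_option linter.unusedSectionVars false

namespace Pool.Agent.Lib_helper64.Cut

open Finset Matrix Polynomial

section mdeg

variable {k : Type*} [Field k]

/-- the `j`-th column -/
def colj (γ : SL3 k[X]) (j : Fin 3) : Fin 3 → k[X] := fun i => γ.1 i j

/-- the degree of a matrix -/
noncomputable def mdeg (γ : SL3 k[X]) : ℕ := Finset.univ.sup fun j => dg (colj γ j)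

lemma dg_colj_le (γ : SL3 k[X]) (j : Fin 3) : dg (colj γ j) ≤ mdeg γ :=
  Finset.le_sup (f := fun j => dg (colj γ j)) (Finset.mem_univ j)

lemma natDegree_le_mdeg (γ : SL3 k[X]) (i j : Fin 3) : (γ.1 i j).natDegree ≤ mdeg γ :=
  (natDegree_le_dg (colj γ j) i).trans (dg_colj_le γ j)

lemma mdeg_le {γ : SL3 k[X]} {D : ℕ} (h : ∀ i j, (γ.1 i j).natDegree ≤ D) : mdeg γ ≤ D :=
  Finset.sup_le fun j _ => dg_le fun i => h i j

lemma mdeg_one : mdeg (1 : SL3 k[X]) = 0 := by
  apply Nat.le_zero.mp
  apply mdeg_le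
  intro i j
  rw [Matrix.SpecialLinearGroup.coe_one, Matrix.one_apply]
  split_ifs <;> simp

lemma mdeg_mul_le (γ m : SL3 k[X]) (hm : ∀ i j, (m.1 i j).natDegree ≤ 1) :
    mdeg (γ * m) ≤ mdeg γ + 1 := by
  apply mdeg_le
  intro i j
  change ((γ.1 * m.1) i j).natDegree ≤ _
  rw [Matrix.mul_apply]
  refine natDegree_sum_le_of_forall_le _ _ fun l _ => ?_
  refine natDegree_mul_le.trans ?_
  have := natDegree_le_mdeg γ i l
  have := hm l j
  omega

lemma exists_col (γ : SL3 k[X]) : ∃ j, dg (colj γ j) = mdeg γ := by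
  obtain ⟨j, _, hj⟩ := Finset.exists_mem_eq_sup (Finset.univ : Finset (Fin 3))
      Finset.univ_nonempty (fun j => dg (colj γ j))
  exact ⟨j, hj.symm⟩

lemma colj_ne_zero (γ : SL3 k[X]) (j : Fin 3) : colj γ j ≠ 0 := by
  intro h
  have h1 : γ.1.det = 0 := det_eq_zero_of_column_eq_zero j fun i => congrFun h i
  rw [γ.2] at h1
  exact one_ne_zero h1

variable {ι : Type*} {m : ι → SL3 k[X]}

lemma mdeg_take_succ (hm : ∀ a i j, ((m a).1 i j).natDegree ≤ 1) (w : List ι) (s : ℕ) :
    mdeg ((w.take (s + 1)).map m).prod ≤ mdeg ((w.take s).map m).prod + 1 := by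
  by_cases hs : s < w.length
  · rw [List.take_succ_eq_append_getElem hs, List.map_append, List.prod_append]
    simp only [List.map_cons, List.map_nil, List.prod_cons, List.prod_nil, mul_one]
    exact mdeg_mul_le _ _ (hm _)
  · push Not at hs
    rw [List.take_of_length_le hs, List.take_of_length_le (by omega)]
    omega

lemma mdeg_word_le (hm : ∀ a i j, ((m a).1 i j).natDegree ≤ 1) (w : List ι) :
    mdeg (w.map m).prod ≤ w.length := by
  have h : ∀ s, mdeg ((w.take s).map m).prod ≤ s := by
    intro s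
    induction s with
    | zero => simp [mdeg_one]
    | succ s ih => exact (mdeg_take_succ hm w s).trans (by omega)
  have := h w.length
  rwa [List.take_length] at this

lemma exists_prefix (hm : ∀ a i j, ((m a).1 i j).natDegree ≤ 1) (w : List ι) {d : ℕ}
    (hd : d < mdeg (w.map m).prod) :
    ∃ s < w.length, mdeg ((w.take s).map m).prod = d := by
  classical
  set f : ℕ → ℕ := fun s => mdeg ((w.take s).map m).prod with hf
  have hex : ∃ s, d < f s := ⟨w.length, by simp only [hf]; rw [List.take_length]; exact hd⟩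
  have h0 : Nat.find hex ≠ 0 := by
    intro h
    have := Nat.find_spec hex
    rw [h] at this
    simp [hf, mdeg_one] at this
  obtain ⟨s, hs⟩ := Nat.exists_eq_succ_of_ne_zero h0
  have h1 : d < f (s + 1) := by
    have := Nat.find_spec hex
    rwa [hs] at this
  have h2 : ¬ d < f s := Nat.find_min hex (by omega)
  have h3 : f (s + 1) ≤ f s + 1 := mdeg_take_succ hm w s
  refine ⟨s, ?_, by show f s = d; omega⟩
  by_contra hcon
  push Not at hcon
  apply h2
  have : f s = mdeg (w.map m).prod := by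
    simp only [hf]
    rw [List.take_of_length_le hcon]
  rw [this]
  exact hd

end mdeg

section count

variable {k : Type*} [Field k] [Fintype k] [DecidableEq k]

lemma card_mdeg_le (D : ℕ) (T : Finset (SL3 k[X])) (hT : ∀ γ ∈ T, mdeg γ ≤ D) :
    T.card ≤ Fintype.card k ^ (9 * (D + 1)) := by
  classical
  have h1 : T.card ≤ Fintype.card (Fin 3 → Fin 3 → Fin (D + 1) → k) := by
    rw [← Finset.card_univ]
    refine Finset.card_le_card_of_injOn (fun γ => fun i j l => (γ.1 i j).coeff l)
      (fun _ _ => by simp) ?_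
    intro γ hγ γ' hγ' h
    apply Subtype.ext
    apply Matrix.ext
    intro i j
    ext l
    by_cases hl : l < D + 1
    · exact congrFun (congrFun (congrFun h i) j) ⟨l, hl⟩
    · have h2 := (natDegree_le_mdeg γ i j).trans (hT γ hγ)
      have h3 := (natDegree_le_mdeg γ' i j).trans (hT γ' hγ')
      rw [coeff_eq_zero_of_natDegree_lt (by omega), coeff_eq_zero_of_natDegree_lt (by omega)]
  refine h1.trans (le_of_eq ?_)
  simp only [Fintype.card_fun, Fintype.card_fin]
  rw [← pow_mul, ← pow_mul]
  congr 1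
  ring

end count

/-! ### reduction to `K` -/

section red

variable {k K : Type*} [Field k] [Field K] [Algebra k K]

/-- `SL_3(k[X]) → SL_3(K)`, `X ↦ x` -/
noncomputable def mapS (x : K) : SL3 k[X] →* SL3 K :=
  Matrix.SpecialLinearGroup.map (aeval x : k[X] →ₐ[k] K).toRingHom

lemma mapS_apply (x : K) (γ : SL3 k[X]) (i j : Fin 3) :
    (mapS x γ).1 i j = aeval x (γ.1 i j) := rfl

/-- `x` satisfies no nontrivial equation of degree `< n` -/
def Gen (k : Type*) {K : Type*} [Field k] [Field K] [Algebra k K] (x : K) (n : ℕ) : Prop :=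
  ∀ p : k[X], p.natDegree < n → aeval x p = 0 → p = 0

lemma mapS_inj {x : K} {n : ℕ} (hx : Gen k x n) {γ γ' : SL3 k[X]} (h : mdeg γ < n)
    (h' : mdeg γ' < n) (he : mapS x γ = mapS x γ') : γ = γ' := by
  apply Subtype.ext
  apply Matrix.ext
  intro i j
  have h1 : aeval x (γ.1 i j - γ'.1 i j) = 0 := by
    rw [map_sub, ← mapS_apply, ← mapS_apply, he, sub_self]
  have h2 : (γ.1 i j - γ'.1 i j).natDegree < n := by
    refine (natDegree_sub_le _ _).trans_lt (max_lt ?_ ?_)
    · exact (natDegree_le_mdeg γ i j).trans_lt h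
    · exact (natDegree_le_mdeg γ' i j).trans_lt h'
  exact sub_eq_zero.mp (hx _ h2 h1)

/-- the starting subspace: `x^{rh} e_i`, `r < κ` -/
def V00 (k : Type*) {K : Type*} [Field k] [Field K] [Algebra k K] (x : K) (κ h : ℕ) :
    Submodule k (Fin 3 → K) :=
  Submodule.span k (Set.range fun t : Fin κ × Fin 3 => (Pi.single t.2 (x ^ (t.1.1 * h)) : Fin 3 → K))

variable {ι : Type*}

lemma smulS_Xw_le (V0 : Submodule k (Fin 3 → K)) (b : ι → SL3 K) (w : List ι) (s : ℕ)
    (hs : s < w.length) : smulS (Xw b (w.take s)) V0 ≤ Fw V0 b w := by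
  induction w generalizing s with
  | nil => simp at hs
  | cons i w ih =>
    cases s with
    | zero =>
      intro v hv
      simp only [List.take_zero, Xw, List.map_nil, List.prod_nil] at hv
      rw [mem_smulS, inv_one, one_smul] at hv
      exact Submodule.mem_sup_left hv
    | succ s =>
      intro v hv
      have hs' : s < w.length := by simpa using hs
      have h1 := ih s hs'
      simp only [List.take_succ_cons, Xw, List.map_cons, List.prod_cons] at hv
      apply Submodule.mem_sup_right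
      rw [mem_smulS] at hv ⊢
      apply h1
      rw [mem_smulS]
      rw [_root_.mul_inv_rev, mul_smul] at hv
      exact hv

/-- evaluation of polynomial vectors -/
noncomputable def evv (x : K) : (Fin 3 → k[X]) →ₗ[k] (Fin 3 → K) where
  toFun y := fun i => aeval x (y i)
  map_add' y z := by ext i; simp
  map_smul' c y := by ext i; simp

lemma evv_inj {x : K} {n : ℕ} (hx : Gen k x n) {y : Fin 3 → k[X]} (h : dg y < n)
    (he : evv x y = 0) : y = 0 := by
  ext1 i
  exact hx _ ((natDegree_le_dg y i).trans_lt h) (congrFun he i)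

variable {m : ι → SL3 k[X]}

lemma Xw_mapS (x : K) (w : List ι) :
    Xw (fun i => mapS x (m i)) w = mapS x (w.map m).prod := by
  rw [Xw, map_list_prod, List.map_map]; rfl

lemma col_mem (x : K) (κ h : ℕ) (w : List ι) {s : ℕ} (hs : s < w.length) (r : Fin κ) (j : Fin 3) :
    evv x ((X : k[X]) ^ (r.1 * h) • colj ((w.take s).map m).prod j) ∈
      Fw (V00 k x κ h) (fun i => mapS x (m i)) w := by
  apply smulS_Xw_le _ _ w s hs
  rw [Xw_mapS]
  refine ⟨Pi.single j (x ^ (r.1 * h)), Submodule.subset_span ⟨(r, j), rfl⟩, ?_⟩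
  change (mapS x ((w.take s).map m).prod).1 *ᵥ Pi.single j (x ^ (r.1 * h)) = _
  ext i
  rw [mulVec_single]
  simp only [evv, LinearMap.coe_mk, AddHom.coe_mk, Pi.smul_apply, smul_eq_mul, map_mul, map_pow,
    aeval_X, colj, MulOpposite.smul_eq_mul_unop, MulOpposite.unop_op]
  rw [mul_comm]
  rfl

lemma dg_X_pow_smul (n : ℕ) {y : Fin 3 → k[X]} (hy : y ≠ 0) : dg ((X : k[X]) ^ n • y) = n + dg y := by
  have h1 : ∀ i (N : ℕ), (((X : k[X]) ^ n • y) i).coeff (N + n) = (y i).coeff N := by
    intro i N
    rw [Pi.smul_apply, smul_eq_mul, coeff_X_pow_mul]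
  apply le_antisymm
  · apply dg_le
    intro i
    rw [Pi.smul_apply, smul_eq_mul]
    refine natDegree_mul_le.trans ?_
    rw [natDegree_X_pow]
    have := natDegree_le_dg y i
    omega
  · apply le_dg
    intro hcon
    apply cf_dg_ne_zero hy
    ext i
    have := congrFun hcon i
    simp only [cf, Pi.zero_apply] at this ⊢
    rw [← h1 i, add_comm]
    exact this

lemma cf_smul (c : k) (y : Fin 3 → k[X]) (n : ℕ) : cf (c • y) n = c • cf y n := by
  ext i; simp [cf]

lemma cf_sum {α : Type*} (s : Finset α) (f : α → Fin 3 → k[X]) (n : ℕ) :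
    cf (∑ a ∈ s, f a) n = ∑ a ∈ s, cf (f a) n := by
  ext i
  simp [cf, Finset.sum_apply, finsetSum_coeff]

/-- distinct degrees imply independence -/
lemma indep {α : Type*} [Fintype α] (Y : α → Fin 3 → k[X]) (hY : ∀ a, Y a ≠ 0)
    (hinj : Function.Injective fun a => dg (Y a)) (c : α → k) (h : ∑ a, c a • Y a = 0) :
    c = 0 := by
  classical
  by_contra hc
  have hne : (univ.filter fun a => c a ≠ 0).Nonempty := by
    by_contra hcon
    rw [Finset.not_nonempty_iff_eq_empty, Finset.filter_eq_empty_iff] at hcon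
    apply hc
    ext a
    simpa using hcon (mem_univ a)
  obtain ⟨a, ha, hmax⟩ := Finset.exists_max_image _ (fun a => dg (Y a)) hne
  have hca : c a ≠ 0 := (mem_filter.mp ha).2
  have h1 : cf (∑ b, c b • Y b) (dg (Y a)) = c a • cf (Y a) (dg (Y a)) := by
    rw [cf_sum]
    rw [Finset.sum_eq_single a]
    · rw [cf_smul]
    · intro b _ hb
      rw [cf_smul]
      by_cases hcb : c b = 0
      · rw [hcb, zero_smul]
      · have h2 := hmax b (mem_filter.mpr ⟨mem_univ _, hcb⟩)
        have h3 : dg (Y b) ≠ dg (Y a) := fun h => hb (hinj h)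
        rw [cf_eq_zero (by omega), smul_zero]
    · simp
  rw [h] at h1
  have h2 : cf (0 : Fin 3 → k[X]) (dg (Y a)) = 0 := by ext i; simp [cf]
  rw [h2] at h1
  have h3 := cf_dg_ne_zero (hY a)
  rcases smul_eq_zero.mp h1.symm with h4 | h4
  · exact hca h4
  · exact h3 h4

lemma dg_sum_lt {α : Type*} [Fintype α] (Y : α → Fin 3 → k[X]) {n : ℕ} (hn : 0 < n)
    (hY : ∀ a, dg (Y a) < n) (c : α → k) : dg (∑ a, c a • Y a) < n := by
  have : dg (∑ a, c a • Y a) ≤ n - 1 := by
    apply dg_le
    intro i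
    rw [Finset.sum_apply]
    refine natDegree_sum_le_of_forall_le _ _ fun a _ => ?_
    rw [Pi.smul_apply]
    refine (natDegree_smul_le _ _).trans ?_
    have h1 := natDegree_le_dg (Y a) i
    have h2 := hY a
    omega
  omega

variable [Fintype k] [Fintype K]

/-- the dimension bound -/
lemma card_Fw_ge {x : K} {n : ℕ} (hx : Gen k x n) (hm : ∀ a i j, ((m a).1 i j).natDegree ≤ 1)
    (κ h D : ℕ) (hD : D < h) (hn : κ * h ≤ n) (hκ : 0 < κ) (w : List ι)
    (hw : D < mdeg (w.map m).prod) :
    Fintype.card k ^ (κ * (D + 1)) ≤ Nat.card (Fw (V00 k x κ h) (fun i => mapS x (m i)) w) := by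
  classical
  have h1 : ∀ d : Fin (D + 1), ∃ s < w.length, mdeg ((w.take s).map m).prod = d.1 := fun d =>
    exists_prefix hm w (by have := d.2; omega)
  choose s hs hs2 using h1
  have h2 : ∀ d : Fin (D + 1), ∃ j, dg (colj ((w.take (s d)).map m).prod j) = d.1 := by
    intro d
    obtain ⟨j, hj⟩ := exists_col ((w.take (s d)).map m).prod
    exact ⟨j, by rw [hj, hs2]⟩
  choose j hj using h2
  set Y : Fin κ × Fin (D + 1) → Fin 3 → k[X] := fun t =>
    (X : k[X]) ^ (t.1.1 * h) • colj ((w.take (s t.2)).map m).prod (j t.2) with hYdef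
  have hdg : ∀ t, dg (Y t) = t.1.1 * h + t.2.1 := by
    intro t
    simp only [hYdef]
    rw [dg_X_pow_smul _ (colj_ne_zero _ _), hj]
  have hY : ∀ t, Y t ≠ 0 := by
    intro t h0
    simp only [hYdef] at h0
    apply colj_ne_zero ((w.take (s t.2)).map m).prod (j t.2)
    ext1 i
    have := congrFun h0 i
    rw [Pi.smul_apply, smul_eq_mul] at this
    exact (mul_eq_zero.mp this).resolve_left (pow_ne_zero _ X_ne_zero)
  have hinj : Function.Injective fun t => dg (Y t) := by
    intro t t' htt
    simp only [hdg] at htt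
    have e1 : t.1.1 = t'.1.1 := by
      have a1 := t.2.2
      have a2 := t'.2.2
      by_contra hne
      rcases Nat.lt_or_gt_of_ne hne with hl | hl
      · have : (t.1.1 + 1) * h ≤ t'.1.1 * h := Nat.mul_le_mul_right h hl
        have e : (t.1.1 + 1) * h = t.1.1 * h + h := by ring
        omega
      · have : (t'.1.1 + 1) * h ≤ t.1.1 * h := Nat.mul_le_mul_right h hl
        have e : (t'.1.1 + 1) * h = t'.1.1 * h + h := by ring
        omega
    have e2 : t.2.1 = t'.2.1 := by rw [e1] at htt; omega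
    exact Prod.ext (Fin.ext e1) (Fin.ext e2)
  have hlt : ∀ t, dg (Y t) < n := by
    intro t
    rw [hdg]
    have a1 := t.2.2
    have a2 : (t.1.1 + 1) * h ≤ κ * h := Nat.mul_le_mul_right h t.1.2
    have e : (t.1.1 + 1) * h = t.1.1 * h + h := by ring
    omega
  have hn0 : 0 < n := lt_of_le_of_lt (Nat.zero_le _) (hlt (⟨0, hκ⟩, 0))
  have hcard : Fintype.card (Fin κ × Fin (D + 1) → k) ≤
      Nat.card (Fw (V00 k x κ h) (fun i => mapS x (m i)) w) := by
    rw [← Nat.card_eq_fintype_card]
    refine Nat.card_le_card_of_injective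
      (fun c => (⟨evv x (∑ t, c t • Y t), ?_⟩ :
        Fw (V00 k x κ h) (fun i => mapS x (m i)) w)) ?_
    · rw [map_sum]
      refine Submodule.sum_mem _ fun t _ => ?_
      rw [map_smul]
      exact Submodule.smul_mem _ _ (col_mem x κ h w (hs t.2) t.1 (j t.2))
    · intro c c' hcc
      have h3 : evv x (∑ t, c t • Y t) = evv x (∑ t, c' t • Y t) := congrArg Subtype.val hcc
      have h4 : evv x (∑ t, (c - c') t • Y t) = 0 := by
        have : ∑ t, (c - c') t • Y t = ∑ t, c t • Y t - ∑ t, c' t • Y t := by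
          rw [← Finset.sum_sub_distrib]
          exact Finset.sum_congr rfl fun t _ => by rw [Pi.sub_apply, sub_smul]
        rw [this, map_sub, h3, sub_self]
      have h5 := evv_inj hx (dg_sum_lt Y hn0 hlt (c - c')) h4
      have h6 := indep Y hY hinj (c - c') h5
      exact sub_eq_zero.mp h6
  refine le_trans (le_of_eq ?_) hcard
  rw [Fintype.card_fun, Fintype.card_prod, Fintype.card_fin, Fintype.card_fin]

end red

end Pool.Agent.Lib_helper64.Cut
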