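import Mathlib
import Pool.Agent.Lib_helper64.Cut.Deg

/-! Estimates for random words. -/

set_option autoImplicit false
set_option linter.unusedSectionVars false

namespace Pool.Agent.Lib_helper64.Cut

open Finset Matrix Polynomial

variable {k : Type*} [Field k] [Fintype k] [DecidableEq k] {N : Type*} [Fintype N] [Nonempty N]

lemma law_eq_mu (s : N → SL3 k[X]) (n : ℕ) : law (stepC k N) (stepM s) n = mu s n := by
  induction n with
  | zero =>
    ext γ
    simp only [law, mu]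
    congr
  | succ n ih =>
    simp only [law, mu, ih]

lemma law_sq (s : N → SL3 k[X]) (hs : ∀ i, DegOne (s i)) (n : ℕ) :
    ∑' γ, law (stepC k N) (stepM s) n γ ^ 2 ≤ (18 / (Fintype.card k : ℝ) ^ 2) ^ (2 * n) := by
  rw [law_eq_mu]
  exact mu_sq s hs n

lemma natDegree_mainM (u φ : Fin 3 → k) (i j : Fin 3) :
    ((mainM (X : k[X]) u φ) i j).natDegree ≤ 1 := by
  rw [mainM, Matrix.add_apply, vecMulVec_apply]
  refine (natDegree_add_le _ _).trans (max_le ?_ ?_)
  · rw [Matrix.one_apply]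
    split_ifs <;> simp
  · simp only [Pi.smul_apply, smul_eq_mul, lift]
    refine natDegree_mul_le.trans ?_
    have h1 : (algebraMap k k[X] (φ j)).natDegree = 0 := natDegree_C _
    rw [h1, add_zero]
    refine natDegree_mul_le.trans ?_
    have h2 : (algebraMap k k[X] (u i)).natDegree = 0 := natDegree_C _
    rw [h2, natDegree_X]

lemma stepM_deg (s : N → SL3 k[X]) (hs : ∀ i, DegOne (s i)) (a : {p // p ∈ pairs k} ⊕ N)
    (i j : Fin 3) : ((stepM s a).1 i j).natDegree ≤ 1 := by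
  cases a with
  | inl p => exact natDegree_mainM _ _ _ _
  | inr n => exact (hs n).1 i j

/-- the numerical estimate -/
lemma pow_est {q : ℝ} (hq : (324 : ℝ) ^ 9 ≤ q) {m ℓ : ℕ} (hℓ : 9 * m ≤ ℓ) :
    (18 / q ^ 2) ^ (2 * ℓ) ≤ (q ^ (35 * m))⁻¹ := by
  have hq0 : 0 < q := lt_of_lt_of_le (by norm_num) hq
  have hq1 : 324 ≤ q := le_trans (by norm_num) hq
  have h1 : (18 / q ^ 2) ^ (2 * ℓ) = (324 / q ^ 4) ^ ℓ := by
    rw [pow_mul]; congr 1; ring
  have h2 : 324 / q ^ 4 ≤ 1 := by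
    rw [div_le_one (by positivity)]
    have : q ^ 1 ≤ q ^ 4 := pow_le_pow_right₀ (by linarith) (by norm_num)
    linarith
  rw [h1]
  calc (324 / q ^ 4) ^ ℓ ≤ (324 / q ^ 4) ^ (9 * m) :=
        pow_le_pow_of_le_one (by positivity) h2 hℓ
    _ = (324 ^ 9) ^ m / q ^ (36 * m) := by
        rw [div_pow, ← pow_mul, ← pow_mul]; congr 2; ring
    _ ≤ q ^ m / q ^ (36 * m) := by
        refine div_le_div_of_nonneg_right ?_ (by positivity)
        exact pow_le_pow_left₀ (by norm_num) hq m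
    _ = (q ^ (35 * m))⁻¹ := by
        rw [show 36 * m = m + 35 * m by ring, pow_add, div_mul_eq_div_div, div_self (by positivity),
          one_div]

variable {K : Type*} [Field K] [Fintype K] [DecidableEq K] [Algebra k K]

/-- probability of small degree -/
lemma prob_small (s : N → SL3 k[X]) (hs : ∀ i, DegOne (s i)) (D ℓ : ℕ) :
    Ew (stepC k N) ℓ (fun w => if mdeg (w.map (stepM s)).prod ≤ D then 1 else 0) ≤
      √((Fintype.card k : ℝ) ^ (9 * (D + 1)) * (18 / (Fintype.card k : ℝ) ^ 2) ^ (2 * ℓ)) := by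
  classical
  have h1 := Ew_mem_le (c := stepC k N) (stepM s) ℓ (fun γ => mdeg γ ≤ D)
    (Fintype.card k ^ (9 * (D + 1))) (fun T hT => card_mdeg_le D T hT)
  refine le_trans (le_of_eq ?_) (h1.trans ?_)
  · refine Ew_congr fun w _ => ?_
    by_cases h : mdeg (w.map (stepM s)).prod ≤ D
    · rw [if_pos h, if_pos h]
    · rw [if_neg h, if_neg h]
  · apply Real.sqrt_le_sqrt
    rw [Nat.cast_pow]
    exact mul_le_mul_of_nonneg_left (law_sq s hs ℓ) (by positivity)

lemma Ew_card_inv {x : K} {n : ℕ} (hx : Gen k x n) (s : N → SL3 k[X])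
    (hs : ∀ i, DegOne (s i)) (κ h D : ℕ) (hD : D < h) (hn : κ * h ≤ n) (hκ : 0 < κ) (ℓ : ℕ) :
    Ew (stepC k N) ℓ (fun w =>
      (Nat.card (Fw (V00 k x κ h) (fun i => mapS x (stepM s i)) w) : ℝ)⁻¹) ≤
      ((Fintype.card k : ℝ) ^ (κ * (D + 1)))⁻¹ +
      √((Fintype.card k : ℝ) ^ (9 * (D + 1)) * (18 / (Fintype.card k : ℝ) ^ 2) ^ (2 * ℓ)) := by
  classical
  have hq : (0 : ℝ) < Fintype.card k := card_pos'
  calc _ ≤ Ew (stepC k N) ℓ (fun w => ((Fintype.card k : ℝ) ^ (κ * (D + 1)))⁻¹ +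
        if mdeg (w.map (stepM s)).prod ≤ D then 1 else 0) := by
        refine Ew_mono stepC_nonneg fun w _ => ?_
        by_cases hw : mdeg (w.map (stepM s)).prod ≤ D
        · rw [if_pos hw]
          have h1 : (Nat.card (Fw (V00 k x κ h) (fun i => mapS x (stepM s i)) w) : ℝ)⁻¹ ≤ 1 := by
            apply inv_le_one_of_one_le₀
            have : 0 < Nat.card (Fw (V00 k x κ h) (fun i => mapS x (stepM s i)) w) :=
              Nat.card_pos
            exact_mod_cast this
          have : (0 : ℝ) ≤ ((Fintype.card k : ℝ) ^ (κ * (D + 1)))⁻¹ := by positivity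
          linarith
        · rw [if_neg hw, add_zero]
          push Not at hw
          apply inv_anti₀ (by positivity)
          have := card_Fw_ge hx (stepM_deg s hs) κ h D hD hn hκ w hw
          exact_mod_cast this
    _ = ((Fintype.card k : ℝ) ^ (κ * (D + 1)))⁻¹ +
        Ew (stepC k N) ℓ (fun w => if mdeg (w.map (stepM s)).prod ≤ D then 1 else 0) := by
        rw [Ew_add, Ew_const stepC_sum]
    _ ≤ _ := add_le_add le_rfl (prob_small s hs D ℓ)

/-- the numerical form -/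
lemma Ew_card_inv' {x : K} {m : ℕ} (hx : Gen k x (10000 * m)) (hm : 0 < m) (s : N → SL3 k[X])
    (hs : ∀ i, DegOne (s i)) (hq : (324 : ℝ) ^ 9 ≤ Fintype.card k) {ℓ : ℕ} (hℓ : 9 * m ≤ ℓ) :
    Ew (stepC k N) ℓ (fun w =>
      (Nat.card (Fw (V00 k x 16 (10 * m)) (fun i => mapS x (stepM s i)) w) : ℝ)⁻¹) ≤
      2 * (Fintype.card k : ℝ) ^ 5 / (Fintype.card k : ℝ) ^ (13 * m) := by
  have hq0 : (0 : ℝ) < Fintype.card k := card_pos'
  have hq1 : (1 : ℝ) ≤ Fintype.card k := one_le_card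
  refine (Ew_card_inv hx s hs 16 (10 * m) m (by omega) (by omega) (by norm_num) ℓ).trans ?_
  set q : ℝ := (Fintype.card k : ℝ) with hqdef
  have h1 : (q ^ (16 * (m + 1)))⁻¹ ≤ q ^ 5 / q ^ (13 * m) := by
    rw [inv_eq_one_div, div_le_div_iff₀ (by positivity) (by positivity), one_mul, ← pow_add]
    exact pow_le_pow_right₀ hq1 (by omega)
  have h2 : √(q ^ (9 * (m + 1)) * (18 / q ^ 2) ^ (2 * ℓ)) ≤ q ^ 5 / q ^ (13 * m) := by
    apply Real.sqrt_le_iff.mpr
    refine ⟨by positivity, ?_⟩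
    calc q ^ (9 * (m + 1)) * (18 / q ^ 2) ^ (2 * ℓ)
        ≤ q ^ (9 * (m + 1)) * (q ^ (35 * m))⁻¹ :=
          mul_le_mul_of_nonneg_left (pow_est hq hℓ) (by positivity)
      _ = q ^ (9 * (m + 1)) / q ^ (35 * m) := by rw [div_eq_mul_inv]
      _ ≤ (q ^ 5 / q ^ (13 * m)) ^ 2 := by
          rw [div_pow, ← pow_mul, ← pow_mul, div_le_div_iff₀ (by positivity) (by positivity),
            ← pow_add, ← pow_add]
          exact pow_le_pow_right₀ hq1 (by omega)
  calc _ ≤ q ^ 5 / q ^ (13 * m) + q ^ 5 / q ^ (13 * m) := add_le_add h1 h2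
    _ = _ := by ring

/-! ### collisions -/

open Classical in
lemma Ew_coll_K {x : K} {n : ℕ} (hx : Gen k x n) (s : N → SL3 k[X])
    (hs : ∀ i, DegOne (s i)) {ℓ : ℕ} (hℓ : ℓ < n) :
    Ew (stepC k N) ℓ (fun w => Ew (stepC k N) ℓ (fun w' =>
      if Xw (fun i => mapS x (stepM s i)) w = Xw (fun i => mapS x (stepM s i)) w' then 1 else 0)) ≤
      (18 / (Fintype.card k : ℝ) ^ 2) ^ (2 * ℓ) := by
  refine le_trans (le_of_eq ?_) (law_sq s hs ℓ)
  rw [← Ew_coll]
  refine Ew_congr fun w hw => Ew_congr fun w' hw' => ?_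
  have h1 : (Xw (fun i => mapS x (stepM s i)) w = Xw (fun i => mapS x (stepM s i)) w') ↔
      ((w.map (stepM s)).prod = (w'.map (stepM s)).prod) := by
    rw [Xw_mapS, Xw_mapS]
    constructor
    · intro h
      have a1 := mdeg_word_le (stepM_deg s hs) w
      have a2 := mdeg_word_le (stepM_deg s hs) w'
      exact mapS_inj hx (by omega) (by omega) h
    · intro h; rw [h]
  by_cases h : Xw (fun i => mapS x (stepM s i)) w = Xw (fun i => mapS x (stepM s i)) w'
  · rw [if_pos h, if_pos (h1.mp h)]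
  · rw [if_neg h, if_neg (fun h' => h (h1.mpr h'))]

lemma card_center : Nat.card (Subgroup.center (SL3 K)) ≤ 3 := by
  have e := (Matrix.SpecialLinearGroup.center_equiv_rootsOfUnity (n := Fin 3) (R := K)).toEquiv
  have hmax : max (Fintype.card (Fin 3)) 1 = 3 := by simp
  rw [hmax] at e
  rw [Nat.card_congr e]
  exact card_rootsOfUnity K 3

/-- being central -/
def Zc (z : SL3 K) : Prop := z ∈ Subgroup.center (SL3 K)

open Classical in
lemma card_Zc : (univ.filter fun z : SL3 K => Zc z).card ≤ 3 := by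
  have h1 := card_center (K := K)
  have h2 : Nat.card (Subgroup.center (SL3 K)) = Nat.card {z : SL3 K // Zc z} := rfl
  rw [h2, Nat.card_eq_fintype_card, Fintype.card_subtype] at h1
  exact h1

open Classical in
lemma theta_gen {ι P : Type*} [Fintype ι] [Group P] [Fintype P] {c : ι → ℝ}
    (hc : ∀ i, 0 ≤ c i) (X : List ι → P)
    (Z : P → Prop) (M : ℕ) (hZ : (univ.filter fun z => Z z).card ≤ M) (n : ℕ) :
    Ew c n (fun w => Ew c n (fun w' => if Z (X w' * (X w)⁻¹) then 1 else 0)) ≤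
      M * Ew c n (fun w => Ew c n (fun w' => if X w = X w' then 1 else 0)) := by
  have h1 := Ew_coll_set (c := c) n X (univ.filter fun z => Z z)
  rw [Ew_comm] at h1
  calc _ = Ew c n (fun v => Ew c n (fun w =>
        if X w * (X v)⁻¹ ∈ univ.filter fun z => Z z then 1 else 0)) := by
        refine Ew_congr fun w _ => Ew_congr fun w' _ => ?_
        by_cases h : Z (X w' * (X w)⁻¹)
        · rw [if_pos h, if_pos (mem_filter.mpr ⟨mem_univ _, h⟩)]
        · rw [if_neg h, if_neg (fun h' => h (mem_filter.mp h').2)]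
    _ ≤ _ := h1
    _ ≤ _ := by
        refine mul_le_mul_of_nonneg_right (by exact_mod_cast hZ) ?_
        exact Ew_nonneg hc fun w _ => Ew_nonneg hc fun w' _ => by positivity

open Classical in
lemma theta_bound {x : K} {n : ℕ} (hx : Gen k x n) (s : N → SL3 k[X])
    (hs : ∀ i, DegOne (s i)) {ℓ : ℕ} (hℓ : ℓ < n) :
    Ew (stepC k N) ℓ (fun w => Ew (stepC k N) ℓ (fun w' =>
      if Zc (Xw (fun i => mapS x (stepM s i)) w' * (Xw (fun i => mapS x (stepM s i)) w)⁻¹)
        then 1 else 0)) ≤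
      3 * (18 / (Fintype.card k : ℝ) ^ 2) ^ (2 * ℓ) := by
  have h1 := theta_gen (c := stepC k N) stepC_nonneg (Xw fun i => mapS x (stepM s i))
    Zc 3 card_Zc ℓ
  refine h1.trans ?_
  rw [Nat.cast_ofNat]
  refine mul_le_mul_of_nonneg_left (le_trans (le_of_eq ?_) (Ew_coll_K hx s hs hℓ)) (by norm_num)
  refine Ew_congr fun w _ => Ew_congr fun w' _ => ?_
  by_cases h : Xw (fun i => mapS x (stepM s i)) w = Xw (fun i => mapS x (stepM s i)) w'
  · rw [if_pos h, if_pos h]
  · rw [if_neg h, if_neg h]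

end Pool.Agent.Lib_helper64.Cut
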