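import Mathlib
import Pool.Agent.Lib_helper64.Cut.Conv
import Pool.Agent.Lib_helper98.CO.Filling

/-! The overlap of a pattern law with the uniform law. -/

set_option autoImplicit false
set_option linter.unusedSectionVars false

namespace Pool.Agent.Lib_helper64.Cut

open Finset Matrix

lemma min_ge_quad {m u : ℝ} (hu : 0 < u) : m - m ^ 2 / (4 * u) ≤ min m u := by
  apply le_min
  · have : 0 ≤ m ^ 2 / (4 * u) := by positivity
    linarith
  · have h1 : m - m ^ 2 / (4 * u) = u - (m / 2 - u) ^ 2 / u := by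
      field_simp; ring
    rw [h1]
    have : 0 ≤ (m / 2 - u) ^ 2 / u := by positivity
    linarith

section EWmore

variable {ι : Type*} [Fintype ι] {c : ι → ℝ}

lemma EW_mul_right (L : List ℕ) (a : ℝ) (f : List (List ι) → ℝ) :
    EW c L (fun ws => f ws * a) = EW c L f * a := by
  simp only [mul_comm _ a, EW_mul_left]

lemma EW_sub (L : List ℕ) (f g : List (List ι) → ℝ) :
    EW c L (fun ws => f ws - g ws) = EW c L f - EW c L g := by
  have h1 : (fun ws => f ws - g ws) = fun ws => f ws + (-1) * g ws := by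
    ext ws; ring
  rw [h1, EW_add, EW_mul_left]; ring

lemma EW_nonneg (hc : ∀ i, 0 ≤ c i) {L : List ℕ} {f : List (List ι) → ℝ}
    (h : ∀ ws, 0 ≤ f ws) : 0 ≤ EW c L f := by
  have h1 := EW_mono hc (L := L) (f := fun _ => 0) h
  have h2 : EW c L (fun _ => (0 : ℝ)) = 0 := by
    have := EW_mul_left (c := c) L 0 (fun _ => (0 : ℝ))
    simpa using this
  rwa [h2] at h1

open Classical in
/-- collision probability of `Y` -/
noncomputable def CP {P : Type*} (c : ι → ℝ) (L : List ℕ) (Y : List (List ι) → P) : ℝ :=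
  EW c L (fun ws => EW c L (fun ws' => if Y ws = Y ws' then 1 else 0))

open Classical in
/-- the law of `Y` on the event `A` -/
noncomputable def QA {P : Type*} (c : ι → ℝ) (L : List ℕ) (Y : List (List ι) → P)
    (A : List (List ι) → Prop) (a : P) : ℝ :=
  EW c L (fun ws => if A ws ∧ Y ws = a then 1 else 0)

/-- sum of squares of a law is the collision probability -/
lemma sum_sq_le {P : Type*} [Fintype P] (hc : ∀ i, 0 ≤ c i) (L : List ℕ)
    (Y : List (List ι) → P) (A : List (List ι) → Prop) :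
    ∑ a, (QA c L Y A a) ^ 2 ≤ CP c L Y := by
  classical
  have h1 : ∀ a, (QA c L Y A a) ^ 2 ≤
      EW c L (fun ws => EW c L (fun ws' =>
        (if Y ws = a then 1 else 0) * (if Y ws' = a then 1 else 0))) := by
    intro a
    have h2 : QA c L Y A a ≤
        EW c L (fun ws => if Y ws = a then (1 : ℝ) else 0) := by
      refine EW_mono hc fun ws => ?_
      by_cases h3 : Y ws = a
      · rw [if_pos h3]
        split_ifs <;> norm_num
      · rw [if_neg (fun h => h3 h.2), if_neg h3]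
    have h3 : 0 ≤ QA c L Y A a :=
      EW_nonneg hc fun ws => by split_ifs <;> norm_num
    calc _ ≤ (EW c L (fun ws => if Y ws = a then (1 : ℝ) else 0)) ^ 2 :=
          pow_le_pow_left₀ h3 h2 2
      _ = _ := by
          simp only [EW_mul_left, EW_mul_right]
          ring
  refine (Finset.sum_le_sum fun a _ => h1 a).trans (le_of_eq ?_)
  rw [← EW_finset_sum]
  unfold CP
  congr 1
  ext ws
  rw [← EW_finset_sum]
  congr 1
  ext ws'
  by_cases h : Y ws = Y ws'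
  · rw [if_pos h, Finset.sum_eq_single (Y ws)]
    · simp [h]
    · intro b _ hb
      rw [if_neg (Ne.symm hb), zero_mul]
    · simp
  · rw [if_neg h]
    refine Finset.sum_eq_zero fun a _ => ?_
    by_cases h1 : Y ws = a
    · by_cases h2 : Y ws' = a
      · exact absurd (h1.trans h2.symm) h
      · rw [if_neg h2, mul_zero]
    · rw [if_neg h1, zero_mul]

lemma sum_QA {P : Type*} [Fintype P] (L : List ℕ)
    (Y : List (List ι) → P) (A : List (List ι) → Prop) [DecidablePred A] :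
    ∑ a, QA c L Y A a = EW c L (fun ws => if A ws then 1 else 0) := by
  classical
  unfold QA
  rw [← EW_finset_sum]
  congr 1
  ext ws
  by_cases h : A ws
  · simp [h]
  · simp [h]

/-- `coll_bound`, restated -/
lemma coll_bound' {P : Type*} [Group P] [Fintype P] (hc : ∀ i, 0 ≤ c i) (hc1 : ∑ i, c i = 1)
    (X : List ι → P) (Z : P → Prop) [DecidablePred Z] (ρ : ℝ) (hρ0 : 0 ≤ ρ)
    (hρ : ∀ D : P, ¬ Z D → ∀ f : P → ℝ, ∑ x, f x = 0 → N2 (TD D f) ≤ ρ * N2 f)
    (θ : ℝ) (ℓ : ℕ) (L : List ℕ)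
    (hθ : ∀ ℓ ∈ L, Ew c ℓ (fun w => Ew c ℓ (fun w' =>
      if Z (X w' * (X w)⁻¹) then 1 else 0)) ≤ θ) (hθ0 : 0 ≤ θ) :
    AV P (L.length + 1) (fun gs => CP c (ℓ :: L) (fun ws => pa X ws gs)) ≤
      (Fintype.card P : ℝ)⁻¹ + (θ + ρ) ^ L.length :=
  coll_bound hc hc1 X Z ρ hρ0 hρ θ ℓ L hθ hθ0

end EWmore

section ovl

variable {k K : Type*} [Field k] [Fintype k] [Field K] [Algebra k K] [Fintype K] [DecidableEq K]
variable {ι : Type*} [Fintype ι]

open Classical in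
theorem ov_PMG_ge (J : ℕ) (V0 : Submodule k (Fin 3 → K)) {c : ι → ℝ} (hc : ∀ i, 0 ≤ c i)
    (hc1 : ∑ i, c i = 1) (b : ι → SL3 K) (L : List ℕ) (gs : List (SL3 K))
    (h : L.length = gs.length) :
    1 - EW c L (fun ws => if FF V0 b ws gs = ⊤ then (0 : ℝ) else 1) -
      (Fintype.card (SL3 K) : ℝ) / 4 * CP c L (fun ws => pa (Xw b) ws gs) ≤
    ov (PMG (p0 J V0 c b) L
      (gs.map fun g => (⟨0, g⟩ : Sdp (SL3 K) (Fin J → Fin 3 → K)))) := by
  rw [PMG_p0 J V0 c b L gs h]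
  have hP : (0 : ℝ) < Fintype.card (SL3 K) := by exact_mod_cast Fintype.card_pos
  have hV : (0 : ℝ) < (Fintype.card (Fin 3 → K) : ℝ) ^ J := by
    have : (0 : ℝ) < Fintype.card (Fin 3 → K) := by exact_mod_cast Fintype.card_pos
    positivity
  set q : SL3 K → ℝ := QA c L (fun ws => pa (Xw b) ws gs) (fun ws => FF V0 b ws gs = ⊤) with hq
  -- pointwise lower bound
  have hpt : ∀ x : Sdp (SL3 K) (Fin J → Fin 3 → K),
      ((Fintype.card (Fin 3 → K) : ℝ) ^ J)⁻¹ * q x.a ≤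
        EW c L (fun ws => Phi J (FF V0 b ws gs) (pa (Xw b) ws gs) x) := by
    intro x
    rw [hq, QA, ← EW_mul_left]
    refine EW_mono hc fun ws => ?_
    by_cases h1 : FF V0 b ws gs = ⊤ ∧ pa (Xw b) ws gs = x.a
    · rw [if_pos h1, mul_one, Phi, if_pos]
      · rw [h1.1]
        have : Nat.card (⊤ : Submodule k (Fin 3 → K)) = Fintype.card (Fin 3 → K) := by
          rw [← Nat.card_eq_fintype_card]
          exact Nat.card_congr (Equiv.Set.univ _)
        rw [this]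
      · exact ⟨h1.2.symm, fun j => by rw [h1.1]; trivial⟩
    · rw [if_neg h1, mul_zero, Phi]
      split_ifs
      · positivity
      · exact le_rfl
  have hcardG : (Fintype.card (Sdp (SL3 K) (Fin J → Fin 3 → K)) : ℝ) =
      (Fintype.card (Fin 3 → K) : ℝ) ^ J * Fintype.card (SL3 K) := by
    rw [Sdp.card_eq, Fintype.card_fun, Fintype.card_fin]
    push_cast
    rfl
  have h2 : ∑ a, min (q a) (Fintype.card (SL3 K) : ℝ)⁻¹ ≤
      ov (fun x : Sdp (SL3 K) (Fin J → Fin 3 → K) =>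
        EW c L (fun ws => Phi J (FF V0 b ws gs) (pa (Xw b) ws gs) x)) := by
    unfold ov
    rw [← Equiv.sum_comp (Sdp.equivProd (P := SL3 K) (W := Fin J → Fin 3 → K)).symm,
      Fintype.sum_prod_type]
    calc ∑ a, min (q a) (Fintype.card (SL3 K) : ℝ)⁻¹
        = ∑ _v : Fin J → Fin 3 → K, ∑ a : SL3 K,
          ((Fintype.card (Fin 3 → K) : ℝ) ^ J)⁻¹ * min (q a) (Fintype.card (SL3 K) : ℝ)⁻¹ := by
          rw [Finset.sum_const, Finset.card_univ, Fintype.card_fun, Fintype.card_fin,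
            nsmul_eq_mul, ← Finset.mul_sum, ← mul_assoc]
          push_cast
          have h3 : ((Fintype.card (Fin 3 → K) : ℝ) ^ J) *
            ((Fintype.card (Fin 3 → K) : ℝ) ^ J)⁻¹ = 1 := mul_inv_cancel₀ hV.ne'
          rw [h3, one_mul]
      _ ≤ _ := by
          refine Finset.sum_le_sum fun v _ => Finset.sum_le_sum fun a _ => ?_
          rw [mul_min_of_nonneg _ _ (inv_nonneg.mpr hV.le)]
          refine min_le_min (hpt ⟨v, a⟩) ?_
          rw [hcardG, mul_inv]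
  have h3 : ∑ a, (q a - (q a) ^ 2 / (4 * (Fintype.card (SL3 K) : ℝ)⁻¹)) ≤
      ∑ a, min (q a) (Fintype.card (SL3 K) : ℝ)⁻¹ :=
    Finset.sum_le_sum fun a _ => min_ge_quad (inv_pos.mpr hP)
  refine le_trans ?_ (h3.trans h2)
  have h4 : ∑ a, (q a - (q a) ^ 2 / (4 * (Fintype.card (SL3 K) : ℝ)⁻¹)) =
      ∑ a, q a - (Fintype.card (SL3 K) : ℝ) / 4 * ∑ a, (q a) ^ 2 := by
    rw [Finset.sum_sub_distrib, Finset.mul_sum]
    congr 1
    refine Finset.sum_congr rfl fun a _ => ?_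
    field_simp
  rw [h4]
  have h5 : ∑ a, q a = 1 - EW c L (fun ws => if FF V0 b ws gs = ⊤ then (0 : ℝ) else 1) := by
    rw [hq, sum_QA]
    have h6 : EW c L (fun _ => (1 : ℝ)) = 1 := EW_const hc1 L 1
    rw [eq_sub_iff_add_eq, ← EW_add]
    refine Eq.trans ?_ h6
    congr 1
    ext ws
    by_cases h7 : FF V0 b ws gs = ⊤
    · simp [h7]
    · simp [h7]
  rw [h5]
  have h9 := sum_sq_le hc L (fun ws => pa (Xw b) ws gs) (fun ws => FF V0 b ws gs = ⊤)
  rw [← hq] at h9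
  have h10 := mul_le_mul_of_nonneg_left h9
    (show (0 : ℝ) ≤ (Fintype.card (SL3 K) : ℝ) / 4 by positivity)
  linarith

open Classical in
/-- the averaged overlap -/
theorem AV_ov_ge (J : ℕ) (V0 : Submodule k (Fin 3 → K)) {c : ι → ℝ} (hc : ∀ i, 0 ≤ c i)
    (hc1 : ∑ i, c i = 1) (b : ι → SL3 K) (Z : SL3 K → Prop) (ρ : ℝ) (hρ0 : 0 ≤ ρ)
    (hρ : ∀ D : SL3 K, ¬ Z D → ∀ f : SL3 K → ℝ, ∑ x, f x = 0 → N2 (TD D f) ≤ ρ * N2 f)
    (θ : ℝ) (ℓ : ℕ) (L : List ℕ)
    (hθ : ∀ ℓ ∈ L, Ew c ℓ (fun w => Ew c ℓ (fun w' =>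
      if Z (Xw b w' * (Xw b w)⁻¹) then 1 else 0)) ≤ θ) (hθ0 : 0 ≤ θ) (φ : ℝ)
    (hφ : ∀ ℓ' ∈ ℓ :: L, Ew c ℓ' (fun w => (Nat.card (Fw V0 b w) : ℝ)⁻¹) ≤ φ) :
    3 / 4 - (Fintype.card K : ℝ) ^ 3 * φ ^ (L.length + 1) -
      (Fintype.card (SL3 K) : ℝ) / 4 * (θ + ρ) ^ L.length ≤
    AV (SL3 K) (L.length + 1) (fun gs => ov (PMG (p0 J V0 c b) (ℓ :: L)
      (gs.map fun g => (⟨0, g⟩ : Sdp (SL3 K) (Fin J → Fin 3 → K))))) := by
  have hP : (0 : ℝ) < Fintype.card (SL3 K) := by exact_mod_cast Fintype.card_pos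
  have h1 := coll_bound' hc hc1 (Xw b) Z ρ hρ0 hρ θ ℓ L hθ hθ0
  have h2 := H98CO.filling V0 c hc hc1 b (ℓ :: L)
  have h3 : ((ℓ :: L).map fun n => Ew c n (fun w => (Nat.card (Fw V0 b w) : ℝ)⁻¹)).prod ≤
      φ ^ (L.length + 1) := by
    have h4 : ∀ M : List ℕ, (∀ ℓ' ∈ M, Ew c ℓ' (fun w => (Nat.card (Fw V0 b w) : ℝ)⁻¹) ≤ φ) →
        0 ≤ (M.map fun n => Ew c n (fun w => (Nat.card (Fw V0 b w) : ℝ)⁻¹)).prod ∧
        (M.map fun n => Ew c n (fun w => (Nat.card (Fw V0 b w) : ℝ)⁻¹)).prod ≤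
        φ ^ M.length := by
      intro M
      induction M with
      | nil => intro _; simp
      | cons n M ih =>
        intro hM
        have ih' := ih fun ℓ' h => hM ℓ' (List.mem_cons_of_mem _ h)
        have hn := hM n List.mem_cons_self
        have hn0 : 0 ≤ Ew c n (fun w => (Nat.card (Fw V0 b w) : ℝ)⁻¹) :=
          Ew_nonneg hc fun w _ => by positivity
        rw [List.map_cons, List.prod_cons, List.length_cons, pow_succ']
        exact ⟨mul_nonneg hn0 ih'.1, mul_le_mul hn ih'.2 ih'.1 (hn0.trans hn)⟩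
    exact (h4 (ℓ :: L) hφ).2
  have h5 : AV (SL3 K) (L.length + 1) (fun gs => EW c (ℓ :: L) (fun ws =>
      if FF V0 b ws gs = ⊤ then (0 : ℝ) else 1)) ≤
      (Fintype.card K : ℝ) ^ 3 * φ ^ (L.length + 1) :=
    h2.trans (mul_le_mul_of_nonneg_left h3 (by positivity))
  have h6 : AV (SL3 K) (L.length + 1) (fun gs =>
      1 - EW c (ℓ :: L) (fun ws => if FF V0 b ws gs = ⊤ then (0 : ℝ) else 1) -
      (Fintype.card (SL3 K) : ℝ) / 4 * CP c (ℓ :: L) (fun ws => pa (Xw b) ws gs)) ≤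
      AV (SL3 K) (L.length + 1) (fun gs => ov (PMG (p0 J V0 c b) (ℓ :: L)
      (gs.map fun g => (⟨0, g⟩ : Sdp (SL3 K) (Fin J → Fin 3 → K))))) := by
    refine Ew_mono (fun _ => by positivity) fun gs hgs => ?_
    exact ov_PMG_ge J V0 hc hc1 b (ℓ :: L) gs (by rw [List.length_cons, hgs])
  refine le_trans ?_ h6
  rw [AV, Ew_sub, Ew_sub, Ew_mul_left, Ew_const AV_weight_sum]
  have h7 := mul_le_mul_of_nonneg_left h1
    (show (0 : ℝ) ≤ (Fintype.card (SL3 K) : ℝ) / 4 by positivity)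
  have h8 : (Fintype.card (SL3 K) : ℝ) / 4 * ((Fintype.card (SL3 K) : ℝ)⁻¹ +
      (θ + ρ) ^ L.length) = 1 / 4 + (Fintype.card (SL3 K) : ℝ) / 4 * (θ + ρ) ^ L.length := by
    field_simp
  rw [h8] at h7
  have h9 : (Fintype.card (SL3 K) : ℝ) / 4 * Ew (fun _ : SL3 K => (Fintype.card (SL3 K) : ℝ)⁻¹)
      (L.length + 1) (fun gs => CP c (ℓ :: L) (fun ws => pa (Xw b) ws gs)) ≤
      1 / 4 + (Fintype.card (SL3 K) : ℝ) / 4 * (θ + ρ) ^ L.length := h7
  have h10 : Ew (fun _ : SL3 K => (Fintype.card (SL3 K) : ℝ)⁻¹) (L.length + 1)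
      (fun gs => EW c (ℓ :: L) (fun ws => if FF V0 b ws gs = ⊤ then (0 : ℝ) else 1)) ≤
      (Fintype.card K : ℝ) ^ 3 * φ ^ (L.length + 1) := h5
  linarith

end ovl

end Pool.Agent.Lib_helper64.Cut
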