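import Mathlib
import Pool.Agent.Lib_helper64.Cut.Conv

/-! Basic facts on the law of the walk. -/

set_option autoImplicit false
set_option linter.unusedSectionVars false

namespace Pool.Agent.Lib_helper64.Cut

open Finset Matrix

section ex

variable {ι : Type*} [Fintype ι] {c : ι → ℝ}

lemma Ew_lt (hc : ∀ i, 0 ≤ c i) (hc1 : ∑ i, c i = 1) {n : ℕ} {f : List ι → ℝ} {a : ℝ}
    (h : ∀ w : List ι, w.length = n → f w < a) : Ew c n f < a := by
  induction n generalizing f with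
  | zero => exact h [] rfl
  | succ n ih =>
    rw [Ew_succ]
    have h1 : ∀ i, Ew c n (fun w => f (i :: w)) < a := fun i =>
      ih fun w hw => h (i :: w) (by simp [hw])
    have h2 : ∃ i, c i ≠ 0 := by
      by_contra hcon
      push Not at hcon
      rw [Finset.sum_eq_zero fun i _ => hcon i] at hc1
      exact zero_ne_one hc1
    obtain ⟨i0, hi0⟩ := h2
    have hpos : 0 < c i0 := lt_of_le_of_ne (hc i0) (Ne.symm hi0)
    calc ∑ i, c i * Ew c n (fun w => f (i :: w)) < ∑ i, c i * a := by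
          refine Finset.sum_lt_sum (fun i _ => mul_le_mul_of_nonneg_left (h1 i).le (hc i))
            ⟨i0, mem_univ _, mul_lt_mul_of_pos_left (h1 i0) hpos⟩
      _ = a := by rw [← Finset.sum_mul, hc1, one_mul]

lemma exists_of_le_Ew (hc : ∀ i, 0 ≤ c i) (hc1 : ∑ i, c i = 1) {n : ℕ} {f : List ι → ℝ} {a : ℝ}
    (h : a ≤ Ew c n f) : ∃ w : List ι, w.length = n ∧ a ≤ f w := by
  by_contra hcon
  push Not at hcon
  exact absurd h (not_le.mpr (Ew_lt hc hc1 hcon))

lemma Ew_eq_zero {n : ℕ} {f : List ι → ℝ} (h : ∀ w : List ι, w.length = n → f w = 0) :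
    Ew c n f = 0 := by
  rw [Ew_congr h, Ew_fzero]

end ex

section walk

variable {k K : Type*} [Field k] [Fintype k] [Field K] [Algebra k K] [Fintype K] [DecidableEq K]

lemma Phi_nonneg (J : ℕ) (F : Submodule k (Fin 3 → K)) (a : SL3 K)
    (x : Sdp (SL3 K) (Fin J → Fin 3 → K)) : 0 ≤ Phi J F a x := by
  classical
  unfold Phi
  split_ifs
  · positivity
  · exact le_rfl

open Classical in
/-- the support of a state -/
noncomputable def stt (J : ℕ) (F : Submodule k (Fin 3 → K)) (a : SL3 K) :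
    Finset (Sdp (SL3 K) (Fin J → Fin 3 → K)) :=
  univ.filter fun x => x.a = a ∧ ∀ j, x.v j ∈ F

lemma mem_stt {J : ℕ} {F : Submodule k (Fin 3 → K)} {a : SL3 K}
    {x : Sdp (SL3 K) (Fin J → Fin 3 → K)} : x ∈ stt J F a ↔ x.a = a ∧ ∀ j, x.v j ∈ F := by
  classical
  unfold stt
  rw [mem_filter]
  exact and_iff_right (mem_univ _)

lemma card_state (J : ℕ) (F : Submodule k (Fin 3 → K)) (a : SL3 K) :
    (stt J F a).card = Nat.card F ^ J := by
  classical
  unfold stt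
  rw [← Fintype.card_subtype, ← Nat.card_eq_fintype_card]
  have h1 : Nat.card (Fin J → F) = Nat.card F ^ J := by
    rw [Nat.card_fun, Nat.card_eq_fintype_card (α := Fin J), Fintype.card_fin]
  rw [← h1]
  refine Nat.card_congr ?_
  exact
    { toFun := fun x j => ⟨x.1.v j, x.2.2 j⟩
      invFun := fun y => ⟨⟨fun j => (y j).1, a⟩, rfl, fun j => (y j).2⟩
      left_inv := by
        rintro ⟨⟨v, a'⟩, h1, h2⟩
        simp only at h1
        subst h1
        rfl
      right_inv := fun y => rfl }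

lemma Phi_of_mem {J : ℕ} {F : Submodule k (Fin 3 → K)} {a : SL3 K}
    {x : Sdp (SL3 K) (Fin J → Fin 3 → K)} (h : x ∈ stt J F a) :
    Phi J F a x = ((Nat.card F : ℝ) ^ J)⁻¹ := by
  unfold Phi
  rw [if_pos (mem_stt.mp h)]

lemma Phi_of_not_mem {J : ℕ} {F : Submodule k (Fin 3 → K)} {a : SL3 K}
    {x : Sdp (SL3 K) (Fin J → Fin 3 → K)} (h : x ∉ stt J F a) :
    Phi J F a x = 0 := by
  unfold Phi
  rw [if_neg (fun h' => h (mem_stt.mpr h'))]

lemma sum_Phi (J : ℕ) (F : Submodule k (Fin 3 → K)) (a : SL3 K) :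
    ∑ x, Phi J F a x = 1 := by
  classical
  rw [← Finset.sum_subset (Finset.subset_univ (stt J F a))
    (fun x _ hx => Phi_of_not_mem hx)]
  rw [Finset.sum_congr rfl fun x hx => Phi_of_mem hx, Finset.sum_const, nsmul_eq_mul, card_state]
  push_cast
  exact mul_inv_cancel₀ (pow_ne_zero J (card_sub_pos F).ne')

variable {ι : Type*} [Fintype ι] {c : ι → ℝ}

lemma p0_nonneg (J : ℕ) (V0 : Submodule k (Fin 3 → K)) (hc : ∀ i, 0 ≤ c i) (b : ι → SL3 K)
    (x : Sdp (SL3 K) (Fin J → Fin 3 → K)) : 0 ≤ p0 J V0 c b x :=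
  Finset.sum_nonneg fun i _ => mul_nonneg (hc i) (Phi_nonneg _ _ _ _)

lemma sum_p0 (J : ℕ) (V0 : Submodule k (Fin 3 → K)) (hc1 : ∑ i, c i = 1) (b : ι → SL3 K) :
    ∑ x, p0 J V0 c b x = 1 := by
  unfold p0
  rw [Finset.sum_comm]
  simp only [← Finset.mul_sum, sum_Phi, mul_one]
  exact hc1

lemma dl_nonneg {G : Type*} [DecidableEq G] (a x : G) : 0 ≤ dl a x := by
  unfold dl; split_ifs <;> norm_num

lemma sum_dl {G : Type*} [DecidableEq G] [Fintype G] (a : G) : ∑ x, dl a x = 1 := by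
  simp [dl]

lemma dsum_nonneg {G : Type*} [DecidableEq G] (l : List G) (x : G) :
    0 ≤ (l.map fun g => dl g x).sum := by
  refine List.sum_nonneg fun y hy => ?_
  obtain ⟨g, -, rfl⟩ := List.mem_map.mp hy
  exact dl_nonneg g x

lemma sum_dsum {G : Type*} [DecidableEq G] [Fintype G] (l : List G) :
    ∑ x, (l.map fun g => dl g x).sum = l.length := by
  induction l with
  | nil => simp
  | cons g l ih =>
    simp only [List.map_cons, List.sum_cons, Finset.sum_add_distrib, ih, sum_dl, List.length_cons]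
    push_cast
    ring

lemma pw_nonneg (J : ℕ) (V0 : Submodule k (Fin 3 → K)) (hc : ∀ i, 0 ≤ c i) (b : ι → SL3 K)
    {ρ : ℝ} (hρ : 0 ≤ ρ) (gs : List (SL3 K)) (hB : gs.length * ρ ≤ 1)
    (x : Sdp (SL3 K) (Fin J → Fin 3 → K)) : 0 ≤ pw J V0 c b ρ gs x := by
  unfold pw
  have h1 := p0_nonneg J V0 hc b x
  have h2 : 0 ≤ (gs.map fun g => dl (⟨0, g⟩ : Sdp (SL3 K) (Fin J → Fin 3 → K)) x).sum := by
    refine List.sum_nonneg fun y hy => ?_
    obtain ⟨g, -, rfl⟩ := List.mem_map.mp hy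
    exact dl_nonneg _ x
  have h3 : 0 ≤ 1 - gs.length * ρ := by linarith
  positivity

lemma pw_eq (J : ℕ) (V0 : Submodule k (Fin 3 → K)) (b : ι → SL3 K)
    (ρ : ℝ) (gs : List (SL3 K)) (x : Sdp (SL3 K) (Fin J → Fin 3 → K)) :
    pw J V0 c b ρ gs x = (1 - (gs.map fun g =>
      (⟨0, g⟩ : Sdp (SL3 K) (Fin J → Fin 3 → K))).length * ρ) * p0 J V0 c b x +
      ρ * ((gs.map fun g => (⟨0, g⟩ : Sdp (SL3 K) (Fin J → Fin 3 → K))).map
        fun g => dl g x).sum := by
  rw [pw, List.length_map, List.map_map]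
  rfl

lemma sum_pw (J : ℕ) (V0 : Submodule k (Fin 3 → K)) (hc1 : ∑ i, c i = 1) (b : ι → SL3 K)
    (ρ : ℝ) (gs : List (SL3 K)) :
    ∑ x, pw J V0 c b ρ gs x = 1 := by
  simp only [pw_eq]
  rw [Finset.sum_add_distrib, ← Finset.mul_sum, ← Finset.mul_sum, sum_p0 J V0 hc1 b, sum_dsum]
  ring

lemma pw_ge (J : ℕ) (V0 : Submodule k (Fin 3 → K)) (hc : ∀ i, 0 ≤ c i) (b : ι → SL3 K)
    {ρ : ℝ} (hρ : 0 ≤ ρ) (gs : List (SL3 K)) (hB : gs.length * ρ ≤ 1)
    (x : Sdp (SL3 K) (Fin J → Fin 3 → K)) (i : ι) (h1 : x.a = b i) (h2 : ∀ j, x.v j ∈ V0) :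
    (1 - gs.length * ρ) * (c i * ((Nat.card V0 : ℝ) ^ J)⁻¹) ≤ pw J V0 c b ρ gs x := by
  classical
  have h3 : c i * ((Nat.card V0 : ℝ) ^ J)⁻¹ ≤ p0 J V0 c b x := by
    have h4 : c i * Phi J V0 (b i) x ≤ p0 J V0 c b x :=
      Finset.single_le_sum (f := fun i => c i * Phi J V0 (b i) x)
        (fun i _ => mul_nonneg (hc i) (Phi_nonneg _ _ _ _)) (mem_univ i)
    rwa [Phi_of_mem (mem_stt.mpr ⟨h1, h2⟩)] at h4
  have h5 : 0 ≤ (gs.map fun g => dl (⟨0, g⟩ : Sdp (SL3 K) (Fin J → Fin 3 → K)) x).sum := by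
    refine List.sum_nonneg fun y hy => ?_
    obtain ⟨g, -, rfl⟩ := List.mem_map.mp hy
    exact dl_nonneg _ x
  have h6 : 0 ≤ 1 - gs.length * ρ := by linarith
  have h7 := mul_le_mul_of_nonneg_left h3 h6
  have h8 := mul_nonneg hρ h5
  unfold pw
  linarith

lemma lam_p0_le (J : ℕ) (V0 : Submodule k (Fin 3 → K)) (b : ι → SL3 K)
    {ρ : ℝ} (hρ : 0 ≤ ρ) (gs : List (SL3 K))
    (x : Sdp (SL3 K) (Fin J → Fin 3 → K)) :
    (1 - gs.length * ρ) * p0 J V0 c b x ≤ pw J V0 c b ρ gs x := by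
  have h5 : 0 ≤ (gs.map fun g => dl (⟨0, g⟩ : Sdp (SL3 K) (Fin J → Fin 3 → K)) x).sum := by
    refine List.sum_nonneg fun y hy => ?_
    obtain ⟨g, -, rfl⟩ := List.mem_map.mp hy
    exact dl_nonneg _ x
  have h8 := mul_nonneg hρ h5
  unfold pw
  linarith

open Classical in
lemma card_supp (J : ℕ) (V0 : Submodule k (Fin 3 → K)) (b : ι → SL3 K)
    (ρ : ℝ) (gs : List (SL3 K)) :
    (univ.filter fun x : Sdp (SL3 K) (Fin J → Fin 3 → K) => pw J V0 c b ρ gs x ≠ 0).card ≤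
      Fintype.card ι * Nat.card V0 ^ J + gs.length := by
  have hsub : (univ.filter fun x : Sdp (SL3 K) (Fin J → Fin 3 → K) =>
      pw J V0 c b ρ gs x ≠ 0) ⊆
      (univ.biUnion fun i : ι => stt J V0 (b i)) ∪
      (gs.map fun g => (⟨0, g⟩ : Sdp (SL3 K) (Fin J → Fin 3 → K))).toFinset := by
    intro x hx
    by_contra hcon
    rw [mem_union, not_or] at hcon
    obtain ⟨h1, h2⟩ := hcon
    apply (mem_filter.mp hx).2
    have h3 : p0 J V0 c b x = 0 := by
      refine Finset.sum_eq_zero fun i _ => ?_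
      rw [Phi_of_not_mem, mul_zero]
      intro h4
      apply h1
      rw [mem_biUnion]
      exact ⟨i, mem_univ _, h4⟩
    have h4 : (gs.map fun g => dl (⟨0, g⟩ : Sdp (SL3 K) (Fin J → Fin 3 → K)) x).sum = 0 := by
      apply List.sum_eq_zero
      intro y hy
      obtain ⟨g, hg, rfl⟩ := List.mem_map.mp hy
      apply if_neg
      intro h5
      apply h2
      rw [List.mem_toFinset, List.mem_map]
      exact ⟨g, hg, h5.symm⟩
    rw [pw, h3, h4]
    ring
  refine (card_le_card hsub).trans ((card_union_le _ _).trans (add_le_add ?_ ?_))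
  · refine card_biUnion_le.trans ?_
    refine (Finset.sum_le_sum fun i _ => le_of_eq (card_state J V0 (b i))).trans ?_
    rw [Finset.sum_const, card_univ, smul_eq_mul]
  · refine (List.toFinset_card_le _).trans ?_
    rw [List.length_map]

/-- the support of the main walk -/
lemma exists_supp (J : ℕ) (V0 : Submodule k (Fin 3 → K)) (b : ι → SL3 K) (T M : ℕ)
    (hM : ∀ w : List ι, w.length = T → Nat.card (Fw V0 b w) ≤ M) :
    ∃ S : Finset (Sdp (SL3 K) (Fin J → Fin 3 → K)), S.card ≤ Fintype.card ι ^ T * M ^ J ∧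
      ∀ x, x ∉ S → pwr (p0 J V0 c b) T x = 0 := by
  classical
  refine ⟨(univ : Finset (List.Vector ι T)).biUnion fun w => stt J (Fw V0 b w.1) (Xw b w.1),
    ?_, ?_⟩
  · refine card_biUnion_le.trans ?_
    have h1 : ∀ w : List.Vector ι T, (stt J (Fw V0 b w.1) (Xw b w.1)).card ≤ M ^ J := by
      intro w
      rw [card_state]
      exact Nat.pow_le_pow_left (hM w.1 w.2) J
    refine (Finset.sum_le_sum fun w _ => h1 w).trans ?_
    rw [Finset.sum_const, card_univ, smul_eq_mul, card_vector]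
  · intro x hx
    rw [pwr_p0]
    apply Ew_eq_zero
    intro w hw
    apply Phi_of_not_mem
    intro h
    apply hx
    rw [mem_biUnion]
    exact ⟨⟨w, hw⟩, mem_univ _, h⟩

end walk

end Pool.Agent.Lib_helper64.Cut
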