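import Mathlib
import Pool.Agent.Lib_helper64.Cut.Overlap
import Pool.Agent.Lib_helper64.Cut.Walk
import Pool.Agent.Lib_helper64.Cut.Est
import Pool.Agent.Lib_helper98.CO.Noise
import Pool.Agent.Lib_helper98.CO.FieldK
import Pool.Agent.Lib_helper98.CO.Pattern
import Pool.Agent.Lib_helper98.CO.Contraction
import Pool.Agent.Lib_helper98.CO.Expander
import Pool.Agent.Lib_helper98.CO.NoCutoff
import Pool.Agent.Lib_helper98.CO.Mass
import Pool.Agent.Lib_helper98.CO.Num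

/-! Assembly. -/

set_option autoImplicit false
set_option linter.unusedSectionVars false

namespace Pool.Agent.Lib_helper64.Cut

open Finset Matrix

/-! ### contraction in `ℓ²` form -/

lemma contraction : ∃ C : ℝ, 0 < C ∧ ∀ (K : Type) [Field K] [Fintype K] [DecidableEq K]
    (D : SL3 K), ¬ Zc D → ∀ f : SL3 K → ℝ, ∑ x, f x = 0 →
    N2 (TD D f) ≤ √(C / √(Fintype.card K)) * N2 f := by
  obtain ⟨C, hC, h⟩ := H98CO.class_contraction
  refine ⟨C, hC, ?_⟩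
  intro K _ _ _ D hD f hf
  have h1 := h K D hD f hf
  have h2 : N2 (TD D f) ^ 2 ≤ (√(C / √(Fintype.card K)) * N2 f) ^ 2 := by
    rw [mul_pow, Real.sq_sqrt (by positivity), N2_sq, N2_sq]
    exact h1
  exact (sq_le_sq₀ (N2_nonneg _) (mul_nonneg (Real.sqrt_nonneg _) (N2_nonneg _))).mp h2

/-! ### constants -/

/-- `1 - 0.024` -/
noncomputable def eta : ℝ := 122 / 125

lemma eta_pos : 0 < eta := by unfold eta; norm_num

lemma eta_le_one : eta ≤ 1 := by unfold eta; norm_num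

/-- the final constant -/
noncomputable def cc : ℝ := eta ^ 29000 * ((100000 : ℝ)⁻¹) ^ 2400 / 2

lemma cc_pos : 0 < cc := by
  unfold cc
  have := eta_pos
  positivity

/-- the probability of a rare step -/
noncomputable def rr (m : ℕ) : ℝ := (100000 * (m : ℝ))⁻¹

lemma rr_pos {m : ℕ} (hm : 0 < m) : 0 < rr m := by
  unfold rr; positivity

lemma rr_le {m : ℕ} (hm : 0 < m) : (2400 : ℝ) * rr m ≤ 1 / 2 := by
  have h1 : (1 : ℝ) ≤ m := by exact_mod_cast hm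
  unfold rr
  rw [← div_eq_mul_inv, div_le_iff₀ (by positivity)]
  linarith

lemma lam_pow {m : ℕ} (hm : 0 < m) (a : ℕ) : eta ^ a ≤ (1 - (2400 : ℝ) * rr m) ^ (a * m) := by
  have h1 : (0 : ℝ) < m := by exact_mod_cast hm
  rw [mul_comm a m, pow_mul]
  refine pow_le_pow_left₀ eta_pos.le ?_ a
  have h2 : (-2 : ℝ) ≤ -(2400 * rr m) := by
    have := rr_le hm; linarith
  have h3 := one_add_mul_le_pow h2 m
  have h4 : 1 + (m : ℝ) * (-(2400 * rr m)) = eta := by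
    unfold rr eta
    field_simp
    ring
  rw [h4] at h3
  have h5 : 1 + -(2400 * rr m) = 1 - 2400 * rr m := by ring
  rwa [h5] at h3

lemma m_rr {m : ℕ} (hm : 0 < m) : (m : ℝ) * rr m = (100000 : ℝ)⁻¹ := by
  have h1 : (0 : ℝ) < m := by exact_mod_cast hm
  unfold rr
  field_simp

/-- second numerical estimate -/
lemma num2 {q : ℝ} (hq : (324 : ℝ) ^ 9 ≤ q) {m : ℕ} (hm : 20 ≤ m) :
    (q ^ (10000 * m)) ^ 3 * (2 * q ^ 5 / q ^ (13 * m)) ^ 2400 ≤ 1 / 8 := by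
  have hq2 : 2 ≤ q := le_trans (by norm_num) hq
  have hq8 : 8 ≤ q := le_trans (by norm_num) hq
  have hq0 : 0 < q := by linarith
  have hq1 : 1 ≤ q := by linarith
  have h1 : 2 * q ^ 5 / q ^ (13 * m) ≤ q ^ 6 / q ^ (13 * m) := by
    refine div_le_div_of_nonneg_right ?_ (by positivity)
    calc 2 * q ^ 5 ≤ q * q ^ 5 := mul_le_mul_of_nonneg_right hq2 (by positivity)
      _ = q ^ 6 := by ring
  calc (q ^ (10000 * m)) ^ 3 * (2 * q ^ 5 / q ^ (13 * m)) ^ 2400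
      ≤ (q ^ (10000 * m)) ^ 3 * (q ^ 6 / q ^ (13 * m)) ^ 2400 :=
        mul_le_mul_of_nonneg_left (pow_le_pow_left₀ (by positivity) h1 _) (by positivity)
    _ = q ^ (10000 * m * 3 + 6 * 2400) / q ^ (13 * m * 2400) := by
        rw [div_pow, ← pow_mul, ← pow_mul, ← pow_mul, pow_add, mul_div_assoc]
    _ ≤ 1 / 8 := by
        rw [div_le_div_iff₀ (by positivity) (by norm_num), one_mul]
        calc q ^ (10000 * m * 3 + 6 * 2400) * 8 ≤ q ^ (10000 * m * 3 + 6 * 2400) * q :=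
              mul_le_mul_of_nonneg_left hq8 (by positivity)
          _ = q ^ (10000 * m * 3 + 6 * 2400 + 1) := (pow_succ q _).symm
          _ ≤ q ^ (13 * m * 2400) := pow_le_pow_right₀ hq1 (by omega)

/-! ### the walk at stage `m` -/

/-- third numerical estimate (first one is `num1`) -/
def Num1 (q : ℝ) : Prop := ∀ C : ℝ, 0 < C → ∃ m0 : ℕ, ∀ m ≥ m0,
  2 * (q ^ (10000 * m)) ^ 8 / 4 *
    (3 * (q ^ (35 * m))⁻¹ + √(C / √(q ^ (10000 * m)))) ^ 2399 ≤ 1 / 8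

/-- fourth numerical estimate -/
def Num3 (q : ℝ) : Prop := ∀ e : ℝ, 0 < e → ∃ m0 : ℕ, ∀ m ≥ m0,
  (q ^ 6) ^ (29000 * m) * (q ^ (3 * (15 * (10 * m) + 1) + 29000 * m)) ^ 400 ≤
    e * ((q ^ (10000 * m)) ^ 3) ^ 400

section stage

variable (q : ℕ) [hqp : Fact q.Prime] (m : ℕ) (K : Type) [Field K] [Fintype K] [DecidableEq K]
  [Algebra (ZMod q) K] (x : K)

/-- the group -/
abbrev GK (K : Type) [Field K] := Sdp (SL3 K) (Fin 400 → Fin 3 → K)

/-- index set of the main steps -/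
abbrev IX (q : ℕ) [Fact q.Prime] := {p // p ∈ pairs (ZMod q)} ⊕ H98CO.NI

/-- main steps -/
noncomputable def bb : IX q → SL3 K :=
  fun i => mapS x (stepM (H98CO.nz (ZMod q)) i)

/-- law of the main walk -/
noncomputable def pm : GK K → ℝ :=
  p0 400 (V00 (ZMod q) x 16 (10 * m)) (stepC (ZMod q) H98CO.NI) (bb q K x)

/-- law of the walk -/
noncomputable def ww (gs : List (SL3 K)) : GK K → ℝ :=
  pw 400 (V00 (ZMod q) x 16 (10 * m)) (stepC (ZMod q) H98CO.NI) (bb q K x) (rr m) gs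

end stage

section stage

variable {q : ℕ} [hqp : Fact q.Prime]

open Classical in
lemma theta_bb {m : ℕ} {K : Type} [Field K] [Fintype K] [DecidableEq K] [Algebra (ZMod q) K]
    {x : K} {n : ℕ} (hx : Gen (ZMod q) x n) {ℓ : ℕ} (hℓ : ℓ < n) (hq : (324 : ℝ) ^ 9 ≤ q)
    (hℓ2 : 9 * m ≤ ℓ) :
    Ew (stepC (ZMod q) H98CO.NI) ℓ (fun w => Ew (stepC (ZMod q) H98CO.NI) ℓ (fun w' =>
      if Zc (Xw (bb q K x) w' * (Xw (bb q K x) w)⁻¹) then 1 else 0)) ≤
      3 * ((q : ℝ) ^ (35 * m))⁻¹ := by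
  have hcq : (Fintype.card (ZMod q) : ℝ) = q := by rw [ZMod.card]
  have h1 := theta_bound (N := H98CO.NI) hx (H98CO.nz (ZMod q)) H98CO.nz_degOne hℓ
  rw [hcq] at h1
  refine le_trans h1 ?_
  exact mul_le_mul_of_nonneg_left (pow_est hq hℓ2) (by norm_num)

lemma phi_bb {m : ℕ} (hm : 0 < m) {K : Type} [Field K] [Fintype K] [DecidableEq K]
    [Algebra (ZMod q) K]
    {x : K} (hx : Gen (ZMod q) x (10000 * m)) {ℓ : ℕ} (hq : (324 : ℝ) ^ 9 ≤ q)
    (hℓ2 : 9 * m ≤ ℓ) :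
    Ew (stepC (ZMod q) H98CO.NI) ℓ (fun w =>
      (Nat.card (Fw (V00 (ZMod q) x 16 (10 * m)) (bb q K x) w) : ℝ)⁻¹) ≤
      2 * (q : ℝ) ^ 5 / (q : ℝ) ^ (13 * m) := by
  have hcq : (Fintype.card (ZMod q) : ℝ) = q := by rw [ZMod.card]
  have hq' : (324 : ℝ) ^ 9 ≤ Fintype.card (ZMod q) := by rw [hcq]; exact hq
  have h3 := Ew_card_inv' hx hm (H98CO.nz (ZMod q)) H98CO.nz_degOne hq' hℓ2
  rw [hcq] at h3
  exact h3

/-- the averaged overlap for a list of lengths -/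
lemma pattern_avg_aux (hq : (324 : ℝ) ^ 9 ≤ q) {m : ℕ} (hm : 0 < m)
    {K : Type} [Field K] [Fintype K] [DecidableEq K] [Algebra (ZMod q) K] {x : K}
    (hx : Gen (ZMod q) x (10000 * m)) (r1 : ℝ) (hr1 : 0 ≤ r1)
    (hcon : ∀ D : SL3 K, ¬ Zc D → ∀ f : SL3 K → ℝ, ∑ x, f x = 0 → N2 (TD D f) ≤ r1 * N2 f)
    (ℓ : ℕ) (L : List ℕ) (hmem : ∀ ℓ' ∈ ℓ :: L, 9 * m ≤ ℓ' ∧ ℓ' < 10 * m) :
    3 / 4 - (Fintype.card K : ℝ) ^ 3 * (2 * (q : ℝ) ^ 5 / (q : ℝ) ^ (13 * m)) ^ (L.length + 1) -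
      (Fintype.card (SL3 K) : ℝ) / 4 * (3 * ((q : ℝ) ^ (35 * m))⁻¹ + r1) ^ L.length ≤
    AV (SL3 K) (L.length + 1) (fun gs => ov (PMG (pm q m K x) (ℓ :: L)
      (gs.map fun g => (⟨0, g⟩ : GK K)))) := by
  classical
  refine AV_ov_ge 400 (V00 (ZMod q) x 16 (10 * m)) (c := stepC (ZMod q) H98CO.NI)
    stepC_nonneg stepC_sum (bb q K x) Zc r1 hr1 hcon (3 * ((q : ℝ) ^ (35 * m))⁻¹) ℓ L ?_
    (by positivity) (2 * (q : ℝ) ^ 5 / (q : ℝ) ^ (13 * m)) ?_
  · intro ℓ' hℓ'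
    have h2 := hmem ℓ' (List.mem_cons_of_mem _ hℓ')
    exact theta_bb hx (by omega) hq h2.1
  · intro ℓ' hℓ'
    exact phi_bb hm hx hq (hmem ℓ' hℓ').1

lemma fin_ineq {a b : ℝ} (ha : a ≤ 1 / 8) (hb : b ≤ 1 / 8) : 1 / 2 ≤ 3 / 4 - a - b := by linarith

lemma pattern_avg (hq : (324 : ℝ) ^ 9 ≤ q) (hn1 : Num1 q) : ∃ m0 : ℕ, ∀ m ≥ m0, 0 < m →
    ∀ (K : Type) [Field K] [Fintype K] [DecidableEq K] [Algebra (ZMod q) K] (x : K),
    Fintype.card K = q ^ (10000 * m) → Gen (ZMod q) x (10000 * m) →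
    ∀ (B : ℕ), B = 2400 → ∀ is : List (Fin m), is.length = B →
    1 / 2 ≤ AV (SL3 K) B (fun gs => ov (PMG (pm q m K x)
      (is.map fun i : Fin m => 9 * m + (i : ℕ))
      (gs.map fun g => (⟨0, g⟩ : GK K)))) := by
  obtain ⟨C, hC, hcon⟩ := contraction
  obtain ⟨m0, hm0⟩ := hn1 C hC
  refine ⟨max m0 20, ?_⟩
  intro m hm hmpos K _ _ _ _ x hK hx B hB is his
  have hm1 : m0 ≤ m := (le_max_left _ _).trans hm
  have hm2 : 20 ≤ m := (le_max_right _ _).trans hm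
  have hq0 : (0 : ℝ) < q := lt_of_lt_of_le (by norm_num) hq
  have hKR : (Fintype.card K : ℝ) = (q : ℝ) ^ (10000 * m) := by rw [hK]; push_cast; rfl
  obtain ⟨ℓ, L, hL⟩ : ∃ ℓ L, (is.map fun i : Fin m => 9 * m + (i : ℕ)) = ℓ :: L := by
    cases is with
    | nil => rw [hB] at his; simp at his
    | cons i is => exact ⟨_, _, rfl⟩
  have hlen : L.length + 1 = B := by
    have := congrArg List.length hL
    rw [List.length_map, his, List.length_cons] at this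
    omega
  have hlen' : L.length = 2399 := by omega
  have hmem : ∀ ℓ' ∈ ℓ :: L, 9 * m ≤ ℓ' ∧ ℓ' < 10 * m := by
    intro ℓ' hℓ'
    rw [← hL, List.mem_map] at hℓ'
    obtain ⟨i, -, rfl⟩ := hℓ'
    have := i.2
    omega
  rw [hL]
  have h1 := pattern_avg_aux hq hmpos hx (√(C / √(Fintype.card K))) (Real.sqrt_nonneg _)
    (fun D hD f hf => hcon K D hD f hf) ℓ L hmem
  rw [hlen] at h1
  refine le_trans ?_ h1
  have e1 := num2 hq hm2
  have e2 := hm0 m hm1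
  have e3 : (Fintype.card (SL3 K) : ℝ) ≤ 2 * ((q : ℝ) ^ (10000 * m)) ^ 8 := by
    rw [← hKR]
    exact_mod_cast H98CO.card_SL3_le K
  have e4 : (Fintype.card (SL3 K) : ℝ) / 4 *
      (3 * ((q : ℝ) ^ (35 * m))⁻¹ + √(C / √(Fintype.card K))) ^ L.length ≤ 1 / 8 := by
    refine le_trans (mul_le_mul_of_nonneg_right
      (div_le_div_of_nonneg_right e3 (by norm_num)) (by positivity)) ?_
    rw [hKR, hlen']
    exact e2
  rw [← hB] at e1
  rw [hKR] at e4 ⊢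
  exact fin_ineq e1 e4

lemma prod_ineq {a b c a' b' c' : ℝ} (ha : a' ≤ a) (hb : b' ≤ b) (hc : c' ≤ c) (ha' : 0 ≤ a')
    (hb' : 0 ≤ b') (hc' : 0 ≤ c') : a' * b' * c' ≤ a * b * c :=
  mul_le_mul (mul_le_mul ha hb hb' (ha'.trans ha)) hc hc'
    (mul_nonneg (ha'.trans ha) (hb'.trans hb))

lemma stage_upper (hq : (324 : ℝ) ^ 9 ≤ q) (hn1 : Num1 q) : ∃ m0 : ℕ, ∀ m ≥ m0, 0 < m →
    ∀ (K : Type) [Field K] [Fintype K] [DecidableEq K] [Algebra (ZMod q) K] (x : K),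
    Fintype.card K = q ^ (10000 * m) → Gen (ZMod q) x (10000 * m) →
    ∀ (B : ℕ), B = 2400 → ∃ gs : List (SL3 K), gs.length = B ∧
      cc ≤ ov (pwr (ww q m K x gs) (24000 * m)) := by
  obtain ⟨m0, hm0⟩ := pattern_avg hq hn1
  refine ⟨m0, ?_⟩
  intro m hm hmpos K _ _ _ _ x hK hx B hB
  have h1 := hm0 m hm hmpos K x hK hx B hB
  have hmR : (0 : ℝ) < m := by exact_mod_cast hmpos
  have hw1 : ∑ _i : Fin m, (m : ℝ)⁻¹ = 1 := by
    rw [Finset.sum_const, Finset.card_univ, Fintype.card_fin, nsmul_eq_mul,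
      mul_inv_cancel₀ hmR.ne']
  have hw0 : ∀ _i : Fin m, (0 : ℝ) ≤ (m : ℝ)⁻¹ := fun _ => by positivity
  have h2 : (1 / 2 : ℝ) ≤ Ew (fun _ : Fin m => (m : ℝ)⁻¹) B (fun is =>
      AV (SL3 K) B (fun gs => ov (PMG (pm q m K x)
      (is.map fun i : Fin m => 9 * m + (i : ℕ))
      (gs.map fun g => (⟨0, g⟩ : GK K))))) := by
    rw [← Ew_const hw1 B (1 / 2 : ℝ)]
    exact Ew_mono hw0 fun is his => h1 is his
  rw [Ew_comm] at h2
  obtain ⟨gs, hgs, h3⟩ := exists_of_le_Ew (fun _ => by positivity) AV_weight_sum h2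
  refine ⟨gs, hgs, ?_⟩
  have hlen : (gs.map fun g => (⟨0, g⟩ : GK K)).length = B := by rw [List.length_map, hgs]
  have hBR : (B : ℝ) = 2400 := by rw [hB]; norm_num
  have hrr := rr_le hmpos
  have hrr0 := rr_pos hmpos
  have h4 := H98CO.pattern_ov (ww q m K x gs) (pm q m K x) (rr m) hrr0.le
    (gs.map fun g => (⟨0, g⟩ : GK K)) (by rw [hlen, hBR]; linarith) m hmpos
    (p0_nonneg _ _ stepC_nonneg _) (sum_p0 _ _ stepC_sum _) (fun y => pw_eq _ _ _ _ _ _)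
    (24000 * m) (by rw [hlen, hB]; omega)
  rw [hlen] at h4
  refine le_trans ?_ h4
  rw [hBR, m_rr hmpos]
  have h5 := lam_pow hmpos 24000
  have h6 : eta ^ 29000 ≤ eta ^ 24000 :=
    pow_le_pow_of_le_one eta_pos.le eta_le_one (by norm_num)
  have h7 : cc = eta ^ 29000 * ((100000 : ℝ)⁻¹) ^ B * (1 / 2) := by
    rw [hB, cc, div_eq_mul_inv, one_div]
  rw [h7]
  exact prod_ineq (h6.trans h5) le_rfl h3 (pow_nonneg eta_pos.le _) (by positivity) (by norm_num)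

lemma card_NI : Fintype.card H98CO.NI = 25 := by
  rw [Fintype.card_option, Fintype.card_prod, Fintype.card_fin]
  have : Fintype.card {p : Fin 3 × Fin 3 // p.1 ≠ p.2} = 6 := by decide
  rw [this]

lemma card_IX (hq : (324 : ℝ) ^ 9 ≤ q) : Fintype.card (IX q) ≤ q ^ 6 := by
  have hq' : 324 ≤ q := by
    have h1 : (324 : ℝ) ≤ q := le_trans (by norm_num) hq
    exact_mod_cast h1
  have h1 := card_pairs_le (k := ZMod q)
  rw [ZMod.card] at h1
  rw [Fintype.card_sum, card_NI, Fintype.card_coe]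
  have h2 : 1 ≤ q ^ 5 := Nat.one_le_pow _ _ (by omega)
  have h3 : 27 * q ^ 5 ≤ q ^ 6 := by
    rw [pow_succ q 5, mul_comm (q ^ 5) q]
    exact Nat.mul_le_mul_right _ (by omega)
  omega

lemma card_GK (K : Type) [Field K] [Fintype K] [DecidableEq K] :
    ((Fintype.card K : ℝ) ^ 3) ^ 400 ≤ Fintype.card (GK K) := by
  rw [Sdp.card_eq, Fintype.card_fun, Fintype.card_fin, card_V3]
  push_cast
  have h1 : (1 : ℝ) ≤ Fintype.card (SL3 K) := by exact_mod_cast Fintype.card_pos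
  exact le_mul_of_one_le_right (by positivity) h1

lemma lower_ineq {a b : ℝ} (h : b ≤ a / 2) : a / 2 ≤ a - b := by linarith

lemma stage_lower (hq : (324 : ℝ) ^ 9 ≤ q) (hn3 : Num3 q) : ∃ m0 : ℕ, ∀ m ≥ m0, 0 < m →
    ∀ (K : Type) [Field K] [Fintype K] [DecidableEq K] [Algebra (ZMod q) K] (x : K),
    Fintype.card K = q ^ (10000 * m) →
    ∀ (B : ℕ), B = 2400 → ∀ gs : List (SL3 K), gs.length = B →
      cc ≤ H98CO.tv (ww q m K x gs) (29000 * m) := by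
  obtain ⟨m0, hm0⟩ := hn3 (eta ^ 29000 / 2) (by have := eta_pos; positivity)
  refine ⟨m0, ?_⟩
  intro m hm hmpos K _ _ _ _ x hK B hB gs hgs
  have h1 := hm0 m hm
  have hBR : (gs.length : ℝ) = 2400 := by rw [hgs, hB]; norm_num
  have hrr := rr_le hmpos
  have hrr0 := rr_pos hmpos
  have hq0 : (0 : ℝ) < q := lt_of_lt_of_le (by norm_num) hq
  have hKR : (Fintype.card K : ℝ) = (q : ℝ) ^ (10000 * m) := by rw [hK]; push_cast; rfl
  obtain ⟨S, hS1, hS2⟩ := exists_supp (c := stepC (ZMod q) H98CO.NI) 400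
    (V00 (ZMod q) x 16 (10 * m)) (bb q K x) (29000 * m)
    (q ^ (3 * (15 * (10 * m) + 1) + 29000 * m)) (by
      intro w hw
      have h2 := H98CO.card_Fw_le (k := ZMod q) x 16 (10 * m) w
      rw [hw, ZMod.card] at h2
      exact h2)
  have h3 := H98CO.tv_lower (ww q m K x gs) (pm q m K x) (1 - 2400 * rr m)
    (by linarith) (p0_nonneg _ _ stepC_nonneg _) (sum_p0 _ _ stepC_sum _)
    (pw_nonneg _ _ stepC_nonneg _ hrr0.le gs (by rw [hBR]; linarith))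
    (sum_pw _ _ stepC_sum _ _ _)
    (fun y => by
      have h4 := lam_p0_le (c := stepC (ZMod q) H98CO.NI) 400 (V00 (ZMod q) x 16 (10 * m))
        (bb q K x) hrr0.le gs y
      rw [hBR] at h4
      exact h4) (29000 * m) S hS2
  refine le_trans ?_ h3
  have h5 := lam_pow hmpos 29000
  have h6 : (S.card : ℝ) / Fintype.card (GK K) ≤ eta ^ 29000 / 2 := by
    have hG := card_GK K
    rw [hKR] at hG
    have hG0 : (0 : ℝ) < (((q : ℝ) ^ (10000 * m)) ^ 3) ^ 400 := by positivity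
    rw [div_le_iff₀ (hG0.trans_le hG)]
    have h7 : (S.card : ℝ) ≤ ((q : ℝ) ^ 6) ^ (29000 * m) *
        ((q : ℝ) ^ (3 * (15 * (10 * m) + 1) + 29000 * m)) ^ 400 := by
      have h8 : S.card ≤ (q ^ 6) ^ (29000 * m) *
          (q ^ (3 * (15 * (10 * m) + 1) + 29000 * m)) ^ 400 :=
        hS1.trans (Nat.mul_le_mul_right _ (Nat.pow_le_pow_left (card_IX hq) _))
      exact_mod_cast h8
    refine h7.trans (h1.trans ?_)
    exact mul_le_mul_of_nonneg_left hG (by have := eta_pos; positivity)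
  have h9 : cc ≤ eta ^ 29000 / 2 := by
    unfold cc
    refine div_le_div_of_nonneg_right ?_ (by norm_num)
    refine mul_le_of_le_one_right (pow_nonneg eta_pos.le _) ?_
    exact pow_le_one₀ (by norm_num) (by norm_num)
  calc cc ≤ eta ^ 29000 / 2 := h9
    _ ≤ eta ^ 29000 - (S.card : ℝ) / Fintype.card (GK K) := lower_ineq h6
    _ ≤ _ := sub_le_sub_right h5 _

/-- the constant `r` -/
noncomputable def rC (q : ℕ) : ℝ := 50 * (q : ℝ) ^ 6 * ((q : ℝ) ^ 48) ^ 400 + 2400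

lemma rC_pos (q : ℕ) : 0 < rC q := by
  unfold rC; positivity

lemma mass_ineq {x Y l : ℝ} (hl : 1 / 2 ≤ l) (hx : 1 ≤ x) (hY : 0 < Y) :
    1 / (50 * x ^ 6 * Y + 2400) ≤ l * ((x ^ 4)⁻¹ / 25 * Y⁻¹) := by
  have hx0 : 0 < x := by linarith
  have h1 : l * ((x ^ 4)⁻¹ / 25 * Y⁻¹) = l / (25 * x ^ 4 * Y) := by
    field_simp
  rw [h1, div_le_div_iff₀ (by positivity) (by positivity)]
  have h2 : x ^ 4 ≤ x ^ 6 := pow_le_pow_right₀ hx (by norm_num)
  have h3 : x ^ 4 * Y ≤ x ^ 6 * Y := mul_le_mul_of_nonneg_right h2 hY.le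
  have h4 : 0 < x ^ 6 * Y := by positivity
  nlinarith

set_option maxRecDepth 100000 in
lemma stage_mass (hq : (324 : ℝ) ^ 9 ≤ q) {m : ℕ} (hm : 0 < m)
    (K : Type) [Field K] [Fintype K] [DecidableEq K] [Algebra (ZMod q) K] (x : K)
    (B : ℕ) (hB : B = 2400) (gs : List (SL3 K)) (hgs : gs.length = B)
    (s : GK K) (hs : s ∈ genG 400 x) : 1 / rC q ≤ ww q m K x gs s := by
  have hBR : (gs.length : ℝ) = 2400 := by rw [hgs, hB]; norm_num
  have hrr := rr_le hm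
  have hrr0 := rr_pos hm
  have hq1 : (1 : ℝ) ≤ q := le_trans (by norm_num) hq
  have h1 := H98CO.le_pw (k := ZMod q) 400 x 16 (10 * m) (by norm_num) (rr m) hrr0.le gs
    (by rw [hBR]; linarith) s hs
  refine le_trans ?_ h1
  rw [hBR, ZMod.card, card_NI]
  have e1 : 3 * 16 = 48 := rfl
  rw [e1]
  have e2 : ((25 : ℕ) : ℝ) = 25 := by norm_num
  rw [e2]
  unfold rC
  exact mass_ineq (by linarith) hq1 (by positivity)

open Classical in
lemma stage_supp (hq : (324 : ℝ) ^ 9 ≤ q) {m : ℕ}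
    (K : Type) [Field K] [Fintype K] [DecidableEq K] [Algebra (ZMod q) K] (x : K)
    (B : ℕ) (hB : B = 2400) (gs : List (SL3 K)) (hgs : gs.length = B) :
    ((univ.filter fun g : GK K => ww q m K x gs g ≠ 0).card : ℝ) ≤ rC q := by
  have h1 := card_supp (c := stepC (ZMod q) H98CO.NI) 400 (V00 (ZMod q) x 16 (10 * m))
    (bb q K x) (rr m) gs
  have h2 := H98CO.card_V00_le (k := ZMod q) x 16 (10 * m)
  rw [ZMod.card] at h2
  have h3 := card_IX hq
  have h4 : (univ.filter fun g : GK K => ww q m K x gs g ≠ 0).card ≤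
      q ^ 6 * (q ^ 48) ^ 400 + 2400 := by
    refine h1.trans ?_
    rw [hgs, hB]
    exact add_le_add (Nat.mul_le_mul h3 (Nat.pow_le_pow_left h2 400)) le_rfl
  have h5 : ((univ.filter fun g : GK K => ww q m K x gs g ≠ 0).card : ℝ) ≤
      (q : ℝ) ^ 6 * ((q : ℝ) ^ 48) ^ 400 + 2400 := by exact_mod_cast h4
  refine h5.trans ?_
  unfold rC
  have h6 : 0 ≤ (q : ℝ) ^ 6 * ((q : ℝ) ^ 48) ^ 400 := by positivity
  rw [mul_assoc]
  have h7 : ∀ y : ℝ, 0 ≤ y → y + 2400 ≤ 50 * y + 2400 := fun y hy => by linarith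
  exact h7 _ h6

set_option maxRecDepth 100000 in
open scoped Pointwise in
theorem stage (hq : (324 : ℝ) ^ 9 ≤ q) : ∃ c : ℝ, 0 < c ∧ ∃ m0 : ℕ, ∀ m ≥ m0,
    ∃ (G : Type) (_ : Group G) (_ : Fintype G) (_ : DecidableEq G) (S : Finset G) (p : G → ℝ),
      m ≤ Fintype.card G ∧ 1 ∈ S ∧ (∀ s ∈ S, s⁻¹ ∈ S) ∧
      (∀ A : Finset G, 2 * A.card ≤ Fintype.card G →
        c * (A.card : ℝ) ≤ (((A * S) \ A).card : ℝ)) ∧
      (∀ g, 0 ≤ p g) ∧ ∑ g, p g = 1 ∧ (∀ s ∈ S, 1 / rC q ≤ p s) ∧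
      ((Finset.univ.filter (fun g : G => p g ≠ 0)).card : ℝ) ≤ rC q ∧
      H98CO.tv p (24000 * m) ≤ 1 - cc ∧ cc ≤ H98CO.tv p (29000 * m) := by
  obtain ⟨c, hc, hexp⟩ := H98CO.expander q 400
  obtain ⟨m1, hm1⟩ := stage_upper hq (H98CO.num1 q hq)
  obtain ⟨m2, hm2⟩ := stage_lower hq (H98CO.num3 q hq)
  refine ⟨c, hc, max (max m1 m2) 1, ?_⟩
  intro m hm
  have hma : m1 ≤ m := ((le_max_left _ _).trans (le_max_left _ _)).trans hm
  have hmb : m2 ≤ m := ((le_max_right _ _).trans (le_max_left _ _)).trans hm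
  have hmpos : 0 < m := (le_max_right _ _).trans hm
  obtain ⟨K, _, _, _, _, x, hK, hadj, hx⟩ := H98CO.exists_field q (10000 * m) (by omega)
  obtain ⟨B, hB⟩ : ∃ B : ℕ, B = 2400 := ⟨_, rfl⟩
  obtain ⟨gs, hgs, hup⟩ := hm1 m hma hmpos K x hK hx B hB
  have hlow := hm2 m hmb hmpos K x hK B hB gs hgs
  have hBR : (gs.length : ℝ) = 2400 := by rw [hgs, hB]; norm_num
  have hrr := rr_le hmpos
  have hrr0 := rr_pos hmpos
  refine ⟨GK K, inferInstance, inferInstance, inferInstance, genG 400 x, ww q m K x gs,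
    ?_, ?_, ?_, ?_, ?_, ?_, ?_, ?_, ?_, hlow⟩
  · -- cardinality
    have h1 : m ≤ Fintype.card K := by
      rw [hK]
      have hq2 : 2 ≤ q := hqp.out.two_le
      calc m ≤ 10000 * m := by omega
        _ ≤ q ^ (10000 * m) := (Nat.lt_pow_self (by omega)).le
    refine h1.trans ?_
    rw [Sdp.card_eq]
    have h2 : Fintype.card K ≤ Fintype.card (Fin 400 → Fin 3 → K) :=
      Fintype.card_le_of_injective (fun a => fun _ _ => a) fun a b h =>
        congrFun (congrFun h 0) 0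
    exact h2.trans (Nat.le_mul_of_pos_right _ Fintype.card_pos)
  · unfold genG; exact Finset.mem_insert_self _ _
  · exact H98CO.genG_symm x
  · exact hexp K x hadj
  · exact pw_nonneg _ _ stepC_nonneg _ hrr0.le gs (by rw [hBR]; linarith)
  · exact sum_pw _ _ stepC_sum _ _ _
  · intro s hs
    exact stage_mass hq hmpos K x B hB gs hgs s hs
  · have h1 := stage_supp (m := m) hq K x B hB gs hgs
    convert h1
  · rw [H98CO.tv_eq_one_sub_ov (ww q m K x gs) (sum_pw _ _ stepC_sum _ _ _)]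
    have h1 : cc ≤ ov ((H98CO.stp (ww q m K x gs))^[24000 * m] (dl 1)) := hup
    exact sub_le_sub_left h1 1

end stage

end Pool.Agent.Lib_helper64.Cut
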