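import Mathlib

/-! Isotypic projections of a unitary representation under a finite abelian subgroup. -/

set_option autoImplicit false

namespace Pool.Agent.Lib_helper64.Cut

open Finset
open scoped ComplexConjugate

variable {H : Type*} [NormedAddCommGroup H] [InnerProductSpace ℂ H]
variable {G : Type*} [Group G] (π : G →* (H ≃ₗᵢ[ℂ] H))
variable {A : Type*} [AddCommGroup A] [Fintype A]

/-- the projection to the `ψ`-isotypic part for the subgroup `u : A → G` -/
noncomputable def Pr (u : A → G) (ψ : AddChar A ℂ) : H →ₗ[ℂ] H :=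
  ((Fintype.card A : ℂ)⁻¹) • ∑ a : A, (ψ (-a)) • (π (u a)).toLinearEquiv.toLinearMap

lemma Pr_apply (u : A → G) (ψ : AddChar A ℂ) (v : H) :
    Pr π u ψ v = ((Fintype.card A : ℂ)⁻¹) • ∑ a : A, (ψ (-a)) • π (u a) v := by
  simp [Pr, LinearMap.sum_apply]

lemma pi_mul_apply (g h : G) (v : H) : π (g * h) v = π g (π h v) := by
  rw [map_mul]; rfl

lemma pi_one_apply (v : H) : π 1 v = v := by
  rw [map_one]; rfl

lemma pi_inv_apply_self (g : G) (v : H) : π g⁻¹ (π g v) = v := by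
  rw [← pi_mul_apply, inv_mul_cancel, pi_one_apply]

lemma pi_apply_inv_self (g : G) (v : H) : π g (π g⁻¹ v) = v := by
  rw [← pi_mul_apply, mul_inv_cancel, pi_one_apply]

lemma inner_pi_pi (g : G) (v w : H) : inner ℂ (π g v) (π g w) = inner ℂ v w :=
  (π g).inner_map_map v w

lemma norm_pi (g : G) (v : H) : ‖π g v‖ = ‖v‖ := (π g).norm_map v

lemma card_ne : (Fintype.card A : ℂ) ≠ 0 := by
  have : 0 < Fintype.card A := Fintype.card_pos
  exact_mod_cast this.ne'

lemma pi_Pr {u : A → G} (hu : ∀ a b, u (a + b) = u a * u b) (ψ : AddChar A ℂ) (b : A) (v : H) :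
    π (u b) (Pr π u ψ v) = ψ b • Pr π u ψ v := by
  rw [Pr_apply, map_smul, map_sum, smul_comm]
  congr 1
  rw [Finset.smul_sum]
  simp only [map_smul, ← pi_mul_apply, ← hu]
  refine Fintype.sum_equiv (Equiv.addLeft b) _ _ fun a => ?_
  simp only [Equiv.coe_addLeft]
  rw [smul_smul, ← AddChar.map_add_eq_mul]
  have h2 : b + -(b + a) = -a := by abel
  rw [h2]

lemma Pr_of_eigen {u : A → G} (ψ : AddChar A ℂ) {v : H}
    (hv : ∀ b, π (u b) v = ψ b • v) : Pr π u ψ v = v := by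
  rw [Pr_apply]
  have : ∀ a : A, ψ (-a) • π (u a) v = v := by
    intro a
    rw [hv, smul_smul, ← AddChar.map_add_eq_mul, neg_add_cancel, AddChar.map_zero_eq_one, one_smul]
  simp only [this, Finset.sum_const, Finset.card_univ]
  rw [← Nat.cast_smul_eq_nsmul ℂ, smul_smul, inv_mul_cancel₀ card_ne, one_smul]

lemma sum_Pr {u : A → G} (hu0 : u 0 = 1) (v : H) :
    ∑ ψ : AddChar A ℂ, Pr π u ψ v = v := by
  classical
  simp only [Pr_apply]
  rw [← Finset.smul_sum, Finset.sum_comm]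
  simp only [← Finset.sum_smul]
  have : ∀ a : A, (∑ ψ : AddChar A ℂ, ψ (-a)) = if a = 0 then (Fintype.card A : ℂ) else 0 := by
    intro a
    rw [AddChar.sum_apply_eq_ite]
    simp
  simp only [this, ite_smul, zero_smul, Finset.sum_ite_eq', Finset.mem_univ, if_true, hu0,
    pi_one_apply]
  rw [smul_smul, inv_mul_cancel₀ card_ne, one_smul]

lemma addChar_norm (ψ : AddChar A ℂ) (a : A) : ‖ψ a‖ = 1 := AddChar.norm_apply ψ a

lemma inner_eigen_eq_zero {u : A → G} {ψ ψ' : AddChar A ℂ} (h : ψ ≠ ψ') {v w : H}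
    (hv : ∀ b, π (u b) v = ψ b • v) (hw : ∀ b, π (u b) w = ψ' b • w) :
    inner ℂ v w = 0 := by
  obtain ⟨b, hb⟩ : ∃ b, ψ b ≠ ψ' b := by
    by_contra hcon
    push Not at hcon
    exact h (DFunLike.ext _ _ hcon)
  have h1 : inner ℂ v w = conj (ψ b) * ψ' b * inner ℂ v w := by
    conv_lhs => rw [← inner_pi_pi π (u b), hv, hw, inner_smul_left, inner_smul_right]
    ring
  by_contra hne
  have h2 : conj (ψ b) * ψ' b = 1 := by
    have := mul_right_cancel₀ hne (h1.symm.trans (one_mul _).symm)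
    exact this
  apply hb
  have h3 : ψ b * conj (ψ b) = 1 := by
    rw [Complex.mul_conj, Complex.normSq_eq_norm_sq, addChar_norm]; norm_num
  calc ψ b = ψ b * (conj (ψ b) * ψ' b) := by rw [h2, mul_one]
    _ = (ψ b * conj (ψ b)) * ψ' b := by ring
    _ = ψ' b := by rw [h3, one_mul]

lemma inner_Pr_Pr {u : A → G} (hu : ∀ a b, u (a + b) = u a * u b) {ψ ψ' : AddChar A ℂ}
    (h : ψ ≠ ψ') (v w : H) : inner ℂ (Pr π u ψ v) (Pr π u ψ' w) = 0 :=
  inner_eigen_eq_zero π h (fun b => pi_Pr π hu ψ b v) (fun b => pi_Pr π hu ψ' b w)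

lemma norm_sq_sum_of_orthogonal {ι : Type*} (s : Finset ι) (f : ι → H)
    (h : ∀ i ∈ s, ∀ j ∈ s, i ≠ j → inner ℂ (f i) (f j) = 0) :
    ‖∑ i ∈ s, f i‖ ^ 2 = ∑ i ∈ s, ‖f i‖ ^ 2 := by
  classical
  induction s using Finset.induction_on with
  | empty => simp
  | insert a s ha ih =>
    rw [Finset.sum_insert ha, Finset.sum_insert ha]
    have h0 : inner ℂ (f a) (∑ i ∈ s, f i) = 0 := by
      rw [inner_sum]
      refine Finset.sum_eq_zero fun i hi => h a (by simp) i (by simp [hi]) ?_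
      rintro rfl; exact ha hi
    rw [norm_add_sq (𝕜 := ℂ), h0, ih]
    · simp
    · intro i hi j hj hij
      exact h i (by simp [hi]) j (by simp [hj]) hij

lemma norm_sq_eq_sum_Pr {u : A → G} (hu : ∀ a b, u (a + b) = u a * u b) (hu0 : u 0 = 1) (v : H) :
    ‖v‖ ^ 2 = ∑ ψ : AddChar A ℂ, ‖Pr π u ψ v‖ ^ 2 := by
  conv_lhs => rw [← sum_Pr π hu0 v]
  exact norm_sq_sum_of_orthogonal _ _ fun ψ _ ψ' _ hne => inner_Pr_Pr π hu hne v v

lemma Pr_comm {u : A → G} (ψ : AddChar A ℂ) (T : H →ₗ[ℂ] H)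
    (hT : ∀ a v, T (π (u a) v) = π (u a) (T v)) (v : H) :
    T (Pr π u ψ v) = Pr π u ψ (T v) := by
  rw [Pr_apply, Pr_apply, map_smul, map_sum]
  simp only [map_smul, hT]

/-- a group element normalising `u` permutes the projections -/
lemma pi_Pr_conj {u : A → G} (ψ : AddChar A ℂ) (g : G) (τ : A ≃+ A)
    (hτ : ∀ a, g * u a = u (τ a) * g) (v : H) :
    π g (Pr π u ψ v) = Pr π u (ψ.compAddMonoidHom τ.symm.toAddMonoidHom) (π g v) := by
  rw [Pr_apply, Pr_apply, map_smul, map_sum]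
  congr 1
  refine Fintype.sum_equiv τ.toEquiv _ _ fun a => ?_
  rw [map_smul, ← pi_mul_apply, hτ, pi_mul_apply]
  congr 1
  simp

end Pool.Agent.Lib_helper64.Cut
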